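import Pool.Agent.N778.MZ.De

/-!
# Poisson means of truncated multiple zeta values with arbitrary entries
-/

set_option autoImplicit false
set_option linter.unusedSectionVars false

open PowerSeries Pool.Agent.N902.EW

namespace Pool.Agent.N778.MZ

section

variable {K : Type*} [Field K] [CharZero K]

/-- the truncated multiple sums, the entry `m` stands for the exponent `m + 1` -/
noncomputable def Hn (K : Type*) [Field K] : List ℕ → ℕ → K
  | [], _ => 1
  | m :: s, n => ∑ i ∈ Finset.range n, Hn K s i / ((i : K) + 1) ^ (m + 1)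

lemma Hn_nil (n : ℕ) : Hn K [] n = 1 := rfl

lemma Hn_cons (m : ℕ) (s : List ℕ) (n : ℕ) :
    Hn K (m :: s) n = ∑ i ∈ Finset.range n, Hn K s i / ((i : K) + 1) ^ (m + 1) := rfl

/-- the series `∑ H_n x^n / n!` -/
noncomputable def Hd (s : List ℕ) (x : K) : K⟦X⟧ := PowerSeries.mk fun n => x ^ n / n.factorial * Hn K s n

/-- the auxiliary series -/
noncomputable def Gd (j : ℕ) (s : List ℕ) (x : K) : K⟦X⟧ :=
  PowerSeries.mk fun n => if n = 0 then 0 else x ^ n / (n.factorial * (n : K) ^ j) * Hn K s (n - 1)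

/-- the Poisson mean -/
noncomputable def Fd (s : List ℕ) (x : K) : K⟦X⟧ := ex (-x) * Hd s x

lemma Hd_nil (x : K) : Hd [] x = ex x := by
  ext n
  rw [Hd, coeff_mk, coeff_ex, Hn_nil, mul_one]

lemma Fd_nil (x : K) : Fd [] x = 1 := by
  rw [Fd, Hd_nil, ← ex_add, neg_add_cancel, ex_zero]

lemma ex_mul_Fd (s : List ℕ) (x : K) : ex x * Fd s x = Hd s x := by
  rw [Fd, ← mul_assoc, ← ex_add, add_neg_cancel, ex_zero, one_mul]

lemma Gd_succ (j : ℕ) (s : List ℕ) (x : K) : Gd (j + 1) s x = ig (Gd j s x) := by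
  ext n
  rw [coeff_ig, Gd, Gd, coeff_mk, coeff_mk]
  split_ifs with h
  · rw [zero_div]
  · have h1 : (n : K) ≠ 0 := by exact_mod_cast h
    have h2 : (n.factorial : K) ≠ 0 := by exact_mod_cast n.factorial_ne_zero
    rw [pow_succ (n : K) j]
    field_simp

lemma th_Hd (m : ℕ) (s : List ℕ) (x : K) :
    th (Hd (m :: s) x) - x • (X * Hd (m :: s) x) = Gd m s x := by
  ext n
  rw [map_sub, coeff_smul, coeff_th]
  rcases n with _ | n
  · simp [Gd]
  · rw [coeff_succ_X_mul, Hd, Gd, coeff_mk, coeff_mk, coeff_mk, if_neg (Nat.succ_ne_zero n), Hn_cons, Hn_cons,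
      Finset.sum_range_succ, Nat.add_sub_cancel]
    have h1 : ((n + 1).factorial : K) = (n + 1) * n.factorial := by
      rw [Nat.factorial_succ]; push_cast; ring
    have h2 : (n.factorial : K) ≠ 0 := by exact_mod_cast n.factorial_ne_zero
    have h3 : ((n : K) + 1) ≠ 0 := by exact_mod_cast Nat.succ_ne_zero n
    rw [h1, smul_eq_mul, pow_succ x, pow_succ ((n : K) + 1) m]
    push_cast
    field_simp
    ring

lemma Fd_cons (m : ℕ) (s : List ℕ) (x : K) : ig (ex (-x) * Gd m s x) = Fd (m :: s) x := by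
  have h1 : th (Fd (m :: s) x) = ex (-x) * Gd m s x := by
    rw [← th_Hd, Fd, th_mul, th_ex, smul_eq_C_mul, smul_eq_C_mul, map_neg]
    ring
  have h0 : coeff 0 (Fd (m :: s) x) = 0 := by
    rw [Fd, coeff_zero_eq_constantCoeff_apply, map_mul, ← coeff_zero_eq_constantCoeff_apply (φ := Hd (m :: s) x), Hd,
      coeff_mk]
    simp [Hn_cons]
  rw [← h1, ig_th h0]

lemma Gd_zero_nil {x : K} (hx : x ≠ 0) : Gd 0 [] x = lt x := by
  ext n
  rw [Gd, coeff_mk, lt_ne hx, map_sub, coeff_ex, coeff_one]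
  split_ifs with h
  · rw [h]; simp
  · rw [Hn_nil, pow_zero, mul_one, mul_one, sub_zero]

lemma Gd_zero_cons (m : ℕ) (s : List ℕ) (x : K) : Gd 0 (m :: s) x = ex x * Fd (m :: s) x - Gd (m + 1) s x := by
  rw [ex_mul_Fd]
  ext n
  rw [map_sub, Gd, Gd, Hd, coeff_mk, coeff_mk, coeff_mk]
  rcases n with _ | n
  · simp [Hn_cons]
  · rw [if_neg (Nat.succ_ne_zero n), if_neg (Nat.succ_ne_zero n), Nat.add_sub_cancel, Hn_cons, Hn_cons,
      Finset.sum_range_succ]
    have h2 : ((n + 1).factorial : K) ≠ 0 := by exact_mod_cast (n + 1).factorial_ne_zero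
    have h3 : ((n : K) + 1) ≠ 0 := by exact_mod_cast Nat.succ_ne_zero n
    push_cast
    field_simp
    ring

lemma Gd_iter (j : ℕ) (s : List ℕ) (x : K) : Gd j s x = ig^[j] (Gd 0 s x) := by
  induction j with
  | zero => rfl
  | succ j ih => rw [Gd_succ, ih, Function.iterate_succ_apply']

lemma ig_iter_sub (j : ℕ) (f g : K⟦X⟧) : ig^[j] (f - g) = ig^[j] f - ig^[j] g := by
  induction j with
  | zero => rfl
  | succ j ih => rw [Function.iterate_succ_apply', ih, ig_sub, Function.iterate_succ_apply',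
      Function.iterate_succ_apply']

/-- the operator of an entry -/
noncomputable def Mo (x : K) : ℕ → K⟦X⟧ → K⟦X⟧
  | 0, f => ig f
  | j + 1, f => ig (ex (-x) * ig^[j] (ig (ex x * f)))

/-- the recursion -/
lemma Fd_rec (j m : ℕ) (s : List ℕ) (x : K) :
    Fd (j :: m :: s) x = Mo x j (Fd (m :: s) x) - Fd ((m + j + 1) :: s) x := by
  have h1 : Gd (m + j + 1) s x = ig^[j] (Gd (m + 1) s x) := by
    have h0 : m + j + 1 = j + (m + 1) := by omega
    rw [h0, Gd_iter (j + (m + 1)), Gd_iter (m + 1), Function.iterate_add_apply]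
  rw [← Fd_cons j, Gd_iter j, Gd_zero_cons, ig_iter_sub, ← h1, mul_sub, ig_sub, ← Fd_cons (m + j + 1)]
  congr 1
  rcases j with _ | j
  · show ig (ex (-x) * (ex x * Fd (m :: s) x)) = ig (Fd (m :: s) x)
    rw [← mul_assoc, ← ex_add, neg_add_cancel, ex_zero, one_mul]
  · rw [Function.iterate_succ_apply]
    rfl

lemma Fd_single_zero {x : K} (hx : x ≠ 0) : Fd [0] x = -U [-x] := by
  rw [← Fd_cons 0, Gd_zero_nil hx, U_cons, U_nil, mul_one, lt_ne hx, lt_ne (neg_ne_zero.2 hx), mul_sub, mul_one,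
    ← ex_add, neg_add_cancel, ex_zero]
  have h1 : (1 : K⟦X⟧) - ex (-x) = (-1 : K) • (ex (-x) - 1) := by
    rw [neg_smul, one_smul]; ring
  rw [h1, ig_smul, neg_smul, one_smul]

lemma Fd_single_succ (j : ℕ) {x : K} (hx : x ≠ 0) : Fd [j + 1] x = ig (ex (-x) * ig^[j] (U [x])) := by
  rw [← Fd_cons (j + 1), Gd_iter, Gd_zero_nil hx, Function.iterate_succ_apply, U_cons, U_nil, mul_one]

/-! ### The star sums -/

/-- the Poisson means of the star sums -/
noncomputable def Sd (x : K) : List ℕ → K⟦X⟧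
  | [] => 1
  | [j] => Fd [j] x
  | j :: m :: s => Mo x j (Sd x (m :: s))

lemma Sd_cons (x : K) (j m : ℕ) (s : List ℕ) : Sd x (j :: m :: s) = Mo x j (Sd x (m :: s)) := rfl

lemma Mo_add (x : K) (j : ℕ) (f g : K⟦X⟧) : Mo x j (f + g) = Mo x j f + Mo x j g := by
  have hi : ∀ (n : ℕ) (f g : K⟦X⟧), ig^[n] (f + g) = ig^[n] f + ig^[n] g := by
    intro n
    induction n with
    | zero => intro f g; rfl
    | succ n ih =>
      intro f g
      rw [Function.iterate_succ_apply', ih, ig_add, Function.iterate_succ_apply', Function.iterate_succ_apply']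
  rcases j with _ | j
  · exact ig_add f g
  · show ig (ex (-x) * ig^[j] (ig (ex x * (f + g)))) = ig (ex (-x) * ig^[j] (ig (ex x * f))) +
      ig (ex (-x) * ig^[j] (ig (ex x * g)))
    rw [mul_add, ig_add, hi, mul_add, ig_add]

lemma Mo_smul (x : K) (j : ℕ) (c : K) (f : K⟦X⟧) : Mo x j (c • f) = c • Mo x j f := by
  have hi : ∀ (n : ℕ) (f : K⟦X⟧), ig^[n] (c • f) = c • ig^[n] f := by
    intro n
    induction n with
    | zero => intro f; rfl
    | succ n ih =>
      intro f
      rw [Function.iterate_succ_apply', ih, ig_smul, Function.iterate_succ_apply']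
  rcases j with _ | j
  · exact ig_smul c f
  · show ig (ex (-x) * ig^[j] (ig (ex x * (c • f)))) = c • ig (ex (-x) * ig^[j] (ig (ex x * f)))
    rw [mul_smul_comm, ig_smul, hi, mul_smul_comm, ig_smul]

/-- the span of the star sums of smaller length -/
def Q (x : K) (n : ℕ) : Submodule K K⟦X⟧ := Submodule.span K {f | ∃ s : List ℕ, s ≠ [] ∧ s.length < n ∧ f = Sd x s}

lemma Q_mono (x : K) {m n : ℕ} (h : m ≤ n) : Q x m ≤ Q x n := by
  refine Submodule.span_mono ?_
  rintro _ ⟨s, h1, h2, rfl⟩
  exact ⟨s, h1, by omega, rfl⟩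

lemma Mo_mem (x : K) (j : ℕ) {n : ℕ} {f : K⟦X⟧} (hf : f ∈ Q x n) : Mo x j f ∈ Q x (n + 1) := by
  refine Submodule.span_induction (p := fun f _ => Mo x j f ∈ Q x (n + 1)) ?_ ?_ ?_ ?_ hf
  · rintro _ ⟨s, h1, h2, rfl⟩
    rcases s with _ | ⟨m, s⟩
    · exact absurd rfl h1
    · rw [← Sd_cons]
      exact Submodule.subset_span ⟨j :: m :: s, by simp, by simpa using h2, rfl⟩
  · have h1 := Mo_smul x j (0 : K) 0
    rw [zero_smul, zero_smul] at h1
    rw [h1]
    exact Submodule.zero_mem _
  · intro f g _ _ hf hg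
    rw [Mo_add]
    exact Submodule.add_mem _ hf hg
  · intro c f _ hf
    rw [Mo_smul]
    exact Submodule.smul_mem _ _ hf

/-- **the Poisson means and the star sums** -/
theorem Fd_sub_Sd (x : K) : ∀ (n : ℕ) (s : List ℕ), s.length = n + 1 → Fd s x - Sd x s ∈ Q x (n + 1) := by
  intro n
  induction n with
  | zero =>
    intro s hs
    obtain ⟨j, rfl⟩ := List.length_eq_one_iff.1 hs
    show Fd [j] x - Fd [j] x ∈ _
    rw [sub_self]
    exact Submodule.zero_mem _
  | succ n ih =>
    intro s hs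
    rcases s with _ | ⟨j, s⟩
    · simp at hs
    rcases s with _ | ⟨m, s⟩
    · simp at hs
    have hl : (m :: s).length = n + 1 := by simpa using hs
    have h1 := Mo_mem x j (ih (m :: s) hl)
    have h2 := ih ((m + j + 1) :: s) hl
    have h3 : Fd ((m + j + 1) :: s) x ∈ Q x (n + 2) := by
      have h4 : Sd x ((m + j + 1) :: s) ∈ Q x (n + 2) :=
        Submodule.subset_span ⟨_, by simp, by simp at hl ⊢; omega, rfl⟩
      have h5 := Submodule.add_mem _ (Q_mono x (Nat.le_succ _) h2) h4
      rwa [sub_add_cancel] at h5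
    have h6 : Fd (j :: m :: s) x - Sd x (j :: m :: s) =
        Mo x j (Fd (m :: s) x - Sd x (m :: s)) - Fd ((m + j + 1) :: s) x := by
      have h7 := Mo_add x j (Fd (m :: s) x - Sd x (m :: s)) (Sd x (m :: s))
      rw [sub_add_cancel] at h7
      rw [Fd_rec, Sd_cons, h7]
      ring
    rw [h6]
    exact Submodule.sub_mem _ h1 h3

/-! ### The leading words of the star sums -/

/-- the word of a composition -/
def WP (x : K) : List ℕ → List K
  | [] => []
  | [0] => [-x]
  | 0 :: m :: s => 0 :: WP x (m :: s)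
  | (j + 1) :: s => -x :: (zs x j ++ WP x s)

/-- the sign -/
def sg : List ℕ → ℤ
  | [] => 1
  | [0] => -1
  | [_ + 1] => 1
  | _ :: m :: s => sg (m :: s)

lemma sg_ne (s : List ℕ) : (sg s : K) ≠ 0 := by
  have h : sg s = 1 ∨ sg s = -1 := by
    induction s with
    | nil => left; rfl
    | cons j s ih =>
      rcases s with _ | ⟨m, s⟩
      · rcases j with _ | j
        · right; rfl
        · left; rfl
      · have h1 : sg (j :: m :: s) = sg (m :: s) := by
          rcases j with _ | j <;> rfl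
        rw [h1]
        exact ih
  rcases h with h | h <;> rw [h] <;> norm_num

/-- the leading word with a sign -/
structure Le (x : K) (c : K) (d : ℕ) (w : List K) (f : K⟦X⟧) : Prop where
  adm : Adm w
  ne : w ≠ []
  nz : nz w ≤ d
  lets : Let x w
  mem : f - c • U w ∈ SF x d

lemma Le.E0 {x c : K} {d : ℕ} {w : List K} {f : K⟦X⟧} (h : Le x c d w f) : Le x c d (0 :: w) (ig f) where
  adm := adm_cons h.adm h.ne
  ne := by simp
  nz := by rw [nz_zero]; exact h.nz
  lets := h.lets.cons (Or.inl rfl)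
  mem := by
    rw [U_cons, lt_zero, one_mul, ← ig_smul, ← ig_sub]
    exact ig_mem h.mem

lemma Le.Ea {x a c : K} (ha0 : a ≠ 0) (ha : a = 0 ∨ a = x ∨ a = -x) {d : ℕ} {w : List K} {f : K⟦X⟧}
    (h : Le x c d w f) : Le x c (d + 1) (a :: w) (ig (ex a * f)) where
  adm := adm_cons h.adm h.ne
  ne := by simp
  nz := (nz_le _ _).trans (Nat.succ_le_succ h.nz)
  lets := h.lets.cons ha
  mem := by
    have h1 : ex a * f = lt a * f + f := by rw [lt_ne ha0]; ring
    have h2 : ig (ex a * f) - c • U (a :: w) = ig (lt a * (f - c • U w)) + ig (f - c • U w) + c • U (0 :: w) := by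
      rw [h1, ig_add, U_cons, U_cons, lt_zero, one_mul, mul_sub, ig_sub, ig_sub, mul_smul_comm, ig_smul, ig_smul]
      ring
    rw [h2]
    refine Submodule.add_mem _ (Submodule.add_mem _ (ig_lt_mem ha h.mem) (SF_mono x (Nat.le_succ d) (ig_mem h.mem))) ?_
    refine Submodule.smul_mem _ _ ?_
    exact U_mem_SF (adm_cons h.adm h.ne) (by simp) (by rw [nz_zero]; exact Nat.lt_succ_of_le h.nz)
      (h.lets.cons (Or.inl rfl))

lemma Le.iter {x c : K} {d : ℕ} {v : List K} {f : K⟦X⟧} (h : Le x c d (x :: v) f) (j : ℕ) :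
    Le x c d (zs x j ++ v) (ig^[j] f) := by
  induction j with
  | zero => exact h
  | succ j ih =>
    rw [Function.iterate_succ_apply']
    exact ih.E0

lemma Le.Mo {x c : K} (hx : x ≠ 0) {d : ℕ} {v : List K} {f : K⟦X⟧} (h : Le x c d v f) (j : ℕ) :
    Le x c (d + 2) (-x :: (zs x j ++ v)) (Mo x (j + 1) f) :=
  ((h.Ea hx (Or.inr (Or.inl rfl))).iter j).Ea (neg_ne_zero.2 hx) (Or.inr (Or.inr rfl))

lemma nz_eq {x : K} (hx : x ≠ 0) (j : ℕ) (v : List K) : nz (-x :: (zs x j ++ v)) = nz v + 2 := by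
  rw [nz_ne (neg_ne_zero.2 hx), nz_zs_append hx]

/-- **the leading words of the star sums** -/
theorem Le_Sd {x : K} (hx : x ≠ 0) : ∀ (s : List ℕ), s ≠ [] → Le x (sg s : K) (nz (WP x s)) (WP x s) (Sd x s) := by
  intro s
  induction s with
  | nil => intro h; exact absurd rfl h
  | cons j s ih =>
    intro _
    rcases s with _ | ⟨m, s⟩
    · rcases j with _ | j
      · have e : Sd x [0] = -U [-x] := Fd_single_zero hx
        have e2 : WP x [0] = [-x] := by rw [WP]
        rw [e, e2]
        exact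
          { adm := ⟨trivial, fun _ => neg_ne_zero.2 hx⟩
            ne := by simp
            nz := le_rfl
            lets := by
              intro a ha
              exact Or.inr (Or.inr (List.mem_singleton.1 ha))
            mem := by
              have : (sg [0] : K) = -1 := by norm_num [sg]
              rw [this, neg_smul, one_smul, sub_self]
              exact Submodule.zero_mem _ }
      · have e : Sd x [j + 1] = ig (ex (-x) * ig^[j] (U [x])) := Fd_single_succ j hx
        have e2 : WP x [j + 1] = -x :: (zs x j ++ []) := by rw [WP, WP]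
        have e3 : (sg [j + 1] : K) = 1 := by norm_num [sg]
        have h1 : Le x (1 : K) 1 [x] (U [x]) :=
          { adm := ⟨trivial, fun _ => hx⟩
            ne := by simp
            nz := by rw [nz_ne hx, nz_nil]
            lets := by
              intro a ha
              exact Or.inr (Or.inl (List.mem_singleton.1 ha))
            mem := by rw [one_smul, sub_self]; exact Submodule.zero_mem _ }
        have h2 := (h1.iter (v := []) j).Ea (neg_ne_zero.2 hx) (Or.inr (Or.inr rfl))
        rw [e, e2, e3, nz_eq hx, nz_nil]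
        exact h2
    · have h1 := ih (by simp)
      have e3 : (sg (j :: m :: s) : K) = (sg (m :: s) : K) := by
        have : sg (j :: m :: s) = sg (m :: s) := by
          rcases j with _ | j <;> rfl
        rw [this]
      rw [e3, Sd_cons]
      rcases j with _ | j
      · have e2 : WP x (0 :: m :: s) = 0 :: WP x (m :: s) := by rw [WP]
        rw [e2, nz_zero]
        exact h1.E0
      · have e2 : WP x ((j + 1) :: m :: s) = -x :: (zs x j ++ WP x (m :: s)) := by rw [WP]
        rw [e2, nz_eq hx]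
        exact h1.Mo hx j

end

end Pool.Agent.N778.MZ
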