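import Pool.Agent.N778.MZ.Mz

/-!
# The limits of the Poisson means
-/

set_option autoImplicit false
set_option linter.unusedSectionVars false

open Filter Topology

namespace Pool.Agent.N778.MZ

lemma pois_bound {a : ℕ → ℂ} {B ε : ℝ} (hB : 0 ≤ B) (hε : 0 ≤ ε) {J : ℕ} (h1 : ∀ j, ‖a j‖ ≤ B) (h2 : ∀ j, J ≤ j → ‖a j‖ ≤ ε)
    {x : ℝ} (hx : 0 ≤ x) :
    ‖Complex.exp (-(x : ℂ)) * ∑' j : ℕ, (x : ℂ) ^ j / (j.factorial : ℂ) * a j‖ ≤
      ε + ∑ j ∈ Finset.range J, B / j.factorial * (x ^ j * Real.exp (-x)) := by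
  have hexp : Summable fun j : ℕ => x ^ j / (j.factorial : ℝ) := Real.summable_pow_div_factorial x
  let c : ℕ → ℝ := fun j => x ^ j / (j.factorial : ℝ) * ε + if j ∈ Finset.range J then x ^ j / (j.factorial : ℝ) * B else 0
  have hs1 : Summable fun j : ℕ => x ^ j / (j.factorial : ℝ) * ε := hexp.mul_right ε
  have hs2 : Summable fun j : ℕ => (if j ∈ Finset.range J then x ^ j / (j.factorial : ℝ) * B else 0 : ℝ) :=
    summable_of_ne_finset_zero (s := Finset.range J) fun j hj => if_neg hj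
  have hterm : ∀ j : ℕ, ‖(x : ℂ) ^ j / (j.factorial : ℂ) * a j‖ ≤ c j := by
    intro j
    have h3 : ‖(x : ℂ) ^ j / (j.factorial : ℂ)‖ = x ^ j / (j.factorial : ℝ) := by
      rw [norm_div, norm_pow, Complex.norm_natCast, Complex.norm_real, Real.norm_eq_abs, abs_of_nonneg hx]
    have h4 : 0 ≤ x ^ j / (j.factorial : ℝ) := by positivity
    rw [norm_mul, h3]
    show _ ≤ x ^ j / (j.factorial : ℝ) * ε + (if j ∈ Finset.range J then x ^ j / (j.factorial : ℝ) * B else 0)
    by_cases hj : j < J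
    · rw [if_pos (Finset.mem_range.2 hj)]
      have := mul_le_mul_of_nonneg_left (h1 j) h4
      have := mul_nonneg h4 hε
      linarith
    · rw [if_neg (fun h => hj (Finset.mem_range.1 h)), add_zero]
      exact mul_le_mul_of_nonneg_left (h2 j (not_lt.1 hj)) h4
  have hsum : HasSum c (Real.exp x * ε + ∑ j ∈ Finset.range J, x ^ j / (j.factorial : ℝ) * B) := by
    refine HasSum.add ?_ ?_
    · have h5 : HasSum (fun j : ℕ => x ^ j / (j.factorial : ℝ)) (Real.exp x) := by
        rw [Real.exp_eq_exp_ℝ]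
        exact NormedSpace.expSeries_div_hasSum_exp x
      exact h5.mul_right ε
    · have h6 : HasSum (fun j : ℕ => (if j ∈ Finset.range J then x ^ j / (j.factorial : ℝ) * B else 0 : ℝ))
          (∑ j ∈ Finset.range J, (if j ∈ Finset.range J then x ^ j / (j.factorial : ℝ) * B else 0 : ℝ)) :=
        hasSum_sum_of_ne_finset_zero fun j hj => if_neg hj
      have h7 : ∑ j ∈ Finset.range J, (if j ∈ Finset.range J then x ^ j / (j.factorial : ℝ) * B else 0 : ℝ) =
          ∑ j ∈ Finset.range J, x ^ j / (j.factorial : ℝ) * B :=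
        Finset.sum_congr rfl fun j hj => if_pos hj
      rwa [h7] at h6
  have h8 := tsum_of_norm_bounded hsum hterm
  have h9 : ‖Complex.exp (-(x : ℂ))‖ = Real.exp (-x) := by
    rw [Complex.norm_exp]; simp
  rw [norm_mul, h9]
  refine (mul_le_mul_of_nonneg_left h8 (Real.exp_pos _).le).trans (le_of_eq ?_)
  rw [mul_add, ← mul_assoc, ← Real.exp_add, neg_add_cancel, Real.exp_zero, one_mul, Finset.mul_sum]
  congr 1
  exact Finset.sum_congr rfl fun j _ => by ring

theorem pois_tendsto {a : ℕ → ℂ} (ha : Tendsto a atTop (𝓝 0)) :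
    Tendsto (fun x : ℝ => Complex.exp (-(x : ℂ)) * ∑' j : ℕ, (x : ℂ) ^ j / (j.factorial : ℂ) * a j) atTop (𝓝 0) := by
  obtain ⟨B, hB⟩ := (Metric.isBounded_range_of_tendsto a ha).exists_norm_le
  have hB1 : ∀ j, ‖a j‖ ≤ B := fun j => hB _ ⟨j, rfl⟩
  have hB0 : 0 ≤ B := (norm_nonneg _).trans (hB1 0)
  rw [Metric.tendsto_nhds]
  intro ε hε
  obtain ⟨J, hJ⟩ := Metric.tendsto_atTop.1 ha (ε / 2) (by linarith)
  have hJ' : ∀ j, J ≤ j → ‖a j‖ ≤ ε / 2 := fun j hj => by
    have := hJ j hj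
    rw [dist_zero_right] at this
    exact this.le
  have hlim : Tendsto (fun x : ℝ => ∑ j ∈ Finset.range J, B / j.factorial * (x ^ j * Real.exp (-x))) atTop (𝓝 0) := by
    have h1 : Tendsto (fun x : ℝ => ∑ j ∈ Finset.range J, B / j.factorial * (x ^ j * Real.exp (-x))) atTop
        (𝓝 (∑ j ∈ Finset.range J, B / j.factorial * 0)) :=
      tendsto_finsetSum _ fun j _ => (Real.tendsto_pow_mul_exp_neg_atTop_nhds_zero j).const_mul _
    simpa using h1
  have h3 := (Metric.tendsto_nhds.1 hlim) (ε / 2) (by linarith)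
  filter_upwards [h3, eventually_ge_atTop 0] with x hx hx0
  rw [dist_zero_right] at hx ⊢
  have h4 := pois_bound hB0 (by linarith) hB1 hJ' hx0
  have h5 := (le_abs_self _).trans_lt hx
  linarith

theorem tl_tendsto {w : List ℕ} (hw : Word w) : Tendsto (tl w) atTop (𝓝 0) := by
  rcases w with _ | ⟨k, w⟩
  · exact absurd rfl hw.1
  · have h1 := (summ_H hw.2).hasSum.tendsto_sum_nat
    have h2 : Tendsto (fun j => zt (k :: w) - H (k :: w) j) atTop (𝓝 (zt (k :: w) - zt (k :: w))) :=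
      Tendsto.sub tendsto_const_nhds h1
    rw [sub_self] at h2
    refine h2.congr fun j => ?_
    rw [← H_add_tl hw j]; ring

/-- the Poisson means of the tails tend to `0` -/
theorem T_tendsto {w : List ℕ} (hw : Word w) : Tendsto (fun x : ℝ => T w x) atTop (𝓝 0) :=
  pois_tendsto (tl_tendsto hw)

/-- the Poisson means of the truncated sums tend to the multiple zeta value -/
theorem S_tendsto {w : List ℕ} (hw : Word w) : Tendsto (fun x : ℝ => S w x) atTop (𝓝 (zt w)) := by
  have h1 : Tendsto (fun x : ℝ => zt w - T w x) atTop (𝓝 (zt w - 0)) := Tendsto.sub tendsto_const_nhds (T_tendsto hw)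
  rw [sub_zero] at h1
  refine h1.congr fun x => ?_
  rw [← S_add_T hw x]; ring

end Pool.Agent.N778.MZ
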