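import Pool.Agent.N778.MZ.Op
import Pool.Agent.N778.MZ.Lim
import Pool.Agent.N778.CH.Star

/-!
# Lyndon words: exceptional points, at most one exception in every block
-/

set_option autoImplicit false
set_option linter.unusedSectionVars false

open Set Pool.Agent.N902.EW

namespace Pool.Agent.N778.MZ

section

variable {F E : Type*} [Field F] [Field E] [Algebra F E]

lemma dep_exists {ι : Type*} {v : ι → E} (h : ¬ AlgebraicIndependent F v) : ∃ i, v i ∈ clf F (v '' {i}ᶜ) := by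
  by_contra hcon
  push Not at hcon
  refine h (algebraicIndependent_of_finite_type' (algebraMap F E).injective fun t _ _ i hi hal => hcon i ?_)
  have h1 : v i ∈ clf F (v '' t) := mem_cl.2 hal
  refine clf_mono (image_mono ?_) h1
  intro j hj hji
  exact hi (hji ▸ hj)

theorem alg_count {ι P : Type*} [DecidableEq P] (W : Finset ι) (f g : ι → P → E) (t : Finset P)
    (h : AlgebraicIndependent F (fun p : W × t => f p.1 p.2)) {r : ℕ} (y : Fin r → E)
    (hfg : ∀ w ∈ W, ∀ x ∈ t, f w x ∈ clf F (insert (g w x) (range y)))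
    (ht : ∀ x ∈ t, ¬ AlgebraicIndependent F (fun w : W => g w x)) : t.card ≤ r := by
  classical
  choose wx hwx using fun x : t => dep_exists (ht x x.2)
  let A : Set E := range y ∪ (fun p : W × t => g p.1 p.2) '' {p | p.1 ≠ wx p.2}
  have hA : ∀ p : W × t, g p.1 p.2 ∈ clf F A := by
    intro p
    by_cases hp : p.1 = wx p.2
    · have h1 := hwx p.2
      rw [← hp] at h1
      refine clf_le ?_ h1
      rintro _ ⟨w, hw, rfl⟩
      refine subset_clf _ (Or.inr ⟨(w, p.2), ?_, rfl⟩)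
      intro h2
      exact hw (h2.trans hp.symm)
    · exact subset_clf _ (Or.inr ⟨p, hp, rfl⟩)
  have hA2 : ∀ p : W × t, f p.1 p.2 ∈ clf F A := by
    intro p
    refine clf_le ?_ (hfg _ p.1.2 _ p.2.2)
    rintro _ (rfl | ⟨j, rfl⟩)
    · exact hA p
    · exact subset_clf _ (Or.inl ⟨j, rfl⟩)
  have h1 := card_le_eRk h hA2
  have h2 : (Pool.Agent.N902.EW.Ma F : Matroid E).eRk A ≤ A.encard := Matroid.eRk_le_encard _ _
  let Q : Finset (W × t) := Finset.univ.filter fun p => p.1 ≠ wx p.2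
  let Q' : Finset (W × t) := Finset.univ.filter fun p => p.1 = wx p.2
  have hQ : Q'.card + Q.card = W.card * t.card := by
    have h3 := Finset.card_filter_add_card_filter_not (s := (Finset.univ : Finset (W × t))) (fun p => p.1 = wx p.2)
    rw [Finset.card_univ, Fintype.card_prod, Fintype.card_coe, Fintype.card_coe] at h3
    exact h3
  have hQ' : Q'.card = t.card := by
    have h3 : Q' = (Finset.univ : Finset t).image fun x => (wx x, x) := by
      ext p
      simp only [Q', Finset.mem_filter, Finset.mem_univ, true_and, Finset.mem_image]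
      constructor
      · intro h4
        exact ⟨p.2, Prod.ext h4.symm rfl⟩
      · rintro ⟨x, rfl⟩
        rfl
    rw [h3, Finset.card_image_of_injective _ (fun a b hab => (congrArg Prod.snd hab)), Finset.card_univ,
      Fintype.card_coe]
  have h3 : A.encard ≤ ((r + Q.card : ℕ) : ℕ∞) := by
    refine (encard_union_le _ _).trans ?_
    rw [Nat.cast_add]
    refine add_le_add ?_ ?_
    · rw [← image_univ]
      refine (encard_image_le _ _).trans ?_
      rw [encard_univ, ENat.card_eq_coe_fintype_card, Fintype.card_fin]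
    · refine (encard_image_le _ _).trans ?_
      have h4 : {p : W × t | p.1 ≠ wx p.2} = (Q : Set (W × t)) := by
        ext p
        simp [Q]
      rw [h4, encard_coe_eq_coe_finsetCard]
  have h4 := (h1.trans h2).trans h3
  rw [Fintype.card_prod, Fintype.card_coe, Fintype.card_coe] at h4
  have h5 : W.card * t.card ≤ r + Q.card := by exact_mod_cast h4
  omega

end

/-- at most one exception in every block -/
theorem lyn_star {φ : ℕ → ℤ} (hφ : Function.Injective φ) (ρ : Bool) (X : Set ℂ)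
    (hX : ∀ x ∈ X, IsAlgebraic ℚ x ∧ ∀ y ∈ X, x + y ≠ 0) {B : Type} (z : B → ℂ)
    (β : List ℕ → B) (hβ : ∀ w, LW φ ρ w → IsAlgebraic (IntermediateField.adjoin KK {z (β w)}) (zt w)) :
    ∃ C : Set (B ⊕ {p : List ℕ × ℂ // LW φ ρ p.1 ∧ p.2 ∈ X}),
      (∀ p q, p ∉ C → q ∉ C → Sum.elim id (fun p : {p : List ℕ × ℂ // LW φ ρ p.1 ∧ p.2 ∈ X} => β p.1.1) p =
        Sum.elim id (fun p : {p : List ℕ × ℂ // LW φ ρ p.1 ∧ p.2 ∈ X} => β p.1.1) q → p = q) ∧
      AlgebraicIndependent KK (fun p : C =>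
        Sum.elim z (fun p : {p : List ℕ × ℂ // LW φ ρ p.1 ∧ p.2 ∈ X} => T p.1.1 p.1.2) p.1) := by
  have hXc : X.Countable := (Algebraic.countable ℚ ℂ).mono fun x hx => (hX x hx).1
  have hc : Countable {p : List ℕ × ℂ // LW φ ρ p.1 ∧ p.2 ∈ X} := by
    refine (((countable_univ (α := List ℕ)).prod hXc).mono ?_).to_subtype
    rintro ⟨k, x⟩ h
    exact ⟨mem_univ _, h.2⟩
  have h0 : AlgebraicIndependent KK (Sum.elim (fun p : {p : List ℕ × ℂ // LW φ ρ p.1 ∧ p.2 ∈ X} => S p.1.1 p.1.2)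
      (fun i : Fin 0 => Fin.elim0 i)) := by
    have h1 := (ai_S hφ ρ X hX).comp (fun i : {p : List ℕ × ℂ // LW φ ρ p.1 ∧ p.2 ∈ X} ⊕ Fin 0 =>
      Sum.elim id (fun i : Fin 0 => Fin.elim0 i) i) (by
      rintro (a | a) (b | b) h
      · exact congrArg Sum.inl h
      · exact Fin.elim0 b
      · exact Fin.elim0 a
      · exact Fin.elim0 a)
    convert h1 using 1
    funext i
    rcases i with i | i
    · rfl
    · exact Fin.elim0 i
  obtain ⟨C, hC, hC2⟩ := Pool.Agent.N778.CH.star_indep (R := KK)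
    (fun p : {p : List ℕ × ℂ // LW φ ρ p.1 ∧ p.2 ∈ X} => β p.1.1)
    (U := Sum.elim z (fun p : {p : List ℕ × ℂ // LW φ ρ p.1 ∧ p.2 ∈ X} => T p.1.1 p.1.2)) h0 (fun p => by
      show S p.1.1 p.1.2 ∈ clf KK _
      have h1 : zt p.1.1 ∈ clf KK {z (β p.1.1)} := mem_clf.2 (hβ _ p.2.1)
      have h4 : S p.1.1 p.1.2 = zt p.1.1 - T p.1.1 p.1.2 := by rw [T_eq p.2.1.word]; ring
      rw [h4]
      refine (clf KK _).sub_mem (clf_mono ?_ h1) (subset_clf _ (Or.inl (Or.inr rfl)))
      rintro t rfl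
      exact Or.inl (Or.inl rfl))
  exact ⟨C, hC, hC2.comp Sum.inl Sum.inl_injective⟩

theorem ai_fin {φ : ℕ → ℤ} (hφ : Function.Injective φ) {ρ : Bool} {X : Set ℂ} (hX : ∀ x ∈ X, IsAlgebraic ℚ x ∧ ∀ y ∈ X, x + y ≠ 0) {W : Finset (List ℕ)}
    (hW : ∀ w ∈ W, LW φ ρ w) {t : Finset ℂ} (ht : (t : Set ℂ) ⊆ X) :
    AlgebraicIndependent KK (fun p : W × t => S p.1 p.2) := by
  let g : W × t → {p : List ℕ × ℂ // LW φ ρ p.1 ∧ p.2 ∈ X} := fun p => ⟨(p.1, p.2), hW _ p.1.2, ht p.2.2⟩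
  have hg : Function.Injective g := by
    intro p q hpq
    have e1 : (p.1 : List ℕ) = q.1 := congrArg (fun z : {p : List ℕ × ℂ // LW φ ρ p.1 ∧ p.2 ∈ X} => z.1.1) hpq
    have e2 : (p.2 : ℂ) = q.2 := congrArg (fun z : {p : List ℕ × ℂ // LW φ ρ p.1 ∧ p.2 ∈ X} => z.1.2) hpq
    exact Prod.ext (Subtype.ext e1) (Subtype.ext e2)
  exact (ai_S hφ ρ X hX).comp g hg

/-- the count of the exceptional points -/
theorem lyn_count {φ : ℕ → ℤ} (hφ : Function.Injective φ) {ρ : Bool} {X : Set ℂ} (hX : ∀ x ∈ X, IsAlgebraic ℚ x ∧ ∀ y ∈ X, x + y ≠ 0) {W : Finset (List ℕ)}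
    (hW : ∀ w ∈ W, LW φ ρ w) {r : ℕ} (y : Fin r → ℂ)
    (hy : ∀ w ∈ W, IsAlgebraic (IntermediateField.adjoin KK (range y)) (zt w)) :
    {x : ℂ | x ∈ X ∧ ¬ AlgebraicIndependent KK (fun w : W => T w x)}.encard ≤ r := by
  classical
  refine encard_le_of_fin _ _ fun t ht => ?_
  refine alg_count W S T t (ai_fin hφ hX hW fun x hx => (ht hx).1) y (fun w hw x _ => ?_) fun x hx => (ht hx).2
  have h1 : zt w ∈ clf KK (insert (T w x) (range y)) := clf_mono (subset_insert _ _) (mem_clf.2 (hy w hw))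
  have h2 : T w x ∈ clf KK (insert (T w x) (range y)) := subset_clf _ (mem_insert _ _)
  have h4 : S w x = zt w - T w x := by rw [T_eq (hW w hw).word]; ring
  rw [h4]
  exact (clf KK _).sub_mem h1 h2

/-- the count including the point `0` -/
theorem lyn_count_zero {φ : ℕ → ℤ} (hφ : Function.Injective φ) {ρ : Bool} {X : Set ℂ} (hX : ∀ x ∈ X, IsAlgebraic ℚ x ∧ ∀ y ∈ X, x + y ≠ 0) {W : Finset (List ℕ)}
    (hW : ∀ w ∈ W, LW φ ρ w) :
    {x : ℂ | (x ∈ X ∨ x = 0) ∧ ¬ AlgebraicIndependent KK (fun w : W => T w x)}.encard ≤ W.card := by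
  classical
  let e : Fin W.card ≃ W := W.equivFin.symm
  by_cases h0 : AlgebraicIndependent KK (fun w : W => T w 0)
  · have h1 := lyn_count hφ hX hW (fun i : Fin W.card => zt (e i)) fun w hw => by
      refine mem_clf.1 (subset_clf _ ⟨e.symm ⟨w, hw⟩, ?_⟩)
      show zt (e (e.symm ⟨w, hw⟩)) = zt w
      rw [Equiv.apply_symm_apply]
    refine (encard_le_encard ?_).trans h1
    rintro x ⟨hx | rfl, hx'⟩
    · exact ⟨hx, hx'⟩
    · exact absurd h0 hx'
  · obtain ⟨w₀, hw₀⟩ := dep_exists h0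
    have hpos : 1 ≤ W.card := Finset.card_pos.2 ⟨w₀.1, w₀.2⟩
    let W' : Finset (List ℕ) := W.erase w₀.1
    have hW' : W'.card = W.card - 1 := Finset.card_erase_of_mem w₀.2
    let e' : Fin W'.card ≃ W' := W'.equivFin.symm
    have hz : ∀ w : W, T w 0 = zt w := fun w => T_zero (hW w w.2).word
    have h1 := lyn_count hφ hX hW (fun i : Fin W'.card => zt (e' i)) fun w hw => by
      refine mem_clf.1 ?_
      by_cases hww : w = w₀.1
      · rw [hww]
        have h2 : zt w₀ = T w₀ 0 := (hz w₀).symm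
        rw [h2]
        refine clf_le ?_ hw₀
        rintro _ ⟨v, hv, rfl⟩
        have hv' : v.1 ∈ W' := Finset.mem_erase.2 ⟨fun h => hv (Subtype.ext h), v.2⟩
        refine subset_clf _ ⟨e'.symm ⟨v.1, hv'⟩, ?_⟩
        show zt (e' (e'.symm ⟨v.1, hv'⟩)) = T v 0
        rw [Equiv.apply_symm_apply, hz]
      · have hv' : w ∈ W' := Finset.mem_erase.2 ⟨hww, hw⟩
        refine subset_clf _ ⟨e'.symm ⟨w, hv'⟩, ?_⟩
        show zt (e' (e'.symm ⟨w, hv'⟩)) = zt w
        rw [Equiv.apply_symm_apply]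
    have h2 : {x : ℂ | (x ∈ X ∨ x = 0) ∧ ¬ AlgebraicIndependent KK (fun w : W => T w x)} ⊆
        insert 0 {x : ℂ | x ∈ X ∧ ¬ AlgebraicIndependent KK (fun w : W => T w x)} := by
      rintro x ⟨hx | rfl, hx'⟩
      · exact Or.inr ⟨hx, hx'⟩
      · exact Or.inl rfl
    refine (encard_le_encard h2).trans ((encard_insert_le _ _).trans ?_)
    calc {x : ℂ | x ∈ X ∧ ¬ AlgebraicIndependent KK (fun w : W => T w x)}.encard + 1 ≤ ((W'.card : ℕ) : ℕ∞) + 1 :=
          add_le_add_left h1 1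
      _ = ((W.card - 1 + 1 : ℕ) : ℕ∞) := by rw [hW']; push_cast; rfl
      _ = W.card := by rw [Nat.sub_add_cancel hpos]

end Pool.Agent.N778.MZ
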