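import Pool.Agent.N778.MZ.Wo

/-!
# The derivations on the Poisson means of the truncated multiple zeta values
-/

set_option autoImplicit false
set_option linter.unusedSectionVars false

open PowerSeries Pool.Agent.N902.EW

namespace Pool.Agent.N778.MZ

section

variable {K : Type*} [Field K] [CharZero K]

/-- the span of the words with less than `d` nonzero letters -/
noncomputable def VA (x : K) (d : ℕ) : Submodule K (AA K) :=
  Submodule.span K {f | ∃ (w : List K) (h : Adm w), nz w < d ∧ Let x w ∧ f = mk 0 w h}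

lemma mk_mem_VA {x : K} {d : ℕ} {w : List K} (h : Adm w) (h1 : nz w < d) (h2 : Let x w) : mk 0 w h ∈ VA x d :=
  Submodule.subset_span ⟨w, h, h1, h2, rfl⟩

lemma VA_mono (x : K) {d e : ℕ} (h : d ≤ e) : VA x d ≤ VA x e := by
  refine Submodule.span_mono ?_
  rintro _ ⟨w, h1, h2, h3, rfl⟩
  exact ⟨w, h1, by omega, h3, rfl⟩

lemma VA_zero {x : K} {f : AA K} (hf : f ∈ VA x 0) : f = 0 := by
  refine Submodule.span_induction (p := fun f _ => f = 0) ?_ rfl ?_ ?_ hf
  · rintro _ ⟨w, h1, h2, h3, rfl⟩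
    exact absurd h2 (Nat.not_lt_zero _)
  · intro f g _ _ hf hg
    rw [hf, hg, add_zero]
  · intro c f _ hf
    rw [hf, smul_zero]

lemma SF_le_AA {x : K} {d : ℕ} {f : K⟦X⟧} (hf : f ∈ SF x d) : f ∈ AA K := SW_le_SA (SP_le (SF_le_SP x d hf))

lemma SF_VA {x : K} {d : ℕ} {f : K⟦X⟧} (hf : f ∈ SF x d) : ∀ h : f ∈ AA K, (⟨f, h⟩ : AA K) ∈ VA x d := by
  refine Submodule.span_induction (p := fun f _ => ∀ h : f ∈ AA K, (⟨f, h⟩ : AA K) ∈ VA x d) ?_ ?_ ?_ ?_ hf
  · rintro _ ⟨w, h1, h2, h3, h4, rfl⟩ h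
    have e : (⟨U w, h⟩ : AA K) = mk 0 w h1 := by
      apply Subtype.ext
      show U w = ex 0 * U w
      rw [ex_zero, one_mul]
    rw [e]
    exact mk_mem_VA h1 h3 h4
  · intro h
    exact Submodule.zero_mem _
  · intro f g hf hg ihf ihg h
    exact Submodule.add_mem _ (ihf (SF_le_AA hf)) (ihg (SF_le_AA hg))
  · intro c f hf ihf h
    exact Submodule.smul_mem _ c (ihf (SF_le_AA hf))

lemma DA_VA_zero {x : K} {d : ℕ} {f : AA K} (hf : f ∈ VA x d) : DA 0 f ∈ VA x d := by
  refine Submodule.span_induction (p := fun f _ => DA 0 f ∈ VA x d) ?_ ?_ ?_ ?_ hf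
  · rintro _ ⟨w, h, h1, h2, rfl⟩
    rcases w with _ | ⟨b, v⟩
    · rw [DA_nil]; exact Submodule.zero_mem _
    · by_cases hab : b = 0
      · subst hab
        rw [DA_self]
        exact mk_mem_VA _ (by rwa [nz_zero] at h1) fun a ha => h2 a (List.mem_cons_of_mem _ ha)
      · rw [DA_ne hab]; exact Submodule.zero_mem _
  · rw [map_zero]; exact Submodule.zero_mem _
  · intro x y _ _ hx hy; rw [map_add]; exact Submodule.add_mem _ hx hy
  · intro c x _ hx; rw [Derivation.map_smul]; exact Submodule.smul_mem _ _ hx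

lemma DA_VA_ne {x a : K} (ha : a ≠ 0) {d : ℕ} {f : AA K} (hf : f ∈ VA x d) : DA a f ∈ VA x (d - 1) := by
  refine Submodule.span_induction (p := fun f _ => DA a f ∈ VA x (d - 1)) ?_ ?_ ?_ ?_ hf
  · rintro _ ⟨w, h, h1, h2, rfl⟩
    rcases w with _ | ⟨b, v⟩
    · rw [DA_nil]; exact Submodule.zero_mem _
    · by_cases hab : b = a
      · subst hab
        rw [DA_self]
        refine mk_mem_VA _ ?_ fun a ha => h2 a (List.mem_cons_of_mem _ ha)
        rw [nz_ne ha] at h1
        omega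
      · rw [DA_ne hab]; exact Submodule.zero_mem _
  · rw [map_zero]; exact Submodule.zero_mem _
  · intro x y _ _ hx hy; rw [map_add]; exact Submodule.add_mem _ hx hy
  · intro c x _ hx; rw [Derivation.map_smul]; exact Submodule.smul_mem _ _ hx

lemma Ek_VA {x : K} (hx : x ≠ 0) (n : ℕ) {d : ℕ} {f : AA K} (hf : f ∈ VA x d) : Ek x n f ∈ VA x (d - 1) := by
  induction n generalizing f with
  | zero => rw [Ek_zero]; exact DA_VA_ne hx hf
  | succ n ih =>
    rw [Ek_succ]
    exact Submodule.sub_mem _ (DA_VA_zero (ih hf)) (ih (DA_VA_zero hf))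

lemma Dk_VA {x : K} (hx : x ≠ 0) (n : ℕ) {d : ℕ} {f : AA K} (hf : f ∈ VA x d) : Dk x n f ∈ VA x (d - 2) := by
  rw [Dk_apply]
  exact Submodule.sub_mem _ (Ek_VA hx n (DA_VA_ne (neg_ne_zero.2 hx) hf))
    (DA_VA_ne (neg_ne_zero.2 hx) (Ek_VA hx n hf))

/-! ### The action on the words of the compositions -/

lemma DA_zero_WW {x : K} (hx : x ≠ 0) (l : K) (s : List ℕ) (h : Adm (WW x s)) : DA 0 (mk l (WW x s) h) = 0 := by
  rcases s with _ | ⟨m, s⟩
  · exact DA_nil _ _ _
  · exact DA_ne (neg_ne_zero.2 hx) _ _ _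

lemma Ek_zs_append {x : K} (hx : x ≠ 0) (n : ℕ) : ∀ (m : ℕ) (s : List ℕ) (l : K) (h : Adm (zs x m ++ WW x s))
    (h' : Adm (WW x s)), Ek x n (mk l (zs x m ++ WW x s) h) = if m = n then ((-1) ^ n : K) • mk l (WW x s) h' else 0 := by
  induction n with
  | zero =>
    intro m s l h h'
    rcases m with _ | m
    · rw [if_pos rfl, pow_zero, one_smul, Ek_zero]
      exact DA_self x l (WW x s) h
    · rw [if_neg (Nat.succ_ne_zero m), Ek_zero]
      exact DA_ne (Ne.symm hx) l (zs x m ++ WW x s) h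
  | succ n ih =>
    intro m s l h h'
    rw [Ek_succ, ih m s l h h']
    have h1 : DA (0 : K) (if m = n then ((-1) ^ n : K) • mk l (WW x s) h' else 0 : AA K) = 0 := by
      by_cases hmn : m = n
      · rw [if_pos hmn, Derivation.map_smul, DA_zero_WW hx, smul_zero]
      · rw [if_neg hmn, map_zero]
    rw [h1, zero_sub]
    rcases m with _ | m
    · rw [if_neg (Nat.succ_ne_zero n).symm]
      have h2 : DA 0 (mk l (zs x 0 ++ WW x s) h) = 0 := DA_ne hx l (WW x s) h
      rw [h2, map_zero, neg_zero]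
    · have h2 : DA 0 (mk l (zs x (m + 1) ++ WW x s) h) = mk l (zs x m ++ WW x s) h.1 :=
        DA_self 0 l (zs x m ++ WW x s) h
      rw [h2, ih m s l h.1 h']
      by_cases hmn : m = n
      · rw [if_pos hmn, if_pos (by rw [hmn]), pow_succ, mul_neg_one, neg_smul]
      · rw [if_neg hmn, if_neg (fun h => hmn (Nat.succ_injective h)), neg_zero]

lemma Dk_WW_cons {x : K} (hx : x ≠ 0) (n m : ℕ) (s : List ℕ) (l : K) (h : Adm (WW x (m :: s))) (h' : Adm (WW x s)) :
    Dk x n (mk l (WW x (m :: s)) h) = if m = n then ((-1) ^ n : K) • mk l (WW x s) h' else 0 := by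
  have h1 : DA (-x) (mk l (WW x (m :: s)) h) = mk l (zs x m ++ WW x s) h.1 := DA_self (-x) l (zs x m ++ WW x s) h
  have h2 : Ek x n (mk l (WW x (m :: s)) h) = 0 :=
    Ek_ne (neg_ne_zero.2 hx) (neg_ne_self hx) n l (zs x m ++ WW x s) h
  rw [Dk_apply, h1, h2, map_zero, sub_zero, Ek_zs_append hx n m s l h.1 h']

lemma Dk_nil (x : K) (n : ℕ) (l : K) (h : Adm ([] : List K)) : Dk x n (mk l [] h) = 0 :=
  Dk_kill_of_notMem n l h (Or.inl (by simp))

/-! ### The elements -/

lemma adm_WW {x : K} (hx : x ≠ 0) (s : List ℕ) : Adm (WW x s) := by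
  rcases s with _ | ⟨m, s⟩
  · trivial
  · exact (Ld_Fc hx s.length (m :: s) rfl).adm

lemma let_WW {x : K} (hx : x ≠ 0) (s : List ℕ) : Let x (WW x s) := by
  rcases s with _ | ⟨m, s⟩
  · intro a ha; exact absurd ha (by simp [WW])
  · exact (Ld_Fc hx s.length (m :: s) rfl).lets

lemma Fc_sub_mem {x : K} (hx : x ≠ 0) (s : List ℕ) : Fc s x - U (WW x s) ∈ SF x (2 * s.length) := by
  rcases s with _ | ⟨m, s⟩
  · rw [Fc_nil]
    show (1 : K⟦X⟧) - 1 ∈ _
    rw [sub_self]
    exact Submodule.zero_mem _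
  · exact (Ld_Fc hx s.length (m :: s) rfl).mem

lemma U_mem_AA {w : List K} (h : Adm w) : U w ∈ AA K := SW_le_SA (U_mem h)

lemma Fc_mem {x : K} (hx : x ≠ 0) (s : List ℕ) : Fc s x ∈ AA K := by
  have h1 := (AA K).add_mem (SF_le_AA (Fc_sub_mem hx s)) (U_mem_AA (adm_WW hx s))
  rwa [sub_add_cancel] at h1

/-- the Poisson mean as an element of the algebra -/
noncomputable def FA (x : K) (hx : x ≠ 0) (s : List ℕ) : AA K := ⟨Fc s x, Fc_mem hx s⟩

lemma FA_sub_mem {x : K} (hx : x ≠ 0) (s : List ℕ) : FA x hx s - mk 0 (WW x s) (adm_WW hx s) ∈ VA x (2 * s.length) := by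
  have h1 := SF_VA (Fc_sub_mem hx s) (SF_le_AA (Fc_sub_mem hx s))
  have h2 : FA x hx s - mk 0 (WW x s) (adm_WW hx s) =
      ⟨Fc s x - U (WW x s), SF_le_AA (Fc_sub_mem hx s)⟩ := by
    apply Subtype.ext
    show Fc s x - ex 0 * U (WW x s) = Fc s x - U (WW x s)
    rw [ex_zero, one_mul]
  rwa [h2]

lemma FA_mem {x : K} (hx : x ≠ 0) (s : List ℕ) : FA x hx s ∈ VA x (2 * s.length + 1) := by
  have h1 := Submodule.add_mem _ (VA_mono x (Nat.le_succ _) (FA_sub_mem hx s))
    (mk_mem_VA (adm_WW hx s) (d := 2 * s.length + 1) (by rw [nz_WW hx]; omega) (let_WW hx s))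
  rwa [sub_add_cancel] at h1

/-- the derivations for other points kill the elements -/
lemma Dk_VA_other {x y : K} (hx : x ≠ 0) (hxy : x ≠ y) (hxy' : x + y ≠ 0) (n : ℕ) {d : ℕ} {f : AA K} (hf : f ∈ VA y d) :
    Dk x n f = 0 := by
  refine Submodule.span_induction (p := fun f _ => Dk x n f = 0) ?_ ?_ ?_ ?_ hf
  · rintro _ ⟨w, h, h1, h2, rfl⟩
    refine Dk_kill_of_notMem n 0 h (Or.inl fun hxw => ?_)
    rcases h2 x hxw with h3 | h3 | h3
    · exact hx h3
    · exact hxy h3
    · exact hxy' (by rw [h3]; ring)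
  · exact map_zero _
  · intro f g _ _ hf hg
    rw [map_add, hf, hg, add_zero]
  · intro c f _ hf
    rw [Derivation.map_smul, hf, smul_zero]

/-! ### The compositions of the derivations -/

/-- the compositions of the derivations -/
noncomputable def Dt (x : K) : List ℕ → AA K → AA K
  | [], f => f
  | m :: t, f => Dt x t (Dk x m f)

lemma Dt_zero (x : K) (t : List ℕ) : Dt x t 0 = 0 := by
  induction t with
  | nil => rfl
  | cons m t ih => rw [Dt, map_zero, ih]

lemma Dt_add (x : K) (t : List ℕ) (f g : AA K) : Dt x t (f + g) = Dt x t f + Dt x t g := by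
  induction t generalizing f g with
  | nil => rfl
  | cons m t ih => rw [Dt, map_add, ih, Dt, Dt]

lemma Dt_smul (x : K) (t : List ℕ) (c : K) (f : AA K) : Dt x t (c • f) = c • Dt x t f := by
  induction t generalizing f with
  | nil => rfl
  | cons m t ih => rw [Dt, Derivation.map_smul, ih, Dt]

lemma Dt_sum (x : K) (t : List ℕ) {ι : Type*} (S : Finset ι) (f : ι → AA K) :
    Dt x t (∑ i ∈ S, f i) = ∑ i ∈ S, Dt x t (f i) := by
  classical
  induction S using Finset.induction_on with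
  | empty => rw [Finset.sum_empty, Finset.sum_empty, Dt_zero]
  | insert a S ha ih => rw [Finset.sum_insert ha, Finset.sum_insert ha, Dt_add, ih]

lemma Dt_mul (x : K) (t : List ℕ) {r : AA K} (hr : ∀ n, Dk x n r = 0) (f : AA K) : Dt x t (r * f) = r * Dt x t f := by
  induction t generalizing f with
  | nil => rfl
  | cons m t ih =>
    have h1 : Dk x m (r * f) = r * Dk x m f := by
      rw [Derivation.leibniz, hr, smul_zero, add_zero, smul_eq_mul]
    rw [Dt, h1, ih, Dt]

lemma Dt_VA {x : K} (hx : x ≠ 0) (t : List ℕ) {f : AA K} (hf : f ∈ VA x (2 * t.length)) : Dt x t f = 0 := by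
  induction t generalizing f with
  | nil => exact VA_zero hf
  | cons m t ih =>
    refine ih ?_
    have h1 := Dk_VA hx m hf
    rwa [List.length_cons, Nat.mul_succ, Nat.add_sub_cancel] at h1

lemma Dt_WW {x : K} (hx : x ≠ 0) (h0 : Adm ([] : List K)) : ∀ (t s : List ℕ) (h : Adm (WW x s)), s.length = t.length →
    Dt x t (mk 0 (WW x s) h) = if s = t then ((-1) ^ t.sum : K) • mk 0 [] h0 else 0 := by
  intro t
  induction t with
  | nil =>
    intro s h hs
    obtain rfl := List.length_eq_zero_iff.1 hs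
    rw [if_pos rfl, List.sum_nil, pow_zero, one_smul]
    rfl
  | cons n t ih =>
    intro s h hs
    rcases s with _ | ⟨m, s⟩
    · simp at hs
    have hs' : s.length = t.length := by simpa using hs
    rw [Dt, Dk_WW_cons hx n m s 0 h (adm_WW hx s)]
    by_cases hmn : m = n
    · rw [if_pos hmn, Dt_smul, ih s _ hs']
      by_cases hst : s = t
      · rw [if_pos hst, if_pos (by rw [hmn, hst]), smul_smul, List.sum_cons, pow_add]
      · rw [if_neg hst, if_neg (fun h => hst (List.cons.inj h).2), smul_zero]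
    · rw [if_neg hmn, Dt_zero, if_neg (fun h => hmn (List.cons.inj h).1)]

/-- **the compositions of the derivations are dual to the elements** -/
theorem Dt_FA {x : K} (hx : x ≠ 0) (h0 : Adm ([] : List K)) (t s : List ℕ) (hst : s.length ≤ t.length) :
    Dt x t (FA x hx s) = if s = t then ((-1) ^ t.sum : K) • mk 0 [] h0 else 0 := by
  rcases hst.lt_or_eq with h | h
  · rw [if_neg (fun h' => by rw [h'] at h; omega)]
    exact Dt_VA hx t (VA_mono x (by omega) (FA_mem hx s))
  · have h1 : FA x hx s = (FA x hx s - mk 0 (WW x s) (adm_WW hx s)) + mk 0 (WW x s) (adm_WW hx s) := by ring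
    rw [h1, Dt_add, Dt_VA hx t (VA_mono x (by omega) (FA_sub_mem hx s)), zero_add, Dt_WW hx h0 t s _ h]

theorem Dt_FA_other {x y : K} (hx : x ≠ 0) (hy : y ≠ 0) (hxy : x ≠ y) (hxy' : x + y ≠ 0) (m : ℕ) (t s : List ℕ) :
    Dt x (m :: t) (FA y hy s) = 0 := by
  rw [Dt, Dk_VA_other hx hxy hxy' m (FA_mem hy s), Dt_zero]

end

end Pool.Agent.N778.MZ
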