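import Pool.Agent.N778.MZ.Exch

/-!
# Exchange with several parameters in every block
-/

set_option autoImplicit false
set_option linter.unusedSectionVars false

open Set Pool.Agent.N902.EW

namespace Pool.Agent.N778.MZ

section

variable {F E : Type*} [Field F] [Field E] [Algebra F E]

/-- the named elements of `D` are algebraically independent -/
def AIon (F : Type*) {E N : Type*} [Field F] [Field E] [Algebra F E] (V : N → E) (D : Set N) : Prop :=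
  AlgebraicIndependent F (fun p : D => V p)

lemma aion_union {N : Type*} {V : N → E} {D P : Set N} (hD : AIon F V D)
    (hP : ∀ p ∈ P, V p ∉ clf F (V '' D ∪ V '' (P \ {p}))) : AIon F V (D ∪ P) := by
  classical
  have h1 : AlgebraicIndependent (IntermediateField.adjoin F (range fun p : D => V p)) (fun p : P => V p) := by
    refine ri_ai fun p hp => hP p.1 p.2 (clf_mono ?_ hp)
    rintro z (⟨q, rfl⟩ | ⟨q, hq, rfl⟩)
    · exact Or.inl ⟨q.1, q.2, rfl⟩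
    · exact Or.inr ⟨q.1, ⟨q.2, fun h => hq (Subtype.ext h)⟩, rfl⟩
  rw [IntermediateField.algebraicIndependent_adjoin_iff] at h1
  have h2 := AlgebraicIndependent.sumElim hD h1
  let g : ↥(D ∪ P) → P ⊕ D := fun p => if h : p.1 ∈ D then Sum.inr ⟨p.1, h⟩ else Sum.inl ⟨p.1, p.2.resolve_left h⟩
  have hval : ∀ p : ↥(D ∪ P), Sum.elim (fun p : P => (p : N)) (fun p : D => (p : N)) (g p) = p := by
    intro p
    by_cases h : p.1 ∈ D
    · simp only [g, h, dif_pos, Sum.elim_inr]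
    · simp only [g, h, dif_neg, not_false_iff, Sum.elim_inl]
  have hg : Function.Injective g := by
    intro p q h
    apply Subtype.ext
    rw [← hval p, ← hval q, h]
  have h3 := h2.comp g hg
  have h4 : (Sum.elim (fun p : P => V p) (fun p : D => V p)) ∘ g = fun p : ↥(D ∪ P) => V p := by
    funext p
    show Sum.elim (fun p : P => V p) (fun p : D => V p) (g p) = V p
    conv_rhs => rw [← hval p]
    rcases g p with q | q <;> rfl
  rw [h4] at h3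
  exact h3

lemma aion_out {N : Type*} {V : N → E} {D P : Set N} (h : AIon F V (D ∪ P)) (hdis : ∀ p ∈ P, p ∉ D) :
    ∀ p ∈ P, V p ∉ clf F (V '' D ∪ V '' (P \ {p})) := by
  intro p hp hcon
  refine ai_ri0 h ⟨p, Or.inr hp⟩ (clf_mono ?_ hcon)
  rintro z (⟨q, hq, rfl⟩ | ⟨q, hq, rfl⟩)
  · refine ⟨⟨q, Or.inl hq⟩, fun h => hdis p hp ?_, rfl⟩
    have h3 : q = p := congrArg Subtype.val h
    rw [← h3]
    exact hq
  · exact ⟨⟨q, Or.inr hq.1⟩, fun h => hq.2 (congrArg Subtype.val h), rfl⟩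

lemma aion_mono {N : Type*} {V : N → E} {D P : Set N} (h : AIon F V P) (hDP : D ⊆ P) : AIon F V D :=
  h.comp (fun p : D => (⟨p.1, hDP p.2⟩ : P)) fun _ _ h => Subtype.ext (congrArg (fun z : P => z.1) h)

/-- the values -/
def Vv {ι : Type*} (y : ℕ → ℕ → E) (t s : ι → E) : (ℕ × ℕ) ⊕ (ι ⊕ ι) → E :=
  Sum.elim (fun q => y q.1 q.2) (Sum.elim t s)

/-- the names of the `s_i` of the blocks `≥ n` -/
def Sg {ι : Type*} (β : ι → ℕ) (n : ℕ) : Set ((ℕ × ℕ) ⊕ (ι ⊕ ι)) := {p | ∃ i, p = Sum.inr (Sum.inr i) ∧ n ≤ β i}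

/-- the block of a name -/
def blk {ι : Type*} (β : ι → ℕ) : (ℕ × ℕ) ⊕ (ι ⊕ ι) → ℕ := Sum.elim (fun q => q.1) (Sum.elim β β)

/-- the names in the block `n` -/
def Nb {ι : Type*} (β : ι → ℕ) (r : ℕ → ℕ) (n : ℕ) : Set ((ℕ × ℕ) ⊕ (ι ⊕ ι)) :=
  {p | (∃ j, p = Sum.inl (n, j) ∧ j < r n) ∨ ∃ i, p = Sum.inr (Sum.inl i) ∧ β i = n}

theorem bstep {ι : Type*} {β : ι → ℕ} {r : ℕ → ℕ} {y : ℕ → ℕ → E} {s t : ι → E}
    (h1 : ∀ i, s i ∈ clf F (insert (t i) ((fun j => y (β i) j) '' {j | j < r (β i)})))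
    (h2 : ∀ i, t i ∈ clf F (insert (s i) ((fun j => y (β i) j) '' {j | j < r (β i)})))
    (n : ℕ) (K : Set ((ℕ × ℕ) ⊕ (ι ⊕ ι))) (hK : ∀ p ∈ K, ∃ m < n, p ∈ Nb β r m)
    (hA : AIon F (Vv y t s) (K ∪ Sg β n)) :
    ∃ K' : Set ((ℕ × ℕ) ⊕ (ι ⊕ ι)), K ⊆ K' ∧ (∀ p ∈ K', ∃ m < n + 1, p ∈ Nb β r m) ∧
      AIon F (Vv y t s) (K' ∪ Sg β (n + 1)) ∧ (Nb β r n \ K').encard ≤ r n := by
  classical
  let V := Vv y t s
  let D : Set ((ℕ × ℕ) ⊕ (ι ⊕ ι)) := K ∪ Sg β (n + 1)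
  let P : Set ((ℕ × ℕ) ⊕ (ι ⊕ ι)) := {p | ∃ i, p = Sum.inr (Sum.inr i) ∧ β i = n}
  have hDP : K ∪ Sg β n = D ∪ P := by
    ext p
    constructor
    · rintro (h | ⟨i, rfl, hi⟩)
      · exact Or.inl (Or.inl h)
      · rcases hi.eq_or_lt with h | h
        · exact Or.inr ⟨i, rfl, h.symm⟩
        · exact Or.inl (Or.inr ⟨i, rfl, h⟩)
    · rintro ((h | ⟨i, rfl, hi⟩) | ⟨i, rfl, hi⟩)
      · exact Or.inl h
      · exact Or.inr ⟨i, rfl, by omega⟩
      · exact Or.inr ⟨i, rfl, hi.ge⟩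
  have hKs : ∀ i, Sum.inr (Sum.inr i) ∉ K := by
    intro i hi
    obtain ⟨m, -, h | h⟩ := hK _ hi
    · obtain ⟨j, hj, -⟩ := h
      exact absurd hj (by simp)
    · obtain ⟨j, hj, -⟩ := h
      exact absurd hj (by simp)
  have hdis : ∀ p ∈ P, p ∉ D := by
    rintro _ ⟨i, rfl, hi⟩ (h | ⟨j, hj, hj2⟩)
    · exact hKs i h
    · have h3 : i = j := by simpa using hj
      subst h3
      omega
  rw [hDP] at hA
  have hout := aion_out hA hdis
  have hD : AIon F V D := aion_mono hA subset_union_left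
  obtain ⟨L, hL, hL2⟩ := exch_y (F := F) (fun j : Fin (r n) => y n j) (V '' D)
  obtain ⟨C, hC, hC2⟩ := exch_s (F := F) (fun j : Fin (r n) => y n j) (fun i : {i // β i = n} => s i) (V '' D)
    (fun i hi => hout (Sum.inr (Sum.inr i.1)) ⟨i.1, rfl, i.2⟩ (clf_mono (by
      rintro z (hz | ⟨k, hk, rfl⟩)
      · exact Or.inl hz
      · exact Or.inr ⟨Sum.inr (Sum.inr k.1), ⟨⟨k.1, rfl, k.2⟩, fun h => hk (Subtype.ext (by simpa using h))⟩, rfl⟩) hi)) L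
  have hY : ∀ (i : {i // β i = n}) (z w : E), z ∈ clf F (insert w ((fun j => y (β i.1) j) '' {j | j < r (β i.1)})) →
      z ∈ clf F (insert w (V '' D ∪ (fun j : Fin (r n) => y n j) '' L)) := by
    rintro ⟨i, rfl⟩ z w hz
    refine clf_le ?_ hz
    rintro u (rfl | ⟨j, hj, rfl⟩)
    · exact subset_clf _ (mem_insert _ _)
    · exact clf_mono (subset_insert _ _) (hL ⟨j, hj⟩)
  have ht := exch_t (F := F) (t := fun i : {i // β i = n} => t i) (A := V '' D ∪ (fun j : Fin (r n) => y n j) '' L) hC2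
    (fun i => hY i _ _ (h1 i)) (fun i => hY i _ _ (h2 i))
  let Ly : Set ((ℕ × ℕ) ⊕ (ι ⊕ ι)) := {p | ∃ j : Fin (r n), j ∈ L ∧ p = Sum.inl (n, j.1)}
  let Tn : Set ((ℕ × ℕ) ⊕ (ι ⊕ ι)) := {p | ∃ i : {i // β i = n}, i ∉ C ∧ p = Sum.inr (Sum.inl i.1)}
  have hLy : V '' Ly = (fun j : Fin (r n) => y n j) '' L := by
    ext z
    constructor
    · rintro ⟨_, ⟨j, hj, rfl⟩, rfl⟩
      exact ⟨j, hj, rfl⟩
    · rintro ⟨j, hj, rfl⟩
      exact ⟨_, ⟨j, hj, rfl⟩, rfl⟩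
  have a1 : AIon F V (D ∪ Ly) := by
    refine aion_union hD ?_
    rintro _ ⟨j, hj, rfl⟩ hcon
    refine hL2 j hj (clf_mono ?_ hcon)
    rintro z (hz | ⟨_, ⟨⟨k, hk, rfl⟩, hk2⟩, rfl⟩)
    · exact Or.inl hz
    · refine Or.inr ⟨k, ?_, rfl⟩
      rw [Finset.coe_erase]
      refine ⟨hk, fun h => hk2 ?_⟩
      have h3 : k = j := h
      rw [h3]
      rfl
  have a2 : AIon F V (D ∪ Ly ∪ Tn) := by
    refine aion_union a1 ?_
    rintro _ ⟨i, hi, rfl⟩ hcon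
    refine ht i hi (clf_mono ?_ hcon)
    rw [image_union, hLy]
    rintro z (hz | ⟨_, ⟨⟨k, hk, rfl⟩, hk2⟩, rfl⟩)
    · exact Or.inl hz
    · refine Or.inr ⟨k, ⟨hk, fun h => hk2 ?_⟩, rfl⟩
      rw [h]
      rfl
  refine ⟨K ∪ Ly ∪ Tn, fun p hp => Or.inl (Or.inl hp), ?_, ?_, ?_⟩
  · rintro p ((hp | ⟨j, hj, rfl⟩) | ⟨i, hi, rfl⟩)
    · obtain ⟨m, hm, hm2⟩ := hK p hp
      exact ⟨m, by omega, hm2⟩
    · exact ⟨n, by omega, Or.inl ⟨j.1, rfl, j.2⟩⟩
    · exact ⟨n, by omega, Or.inr ⟨i.1, rfl, i.2⟩⟩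
  · refine aion_mono a2 ?_
    rintro p (((hp | hp) | hp) | hp)
    · exact Or.inl (Or.inl (Or.inl hp))
    · exact Or.inl (Or.inr hp)
    · exact Or.inr hp
    · exact Or.inl (Or.inl (Or.inr hp))
  · let Q : Finset ((ℕ × ℕ) ⊕ (ι ⊕ ι)) := (Lᶜ).image (fun j : Fin (r n) => Sum.inl (n, j.1)) ∪
      C.image (fun i : {i // β i = n} => Sum.inr (Sum.inl i.1))
    have hQ : Nb β r n \ (K ∪ Ly ∪ Tn) ⊆ (Q : Set ((ℕ × ℕ) ⊕ (ι ⊕ ι))) := by
      rintro p ⟨⟨j, rfl, hj⟩ | ⟨i, rfl, hi⟩, hp⟩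
      · refine Finset.mem_coe.2 (Finset.mem_union_left _ (Finset.mem_image.2 ⟨⟨j, hj⟩, ?_, rfl⟩))
        rw [Finset.mem_compl]
        intro hjL
        exact hp (Or.inl (Or.inr ⟨⟨j, hj⟩, hjL, rfl⟩))
      · refine Finset.mem_coe.2 (Finset.mem_union_right _ (Finset.mem_image.2 ⟨⟨i, hi⟩, ?_, rfl⟩))
        by_contra hiC
        exact hp (Or.inr ⟨⟨i, hi⟩, hiC, rfl⟩)
    refine (encard_le_encard hQ).trans ?_
    rw [encard_coe_eq_coe_finsetCard]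
    have h3 : Q.card ≤ (Lᶜ).card + C.card :=
      (Finset.card_union_le _ _).trans (Nat.add_le_add Finset.card_image_le Finset.card_image_le)
    have h4 : (Lᶜ).card + L.card = r n := by
      rw [Finset.card_compl, Fintype.card_fin]
      have := Finset.card_le_univ L
      rw [Fintype.card_fin] at this
      omega
    have h5 : Q.card ≤ r n := by omega
    exact_mod_cast h5

/-- **in every block at most as many elements have to be left out as there are parameters** -/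
theorem block_exch {ι : Type*} {β : ι → ℕ} {r : ℕ → ℕ} {y : ℕ → ℕ → E} {s t : ι → E}
    (hs : AlgebraicIndependent F s)
    (h1 : ∀ i, s i ∈ clf F (insert (t i) ((fun j => y (β i) j) '' {j | j < r (β i)})))
    (h2 : ∀ i, t i ∈ clf F (insert (s i) ((fun j => y (β i) j) '' {j | j < r (β i)}))) :
    ∃ K : Set ((ℕ × ℕ) ⊕ (ι ⊕ ι)), (∀ p ∈ K, ∃ m, p ∈ Nb β r m) ∧ AIon F (Vv y t s) K ∧
      ∀ n, (Nb β r n \ K).encard ≤ r n := by
  classical
  let Inv : ℕ → Set ((ℕ × ℕ) ⊕ (ι ⊕ ι)) → Prop := fun n K =>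
    (∀ p ∈ K, ∃ m < n, p ∈ Nb β r m) ∧ AIon F (Vv y t s) (K ∪ Sg β n)
  have h0 : Inv 0 ∅ := by
    refine ⟨fun p hp => absurd hp (notMem_empty p), ?_⟩
    have hmem : ∀ p : ↥((∅ : Set ((ℕ × ℕ) ⊕ (ι ⊕ ι))) ∪ Sg β 0), ∃ i, p.1 = Sum.inr (Sum.inr i) := by
      rintro ⟨p, hp | ⟨i, hi, -⟩⟩
      · exact absurd hp (notMem_empty p)
      · exact ⟨i, hi⟩
    choose g hg using hmem
    have h3 := hs.comp g (fun p q h => Subtype.ext (by rw [hg p, hg q, h]))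
    have h4 : s ∘ g = fun p : ↥((∅ : Set ((ℕ × ℕ) ⊕ (ι ⊕ ι))) ∪ Sg β 0) => Vv y t s p := by
      funext p
      rw [hg p]
      rfl
    rw [h4] at h3
    exact h3
  have hstep : ∀ n K, Inv n K → ∃ K', K ⊆ K' ∧ Inv (n + 1) K' ∧ (Nb β r n \ K').encard ≤ r n := by
    intro n K hK
    obtain ⟨K', a, b, c, d⟩ := bstep h1 h2 n K hK.1 hK.2
    exact ⟨K', a, ⟨b, c⟩, d⟩
  let seq : (k : ℕ) → {K // Inv k K} := fun k =>
    Nat.rec (motive := fun k => {K // Inv k K}) ⟨∅, h0⟩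
      (fun k q => ⟨(hstep k q.1 q.2).choose, (hstep k q.1 q.2).choose_spec.2.1⟩) k
  have hsub : ∀ k, (seq k).1 ⊆ (seq (k + 1)).1 := fun k => (hstep k (seq k).1 (seq k).2).choose_spec.1
  have hcount : ∀ k, (Nb β r k \ (seq (k + 1)).1).encard ≤ r k := fun k =>
    (hstep k (seq k).1 (seq k).2).choose_spec.2.2
  have hmono : Monotone fun k => (seq k).1 := monotone_nat_of_le_succ hsub
  refine ⟨⋃ k, (seq k).1, fun p hp => ?_, ?_, fun n => ?_⟩
  · obtain ⟨k, hk⟩ := mem_iUnion.1 hp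
    obtain ⟨m, -, hm⟩ := (seq k).2.1 p hk
    exact ⟨m, hm⟩
  · refine algebraicIndependent_of_finite_type fun T hT => ?_
    have hk : ∀ p : ↥(⋃ k, (seq k).1), ∃ k, p.1 ∈ (seq k).1 := fun p => mem_iUnion.1 p.2
    choose κ hκ using hk
    let k : ℕ := hT.toFinset.sup κ
    have h3 : AIon F (Vv y t s) (seq k).1 := aion_mono (seq k).2.2 subset_union_left
    have h4 := h3.comp (fun p : T => (⟨p.1.1, hmono (Finset.le_sup (f := κ) (hT.mem_toFinset.2 p.2)) (hκ p.1)⟩ :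
      (seq k).1)) (fun p q h => Subtype.ext (Subtype.ext (congrArg (fun z : (seq k).1 => z.1) h)))
    exact h4
  · refine (encard_le_encard ?_).trans (hcount n)
    exact sdiff_subset_sdiff_right (subset_iUnion (fun k => (seq k).1) (n + 1))

end

end Pool.Agent.N778.MZ
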