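import Pool.Agent.N778.MZ.Gen

/-!
# Exchange with several parameters
-/

set_option autoImplicit false
set_option linter.unusedSectionVars false

open Set Pool.Agent.N902.EW

namespace Pool.Agent.N778.MZ

section

variable {F E : Type*} [Field F] [Field E] [Algebra F E]

lemma clf_exch {G : Set E} {a b : E} (h1 : a ∉ clf F G) (h2 : a ∈ clf F (insert b G)) : b ∈ clf F (insert a G) :=
  Matroid.mem_closure_insert (M := (Ma F : Matroid E)) h1 h2

/-- a subset of the parameters which is independent over `A` -/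
lemma exch_y {κ : Type*} [Fintype κ] [DecidableEq κ] (y : κ → E) (A : Set E) :
    ∃ L : Finset κ, (∀ j, y j ∈ clf F (A ∪ y '' L)) ∧ ∀ j ∈ L, y j ∉ clf F (A ∪ y '' (L.erase j : Finset κ)) := by
  classical
  let P : Finset κ → Prop := fun L => ∀ j, y j ∈ clf F (A ∪ y '' L)
  have h0 : P Finset.univ := fun j => subset_clf _ (Or.inr ⟨j, by simp, rfl⟩)
  obtain ⟨L, hL, hmin⟩ := Finset.exists_min_image (Finset.univ.filter P) Finset.card ⟨Finset.univ, by simp [h0]⟩
  have hL' : P L := (Finset.mem_filter.1 hL).2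
  refine ⟨L, hL', fun j hj hcon => ?_⟩
  have h1 : P (L.erase j) := by
    intro i
    refine clf_le ?_ (hL' i)
    rintro z (hz | ⟨k, hk, rfl⟩)
    · exact subset_clf _ (Or.inl hz)
    · by_cases hkj : k = j
      · rw [hkj]; exact hcon
      · exact subset_clf _ (Or.inr ⟨k, by simp [hkj]; exact hk, rfl⟩)
  have h2 := hmin (L.erase j) (by simp [h1])
  have h3 := Finset.card_erase_lt_of_mem hj
  omega

/-- after adding parameters at most as many elements have to be left out -/
lemma exch_s {κ ι : Type*} [DecidableEq κ] [DecidableEq ι] (y : κ → E) (s : ι → E) (A : Set E)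
    (hs : ∀ i, s i ∉ clf F (A ∪ s '' {i}ᶜ)) (L : Finset κ) :
    ∃ C : Finset ι, C.card ≤ L.card ∧ ∀ i ∉ C, s i ∉ clf F (A ∪ y '' L ∪ s '' {k | k ∉ C ∧ k ≠ i}) := by
  induction L using Finset.induction_on with
  | empty =>
    refine ⟨∅, le_rfl, fun i _ h => hs i (clf_mono ?_ h)⟩
    rintro z ((hz | hz) | ⟨k, hk, rfl⟩)
    · exact Or.inl hz
    · simp at hz
    · exact Or.inr ⟨k, hk.2, rfl⟩
  | insert j L hj ih =>
    obtain ⟨C, hC, hC2⟩ := ih
    have hins : ∀ B : Set E, A ∪ y '' ((insert j L : Finset κ) : Set κ) ∪ B = insert (y j) (A ∪ y '' L ∪ B) := by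
      intro B
      rw [Finset.coe_insert, image_insert_eq]
      ext z
      simp only [mem_union, mem_insert_iff]
      tauto
    by_cases hall : ∀ i ∉ C, s i ∉ clf F (A ∪ y '' ((insert j L : Finset κ) : Set κ) ∪ s '' {k | k ∉ C ∧ k ≠ i})
    · exact ⟨C, hC.trans (Finset.card_le_card (Finset.subset_insert _ _)), hall⟩
    · push Not at hall
      obtain ⟨i₀, hi₀, h₀⟩ := hall
      rw [hins] at h₀
      refine ⟨insert i₀ C, ?_, fun i hi hcon => ?_⟩
      · rw [Finset.card_insert_of_notMem hi₀, Finset.card_insert_of_notMem hj]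
        omega
      · rw [Finset.mem_insert, not_or] at hi
        rw [hins] at hcon
        have h1 : s i ∉ clf F (A ∪ y '' L ∪ s '' {k | k ∉ insert i₀ C ∧ k ≠ i}) := by
          intro h
          refine hC2 i hi.2 (clf_mono ?_ h)
          refine union_subset_union_right _ (image_mono fun k hk => ?_)
          exact ⟨fun h => hk.1 (Finset.mem_insert_of_mem h), hk.2⟩
        have h2 := clf_exch h1 hcon
        refine hC2 i₀ hi₀ (clf_le ?_ h₀)
        rintro z (rfl | hz)
        · refine clf_mono ?_ h2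
          rintro z (rfl | (hz | ⟨k, hk, rfl⟩))
          · exact Or.inr ⟨i, ⟨hi.2, hi.1⟩, rfl⟩
          · exact Or.inl hz
          · exact Or.inr ⟨k, ⟨fun h => hk.1 (Finset.mem_insert_of_mem h), fun h => hk.1 (h ▸ Finset.mem_insert_self _ _)⟩, rfl⟩
        · exact subset_clf _ hz

/-- the replacement of the `s_i` by the `t_i` -/
lemma exch_t {ι : Type*} {s t : ι → E} {A : Set E} {C : Finset ι}
    (h : ∀ i ∉ C, s i ∉ clf F (A ∪ s '' {k | k ∉ C ∧ k ≠ i}))
    (h1 : ∀ i, s i ∈ clf F (insert (t i) A)) (h2 : ∀ i, t i ∈ clf F (insert (s i) A)) :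
    ∀ i ∉ C, t i ∉ clf F (A ∪ t '' {k | k ∉ C ∧ k ≠ i}) := by
  intro i hi hcon
  refine h i hi (clf_le ?_ (h1 i))
  rintro z (rfl | hz)
  · refine clf_le ?_ hcon
    rintro z (hz | ⟨k, hk, rfl⟩)
    · exact subset_clf _ (Or.inl hz)
    · refine clf_mono ?_ (h2 k)
      rintro z (rfl | hz)
      · exact Or.inr ⟨k, hk, rfl⟩
      · exact Or.inl hz
  · exact subset_clf _ (Or.inl hz)

lemma clf_adjoin {A B : Set E} {z : E} : z ∈ clf (IntermediateField.adjoin F A) B ↔ z ∈ clf F (A ∪ B) := by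
  rw [mem_clf, mem_clf, ← IntermediateField.adjoin_adjoin_left]
  exact Iff.rfl

/-- the criterion for algebraic independence -/
lemma ri_ai {ι : Type*} {v : ι → E} {A : Set E} (h : ∀ i, v i ∉ clf F (A ∪ v '' {i}ᶜ)) :
    AlgebraicIndependent (IntermediateField.adjoin F A) v := by
  by_contra hcon
  obtain ⟨i, hi⟩ := dep_exists hcon
  exact h i (clf_adjoin.1 hi)

lemma ai_ri {ι : Type*} {v : ι → E} {A : Set E} (h : AlgebraicIndependent (IntermediateField.adjoin F A) v) :
    ∀ i, v i ∉ clf F (A ∪ v '' {i}ᶜ) := by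
  intro i hi
  have h1 := ((AlgebraicIndependent.iff_transcendental_adjoin_image i).1 h).2
  exact h1 (mem_cl.1 (clf_adjoin.2 hi))

lemma ai_ri0 {ι : Type*} {v : ι → E} (h : AlgebraicIndependent F v) : ∀ i, v i ∉ clf F (v '' {i}ᶜ) := by
  intro i hi
  have h1 := ((AlgebraicIndependent.iff_transcendental_adjoin_image i).1 h).2
  exact h1 (mem_cl.1 hi)

/-- **all but `r` of the `t_i` are algebraically independent over the field with `r` parameters** -/
theorem exch {ι : Type*} {s t : ι → E} (hs : AlgebraicIndependent F s) {r : ℕ} (y : Fin r → E)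
    (h1 : ∀ i, s i ∈ clf F (insert (t i) (range y))) (h2 : ∀ i, t i ∈ clf F (insert (s i) (range y))) :
    ∃ C : Finset ι, C.card ≤ r ∧
      AlgebraicIndependent (IntermediateField.adjoin F (range y)) (fun i : {i // i ∉ C} => t i) := by
  classical
  obtain ⟨C, hC, hC2⟩ := exch_s (F := F) y s ∅ (fun i => by rw [empty_union]; exact ai_ri0 hs i) Finset.univ
  refine ⟨C, by simpa using hC, ri_ai fun i hi => ?_⟩
  refine exch_t (A := range y) (C := C) (F := F) ?_ h1 h2 i.1 i.2 (clf_mono ?_ hi)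
  · intro i hi h
    refine hC2 i hi (clf_mono ?_ h)
    rintro z (⟨j, rfl⟩ | hz)
    · exact Or.inl (Or.inr ⟨j, by simp, rfl⟩)
    · exact Or.inr hz
  · rintro z (hz | ⟨k, hk, rfl⟩)
    · exact Or.inl hz
    · exact Or.inr ⟨k.1, ⟨k.2, fun h => hk (Subtype.ext h)⟩, rfl⟩

end

end Pool.Agent.N778.MZ
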