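import Pool.Agent.N778.MZ.Lead
import Pool.Agent.N778.MZ.Co

/-!
# Algebraic independence of the Poisson means for the Lyndon words in all positive integers
-/

set_option autoImplicit false
set_option linter.unusedSectionVars false

open PowerSeries Pool.Agent.N902.EW

namespace Pool.Agent.N778.MZ

/-- the elements of the base ring are killed by all derivations which kill the words without `x` or without `-x` -/
lemma exists_killed2 {z : ℂ} (hz : z ∈ Algebra.adjoin ℚ GG) :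
    ∃ f : AA Qb, evA io f = z ∧ ∀ (x : Qb), x ≠ 0 → ∀ D : Derivation Qb (AA Qb) (AA Qb),
      (∀ g ∈ NS x, D g = 0) → (∀ g ∈ NS (-x), D g = 0) → D f = 0 := by
  induction hz using Algebra.adjoin_induction with
  | mem z hz =>
    rcases hz with (hz | ⟨b, rfl⟩) | ⟨w, hw, hno, rfl⟩
    · refine ⟨algebraMap Qb (AA Qb) ⟨z, mem_algebraicClosure_iff'.2 hz.isIntegral⟩, evA_algebraMap _,
        fun x _ D _ _ => ?_⟩
      exact Derivation.map_algebraMap _ _
    · refine ⟨mk b [] adm_nil, ?_, fun x hx D h1 _ => h1 _ (mk_mem_NS b adm_nil (by simp))⟩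
      rw [evA_mk, U_nil, evk_one, mul_one]
    · refine ⟨mk 0 w hw, ?_, fun x hx D h1 h2 => ?_⟩
      · rw [evA_mk, evk_ex_zero, one_mul]
      · by_cases hxw : x ∈ w
        · exact h2 _ (mk_mem_NS 0 hw (hno x hxw hx))
        · exact h1 _ (mk_mem_NS 0 hw hxw)
  | algebraMap r =>
    refine ⟨algebraMap Qb (AA Qb) (algebraMap ℚ Qb r), ?_, fun x _ D _ _ => Derivation.map_algebraMap _ _⟩
    rw [evA_algebraMap]
    simp
  | add x y _ _ hx hy =>
    obtain ⟨f, hf, hf'⟩ := hx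
    obtain ⟨g, hg, hg'⟩ := hy
    exact ⟨f + g, by rw [map_add, hf, hg], fun x hx D h1 h2 => by
      rw [map_add, hf' x hx D h1 h2, hg' x hx D h1 h2, add_zero]⟩
  | mul x y _ _ hx hy =>
    obtain ⟨f, hf, hf'⟩ := hx
    obtain ⟨g, hg, hg'⟩ := hy
    exact ⟨f * g, by rw [map_mul, hf, hg], fun x hx D h1 h2 => by
      rw [Derivation.leibniz, hf' x hx D h1 h2, hg' x hx D h1 h2, smul_zero, smul_zero, add_zero]⟩

lemma head_pos {ψ : ℕ → ℤ} (hψ : ∀ a b, ψ a < ψ b → b < a) (hψ' : Function.Injective ψ) {s : List ℕ}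
    (h : LynO ψ s) : s = [0] ∨ ∃ j s', s = (j + 1) :: s' := by
  induction h with
  | letter a =>
    rcases a with _ | j
    · exact Or.inl rfl
    · exact Or.inr ⟨j, [], rfl⟩
  | mul u v hu hv huv ihu ihv =>
    right
    rcases ihu with rfl | ⟨j, s', rfl⟩
    · exfalso
      rcases ihv with rfl | ⟨j, s', rfl⟩
      · exact lt_irrefl _ huv
      · rw [List.map_cons, List.map_cons, List.cons_lt_cons_iff] at huv
        rcases huv with h1 | ⟨h1, _⟩
        · exact absurd (hψ _ _ h1) (Nat.not_lt_zero _)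
        · exact absurd (hψ' h1) (by omega)
    · exact ⟨j, s' ++ v, rfl⟩

lemma mem_bw {ψ : ℕ → ℤ} (hψ : ∀ a b, ψ a < ψ b → b < a) (hψ' : Function.Injective ψ) {s : List ℕ}
    (h : LynO ψ s) (h0 : s ≠ [0]) : SignType.pos ∈ bw s ∧ SignType.neg ∈ bw s := by
  rcases head_pos hψ hψ' h with h1 | ⟨j, s', rfl⟩
  · exact absurd h1 h0
  · rw [bw_succ]
    exact ⟨by simp, by simp⟩

/-- the index set -/
abbrev Lz (ψ : ℕ → ℤ) (X : Set Qb) : Type := {p : List ℕ × Qb // (LynO ψ p.1 ∧ p.1 ≠ [0]) ∧ p.2 ∈ X}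

/-- **algebraic independence of the Poisson means for the Lyndon words in all positive integers** -/
theorem ai_gen {ψ : ℕ → ℤ} (hψ : ∀ a b, ψ a < ψ b → b < a) (hψ' : Function.Injective ψ) {X : Set Qb}
    (hX : ∀ x ∈ X, ∀ y ∈ X, x + y ≠ 0) (hX0 : ∀ x ∈ X, x ≠ 0) :
    AlgebraicIndependent (IntermediateField.adjoin ℚ GG)
      (fun p : Lz ψ X => evA io (FdA p.1.2 (hX0 _ p.2.2) p.1.1)) := by
  classical
  rw [IntermediateField.algebraicIndependent_adjoin_iff]
  let R' : Subalgebra ℚ ℂ := Algebra.adjoin ℚ GG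
  let R : Subring (AA Qb) := R'.toSubring.comap (evA io)
  have hinj := evA_injective io
  choose c D hop hK hc hc' using fun p : Lz ψ X => exists_oq (hX0 _ p.2.2) (lyn_bw hψ hψ' p.2.1.1)
  have hmem := fun p : Lz ψ X => mem_bw hψ hψ' p.2.1.1 p.2.1.2
  have hkill : ∀ (p : Lz ψ X) (b : R), D p b.1 = 0 := by
    intro p b
    obtain ⟨f, hf, hf'⟩ := exists_killed2 (z := evA io b.1) b.2
    rw [← hinj hf]
    exact hf' _ (hX0 _ p.2.2) _ ((hK p).kp (hmem p).1) ((hK p).kn (hmem p).2)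
  have hone : ∀ (x : Qb) (hx : x ≠ 0) (r : Qb), r ≠ 0 → (r • HA x hx [] : AA Qb) ≠ 0 := by
    intro x hx r hr h
    rw [HA_nil] at h
    rcases smul_eq_zero.1 h with h2 | h2
    · exact hr h2
    · have h3 := congrArg (evA io) h2
      rw [evA_mk, evk_ex_zero, U_nil, evk_one, map_zero, mul_one] at h3
      exact one_ne_zero h3
  have hAI : AlgebraicIndependent R (fun p : Lz ψ X => FdA p.1.2 (hX0 _ p.2.2) p.1.1) := by
    refine ai_of_tri (k := Qb) (α := ℕ ×ₗ List SignType) Subtype.val_injective _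
      (fun p => toLex ((bw p.1.1).length, bw p.1.1)) D (fun p b => hkill p b) (fun p => ?_) (fun p q hpq hrk => ?_)
    · obtain ⟨r, hr, h1⟩ := (act_Fd (hop p) (hc p) (hc' p) p.2.1.1.ne_nil).2.2 rfl
      rw [h1]
      exact hone _ _ r hr
    · by_cases hxy : p.1.2 = q.1.2
      · have h1 : FdA q.1.2 (hX0 _ q.2.2) q.1.1 = FdA p.1.2 (hX0 _ p.2.2) q.1.1 := by
          congr 1
          exact hxy.symm
        rw [h1]
        have h2 := act_Fd (hop p) (hc p) (hc' p) q.2.1.1.ne_nil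
        rcases (Prod.Lex.le_iff (α := ℕ) (β := List SignType)).1 hrk with h | h
        · exact h2.1 h
        · rcases h.2.lt_or_eq with h3 | h3
          · exact h2.2.1 h.1 h3
          · exact absurd (Subtype.ext (Prod.ext (bw_inj h3.symm) hxy)) hpq
      · refine (hK p).kp (hmem p).1 _ ?_
        refine FdA_NS _ (hX0 _ p.2.2) hxy ?_ q.2.1.1.ne_nil
        intro h
        exact hX _ p.2.2 _ q.2.2 (by rw [h]; ring)
  let f : R →+* R' := ((evA io).comp R.subtype).codRestrict R'.toSubring (fun b => b.2)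
  have hf : Function.Surjective f := by
    rintro ⟨z, hz⟩
    obtain ⟨g, hg, -⟩ := exists_killed2 hz
    refine ⟨⟨g, ?_⟩, Subtype.ext hg⟩
    show evA io g ∈ R'
    rw [hg]; exact hz
  exact hAI.ringHom_of_comp_eq f (evA io) hf hinj (RingHom.ext fun b => rfl)

/-- Lyndon words in the positive integers for the order in which `1` is the largest letter, `2` the second, … -/
def GW (w : List ℕ) : Prop := LynO (fun k => -(k : ℤ)) w ∧ (∀ k ∈ w, 1 ≤ k) ∧ w ≠ [1]

lemma map_map_sub1 {φ : ℕ → ℤ} {w : List ℕ} (hw : ∀ k ∈ w, 1 ≤ k) :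
    (w.map (· - 1)).map (fun m => φ (m + 1)) = w.map φ := by
  rw [List.map_map]
  refine List.map_congr_left fun k hk => ?_
  show φ (k - 1 + 1) = φ k
  rw [Nat.sub_add_cancel (hw k hk)]

/-- the shift of the letters -/
lemma LynO.shift1 {φ : ℕ → ℤ} {w : List ℕ} (h : LynO φ w) (hw : ∀ k ∈ w, 1 ≤ k) :
    LynO (fun m => φ (m + 1)) (w.map (· - 1)) := by
  induction h with
  | letter a => exact LynO.letter _
  | mul u v hu hv huv ihu ihv =>
    have h1 : ∀ k ∈ u, 1 ≤ k := fun k hk => hw k (List.mem_append_left _ hk)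
    have h2 : ∀ k ∈ v, 1 ≤ k := fun k hk => hw k (List.mem_append_right _ hk)
    rw [List.map_append]
    refine LynO.mul _ _ (ihu h1) (ihv h2) ?_
    rw [map_map_sub1 h1, map_map_sub1 h2]
    exact huv

lemma psi_lt (a b : ℕ) (h : (fun m : ℕ => -((m + 1 : ℕ) : ℤ)) a < (fun m : ℕ => -((m + 1 : ℕ) : ℤ)) b) : b < a := by
  have h1 : -((a + 1 : ℕ) : ℤ) < -((b + 1 : ℕ) : ℤ) := h
  push_cast at h1
  omega

lemma psi_inj : Function.Injective (fun m : ℕ => -((m + 1 : ℕ) : ℤ)) := by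
  intro a b h
  have h1 : -((a + 1 : ℕ) : ℤ) = -((b + 1 : ℕ) : ℤ) := h
  push_cast at h1
  omega

lemma GW.shift {w : List ℕ} (h : GW w) : LynO (fun m : ℕ => -((m + 1 : ℕ) : ℤ)) (w.map (· - 1)) ∧ w.map (· - 1) ≠ [0] := by
  refine ⟨h.1.shift1 h.2.1, fun h1 => h.2.2 ?_⟩
  refine map_inj1 h.2.1 (by simp) ?_
  rw [h1]
  rfl

lemma GW.adW {w : List ℕ} (h : GW w) : AdW w := by
  obtain ⟨h1, h2⟩ := h.shift
  rcases head_pos psi_lt psi_inj h1 with h3 | ⟨j, s', h3⟩
  · exact absurd h3 h2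
  · rcases w with _ | ⟨k, w⟩
    · simp at h3
    · rw [List.map_cons] at h3
      have h4 := (List.cons.inj h3).1
      refine ⟨?_, fun l hl => h.2.1 l (List.mem_cons_of_mem _ hl)⟩
      have : k - 1 = j + 1 := h4
      omega

/-- **algebraic independence of the Poisson means `S_w(x)`, `w` a Lyndon word in the positive integers** -/
theorem ai_G (X : Set ℂ) (hX : ∀ x ∈ X, IsAlgebraic ℚ x ∧ ∀ y ∈ X, x + y ≠ 0) :
    AlgebraicIndependent KK (fun p : {p : List ℕ × ℂ // GW p.1 ∧ p.2 ∈ X} => S p.1.1 p.1.2) := by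
  have hne : ∀ x ∈ X, x ≠ 0 := by
    intro x hx h0
    exact (hX x hx).2 x hx (by rw [h0, add_zero])
  let X' : Set Qb := {x | io x ∈ X}
  have hX' : ∀ x ∈ X', ∀ y ∈ X', x + y ≠ 0 := by
    intro x hx y hy h
    refine (hX _ hx).2 _ hy ?_
    rw [← map_add, h, map_zero]
  have hX0 : ∀ x ∈ X', x ≠ 0 := fun x hx h => hne _ hx (by rw [h, map_zero])
  have h1 := ai_gen psi_lt psi_inj hX' hX0
  rw [GG_eq] at h1
  choose f hf using fun p : {p : List ℕ × ℂ // GW p.1 ∧ p.2 ∈ X} => mem_range_io (hX p.1.2 p.2.2).1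
  let g : {p : List ℕ × ℂ // GW p.1 ∧ p.2 ∈ X} → Lz (fun m : ℕ => -((m + 1 : ℕ) : ℤ)) X' := fun p =>
    ⟨(p.1.1.map (· - 1), f p), p.2.1.shift, by
      show io (f p) ∈ X
      rw [hf]; exact p.2.2⟩
  have hg : Function.Injective g := by
    intro p q h
    have e1 : f p = f q := congrArg (fun z : Lz (fun m : ℕ => -((m + 1 : ℕ) : ℤ)) X' => z.1.2) h
    have e2 : p.1.1.map (· - 1) = q.1.1.map (· - 1) :=
      congrArg (fun z : Lz (fun m : ℕ => -((m + 1 : ℕ) : ℤ)) X' => z.1.1) h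
    apply Subtype.ext
    apply Prod.ext (map_inj1 p.2.1.2.1 q.2.1.2.1 e2)
    rw [← hf p, ← hf q, e1]
  have h2 : AlgebraicIndependent KK ((fun p : Lz (fun m : ℕ => -((m + 1 : ℕ) : ℤ)) X' =>
      evA io (FdA p.1.2 (hX0 _ p.2.2) p.1.1)) ∘ g) := h1.comp g hg
  have h3 : (fun p : Lz (fun m : ℕ => -((m + 1 : ℕ) : ℤ)) X' => evA io (FdA p.1.2 (hX0 _ p.2.2) p.1.1)) ∘ g =
      fun p : {p : List ℕ × ℂ // GW p.1 ∧ p.2 ∈ X} => S p.1.1 p.1.2 := by
    funext p
    show evA io (FdA (f p) (hX0 _ (g p).2.2) (p.1.1.map (· - 1))) = S p.1.1 p.1.2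
    rw [Sn_eq p.2.1.2.1, FdA, evA_Fd (hX0 _ (g p).2.2), hf]
  rwa [h3] at h2

/-! ### The counts -/

section

open Set

variable {G : List ℕ → Prop} {X : Set ℂ}

/-- at most one exception in every block -/
theorem gen_star (hG : ∀ w, G w → AdW w) (hX : ∀ x ∈ X, IsAlgebraic ℚ x)
    (ai : AlgebraicIndependent KK (fun p : {p : List ℕ × ℂ // G p.1 ∧ p.2 ∈ X} => S p.1.1 p.1.2))
    {B : Type} (z : B → ℂ) (β : List ℕ → B)
    (hβ : ∀ w, G w → IsAlgebraic (IntermediateField.adjoin KK {z (β w)}) (zt w)) :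
    ∃ C : Set (B ⊕ {p : List ℕ × ℂ // G p.1 ∧ p.2 ∈ X}),
      (∀ p q, p ∉ C → q ∉ C → Sum.elim id (fun p : {p : List ℕ × ℂ // G p.1 ∧ p.2 ∈ X} => β p.1.1) p =
        Sum.elim id (fun p : {p : List ℕ × ℂ // G p.1 ∧ p.2 ∈ X} => β p.1.1) q → p = q) ∧
      AlgebraicIndependent KK (fun p : C =>
        Sum.elim z (fun p : {p : List ℕ × ℂ // G p.1 ∧ p.2 ∈ X} => T p.1.1 p.1.2) p.1) := by
  have hXc : X.Countable := (Algebraic.countable ℚ ℂ).mono fun x hx => hX x hx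
  have hc : Countable {p : List ℕ × ℂ // G p.1 ∧ p.2 ∈ X} := by
    refine (((countable_univ (α := List ℕ)).prod hXc).mono ?_).to_subtype
    rintro ⟨k, x⟩ h
    exact ⟨mem_univ _, h.2⟩
  have h0 : AlgebraicIndependent KK (Sum.elim (fun p : {p : List ℕ × ℂ // G p.1 ∧ p.2 ∈ X} => S p.1.1 p.1.2)
      (fun i : Fin 0 => Fin.elim0 i)) := by
    have h1 := ai.comp (fun i : {p : List ℕ × ℂ // G p.1 ∧ p.2 ∈ X} ⊕ Fin 0 =>
      Sum.elim id (fun i : Fin 0 => Fin.elim0 i) i) (by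
      rintro (a | a) (b | b) h
      · exact congrArg Sum.inl h
      · exact Fin.elim0 b
      · exact Fin.elim0 a
      · exact Fin.elim0 a)
    convert h1 using 1
    funext i
    rcases i with i | i
    · rfl
    · exact Fin.elim0 i
  obtain ⟨C, hC, hC2⟩ := Pool.Agent.N778.CH.star_indep (R := KK)
    (fun p : {p : List ℕ × ℂ // G p.1 ∧ p.2 ∈ X} => β p.1.1)
    (U := Sum.elim z (fun p : {p : List ℕ × ℂ // G p.1 ∧ p.2 ∈ X} => T p.1.1 p.1.2)) h0 (fun p => by
      show S p.1.1 p.1.2 ∈ clf KK _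
      have h1 : zt p.1.1 ∈ clf KK {z (β p.1.1)} := mem_clf.2 (hβ _ p.2.1)
      have h4 : S p.1.1 p.1.2 = zt p.1.1 - T p.1.1 p.1.2 := by rw [Tn_eq (hG _ p.2.1)]; ring
      rw [h4]
      refine (clf KK _).sub_mem (clf_mono ?_ h1) (subset_clf _ (Or.inl (Or.inr rfl)))
      rintro t rfl
      exact Or.inl (Or.inl rfl))
  exact ⟨C, hC, hC2.comp Sum.inl Sum.inl_injective⟩

theorem gen_fin (ai : AlgebraicIndependent KK (fun p : {p : List ℕ × ℂ // G p.1 ∧ p.2 ∈ X} => S p.1.1 p.1.2))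
    {W : Finset (List ℕ)} (hW : ∀ w ∈ W, G w) {t : Finset ℂ} (ht : (t : Set ℂ) ⊆ X) :
    AlgebraicIndependent KK (fun p : W × t => S p.1 p.2) := by
  let g : W × t → {p : List ℕ × ℂ // G p.1 ∧ p.2 ∈ X} := fun p => ⟨(p.1, p.2), hW _ p.1.2, ht p.2.2⟩
  have hg : Function.Injective g := by
    intro p q hpq
    have e1 : (p.1 : List ℕ) = q.1 := congrArg (fun z : {p : List ℕ × ℂ // G p.1 ∧ p.2 ∈ X} => z.1.1) hpq
    have e2 : (p.2 : ℂ) = q.2 := congrArg (fun z : {p : List ℕ × ℂ // G p.1 ∧ p.2 ∈ X} => z.1.2) hpq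
    exact Prod.ext (Subtype.ext e1) (Subtype.ext e2)
  exact ai.comp g hg

/-- the count of the exceptional points -/
theorem gen_count (hG : ∀ w, G w → AdW w)
    (ai : AlgebraicIndependent KK (fun p : {p : List ℕ × ℂ // G p.1 ∧ p.2 ∈ X} => S p.1.1 p.1.2))
    {W : Finset (List ℕ)} (hW : ∀ w ∈ W, G w) {r : ℕ} (y : Fin r → ℂ)
    (hy : ∀ w ∈ W, IsAlgebraic (IntermediateField.adjoin KK (range y)) (zt w)) :
    {x : ℂ | x ∈ X ∧ ¬ AlgebraicIndependent KK (fun w : W => T w x)}.encard ≤ r := by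
  classical
  refine encard_le_of_fin _ _ fun t ht => ?_
  refine alg_count W S T t (gen_fin ai hW fun x hx => (ht hx).1) y (fun w hw x _ => ?_) fun x hx => (ht hx).2
  have h1 : zt w ∈ clf KK (insert (T w x) (range y)) := clf_mono (subset_insert _ _) (mem_clf.2 (hy w hw))
  have h2 : T w x ∈ clf KK (insert (T w x) (range y)) := subset_clf _ (mem_insert _ _)
  have h4 : S w x = zt w - T w x := by rw [Tn_eq (hG _ (hW w hw))]; ring
  rw [h4]
  exact (clf KK _).sub_mem h1 h2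

/-- the count including the point `0` -/
theorem gen_count_zero (hG : ∀ w, G w → AdW w)
    (ai : AlgebraicIndependent KK (fun p : {p : List ℕ × ℂ // G p.1 ∧ p.2 ∈ X} => S p.1.1 p.1.2))
    {W : Finset (List ℕ)} (hW : ∀ w ∈ W, G w) :
    {x : ℂ | (x ∈ X ∨ x = 0) ∧ ¬ AlgebraicIndependent KK (fun w : W => T w x)}.encard ≤ W.card := by
  classical
  let e : Fin W.card ≃ W := W.equivFin.symm
  by_cases h0 : AlgebraicIndependent KK (fun w : W => T w 0)
  · have h1 := gen_count hG ai hW (fun i : Fin W.card => zt (e i)) fun w hw => by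
      refine mem_clf.1 (subset_clf _ ⟨e.symm ⟨w, hw⟩, ?_⟩)
      show zt (e (e.symm ⟨w, hw⟩)) = zt w
      rw [Equiv.apply_symm_apply]
    refine (encard_le_encard ?_).trans h1
    rintro x ⟨hx | rfl, hx'⟩
    · exact ⟨hx, hx'⟩
    · exact absurd h0 hx'
  · obtain ⟨w₀, hw₀⟩ := dep_exists h0
    have hpos : 1 ≤ W.card := Finset.card_pos.2 ⟨w₀.1, w₀.2⟩
    let W' : Finset (List ℕ) := W.erase w₀.1
    have hW' : W'.card = W.card - 1 := Finset.card_erase_of_mem w₀.2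
    let e' : Fin W'.card ≃ W' := W'.equivFin.symm
    have hz : ∀ w : W, T w 0 = zt w := fun w => T_zeron (hG _ (hW w w.2))
    have h1 := gen_count hG ai hW (fun i : Fin W'.card => zt (e' i)) fun w hw => by
      refine mem_clf.1 ?_
      by_cases hww : w = w₀.1
      · rw [hww]
        have h2 : zt w₀ = T w₀ 0 := (hz w₀).symm
        rw [h2]
        refine clf_le ?_ hw₀
        rintro _ ⟨v, hv, rfl⟩
        have hv' : v.1 ∈ W' := Finset.mem_erase.2 ⟨fun h => hv (Subtype.ext h), v.2⟩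
        refine subset_clf _ ⟨e'.symm ⟨v.1, hv'⟩, ?_⟩
        show zt (e' (e'.symm ⟨v.1, hv'⟩)) = T v 0
        rw [Equiv.apply_symm_apply, hz]
      · have hv' : w ∈ W' := Finset.mem_erase.2 ⟨hww, hw⟩
        refine subset_clf _ ⟨e'.symm ⟨w, hv'⟩, ?_⟩
        show zt (e' (e'.symm ⟨w, hv'⟩)) = zt w
        rw [Equiv.apply_symm_apply]
    have h2 : {x : ℂ | (x ∈ X ∨ x = 0) ∧ ¬ AlgebraicIndependent KK (fun w : W => T w x)} ⊆
        insert 0 {x : ℂ | x ∈ X ∧ ¬ AlgebraicIndependent KK (fun w : W => T w x)} := by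
      rintro x ⟨hx | rfl, hx'⟩
      · exact Or.inr ⟨hx, hx'⟩
      · exact Or.inl rfl
    refine (encard_le_encard h2).trans ((encard_insert_le _ _).trans ?_)
    calc {x : ℂ | x ∈ X ∧ ¬ AlgebraicIndependent KK (fun w : W => T w x)}.encard + 1 ≤ ((W'.card : ℕ) : ℕ∞) + 1 :=
          add_le_add_left h1 1
      _ = ((W.card - 1 + 1 : ℕ) : ℕ∞) := by rw [hW']; push_cast; rfl
      _ = W.card := by rw [Nat.sub_add_cancel hpos]

end

end Pool.Agent.N778.MZ
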