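import Pool.Agent.N778.MZ.Sum

/-!
# Tuples of points, and the admissible words of a weight
-/

set_option autoImplicit false
set_option linter.unusedSectionVars false

namespace Pool.Agent.N778.MZ

section

variable {F : Type*} [Field F] [Algebra F ℂ]

/-- combinations over blocks -/
theorem li_blocks {α β : Type*} [Fintype α] [Fintype β] (a : Option (β × α) → ℂ) (h : LinearIndependent F a)
    (c : β → α → F) (hc : ∀ i, ∃ w, c i w ≠ 0) :
    LinearIndependent F (fun o : Option β => (o.elim (a none) (fun i => ∑ w, c i w • a (some (i, w))) : ℂ)) := by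
  rw [Fintype.linearIndependent_iff] at h ⊢
  intro g hg
  have h1 := h (fun o => o.elim (g none) (fun p => g (some p.1) * c p.1 p.2)) (by
    rw [← hg, Fintype.sum_option, Fintype.sum_option]
    congr 1
    rw [Fintype.sum_prod_type]
    refine Finset.sum_congr rfl fun i _ => ?_
    show ∑ w, (g (some i) * c i w) • a (some (i, w)) = g (some i) • ∑ w, c i w • a (some (i, w))
    rw [Finset.smul_sum]
    exact Finset.sum_congr rfl fun w _ => by rw [mul_smul])
  intro o
  rcases o with _ | i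
  · exact h1 none
  · obtain ⟨w, hw⟩ := hc i
    have h2 : g (some i) * c i w = 0 := h1 (some (i, w))
    exact (mul_eq_zero.1 h2).resolve_right hw

variable {ι : Type*}

/-- **tuples of points** -/
theorem tuple_count (W : Finset ι) (κ : ι → ℕ) (f : ι → ℂ → ℂ) (X : Set ℂ) (V : Submodule F ℂ)
    (hV : Module.Finite F V) (h1 : (1 : ℂ) ∈ V)
    (h : LinearIndependent F (fun o : Option {p : ι × ℂ // p.1 ∈ W ∧ p.2 ∈ X} => (o.elim 1 (fun p => f p.1.1 p.1.2) : ℂ))) :
    ∃ E : ℕ → Finset ℂ, (∀ k, (E k).card + 1 ≤ Module.finrank F V) ∧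
      ∀ x : ℕ → ℂ, (∀ w ∈ W, x (κ w) ∈ X ∧ x (κ w) ∉ E (κ w)) → ∀ c : ι → F,
        ∑ w ∈ W, c w • f w (x (κ w)) ∈ V → ∀ w ∈ W, c w = 0 := by
  classical
  let Bad : (ℕ → ℂ) → Prop := fun x => (∀ w ∈ W, x (κ w) ∈ X) ∧
    ∃ c : ι → F, ∑ w ∈ W, c w • f w (x (κ w)) ∈ V ∧ ∃ w ∈ W, c w ≠ 0
  let P : ℕ → Prop := fun m => ∃ y : Fin m → ℕ → ℂ, (∀ i, Bad (y i)) ∧
    ∀ i j, i ≠ j → ∀ w ∈ W, y i (κ w) ≠ y j (κ w)
  have hP : ∀ m, P m → m + 1 ≤ Module.finrank F V := by
    rintro m ⟨y, hy, hd⟩
    have hy1 := fun i => (hy i).1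
    have hy2 := fun i => (hy i).2
    choose c hc hc' using hy2
    let g : Fin m × W → {p : ι × ℂ // p.1 ∈ W ∧ p.2 ∈ X} := fun q =>
      ⟨((q.2 : ι), y q.1 (κ q.2)), q.2.2, hy1 q.1 q.2 q.2.2⟩
    have hg : Function.Injective g := by
      rintro ⟨i, w⟩ ⟨j, v⟩ hh
      have e1 : (w : ι) = v := congrArg (fun z : {p : ι × ℂ // p.1 ∈ W ∧ p.2 ∈ X} => z.1.1) hh
      have e2 : y i (κ w) = y j (κ v) := congrArg (fun z : {p : ι × ℂ // p.1 ∈ W ∧ p.2 ∈ X} => z.1.2) hh
      have e3 : w = v := Subtype.ext e1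
      subst e3
      by_cases hij : i = j
      · rw [hij]
      · exact absurd e2 (hd i j hij w w.2)
    have h2 := h.comp (Option.map g) (Option.map_injective hg)
    have h3 := li_blocks _ h2 (fun i (w : W) => c i w) (fun i => by
      obtain ⟨w, hw, hw'⟩ := hc' i
      exact ⟨⟨w, hw⟩, hw'⟩)
    have hmem : ∀ o : Option (Fin m), (o.elim (((fun o : Option {p : ι × ℂ // p.1 ∈ W ∧ p.2 ∈ X} =>
        (o.elim 1 (fun p => f p.1.1 p.1.2) : ℂ)) ∘ Option.map g) none) (fun i => ∑ w : W, c i w •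
        ((fun o : Option {p : ι × ℂ // p.1 ∈ W ∧ p.2 ∈ X} => (o.elim 1 (fun p => f p.1.1 p.1.2) : ℂ)) ∘
          Option.map g) (some (i, w))) : ℂ) ∈ V := by
      intro o
      rcases o with _ | i
      · exact h1
      · have h4 := hc i
        rw [← Finset.sum_coe_sort W (fun w => c i w • f w (y i (κ w)))] at h4
        exact h4
    have h4 : LinearIndependent F (fun o : Option (Fin m) => (⟨_, hmem o⟩ : V)) :=
      LinearIndependent.of_comp V.subtype h3
    have h5 := h4.fintype_card_le_finrank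
    rwa [Fintype.card_option, Fintype.card_fin] at h5
  have hP0 : P 0 := ⟨fun i => i.elim0, fun i => i.elim0, fun i => i.elim0⟩
  set D := Module.finrank F V with hD
  set m := Nat.findGreatest P D with hm
  have hPm : P m := Nat.findGreatest_spec (Nat.zero_le D) hP0
  have hPm1 : ¬ P (m + 1) := by
    intro h2
    have h3 := hP _ h2
    exact Nat.findGreatest_is_greatest (P := P) (n := D) (k := m + 1) (by omega) (by omega) h2
  obtain ⟨y, hy, hd⟩ := hPm
  refine ⟨fun k => Finset.univ.image fun i : Fin m => y i k, fun k => ?_, ?_⟩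
  · have h2 : (Finset.univ.image fun i : Fin m => y i k).card ≤ m := by
      refine Finset.card_image_le.trans ?_
      rw [Finset.card_univ, Fintype.card_fin]
    have h3 := hP m ⟨y, hy, hd⟩
    exact (Nat.add_le_add_right h2 1).trans h3
  · intro x hx c hcV w hw
    by_contra hcw
    apply hPm1
    have hxy : ∀ i, ∀ w ∈ W, x (κ w) ≠ y i (κ w) := by
      intro i v hv he
      exact (hx v hv).2 (Finset.mem_image.2 ⟨i, Finset.mem_univ _, he.symm⟩)
    refine ⟨Fin.cons x y, fun i => ?_, fun i j => ?_⟩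
    · refine Fin.cases ?_ (fun i => ?_) i
      · rw [Fin.cons_zero]
        exact ⟨fun w hw => (hx w hw).1, c, hcV, w, hw, hcw⟩
      · rw [Fin.cons_succ]
        exact hy i
    · refine Fin.cases ?_ (fun i => ?_) i
      · refine Fin.cases ?_ (fun j => ?_) j
        · intro h2
          exact absurd rfl h2
        · intro _ v hv
          rw [Fin.cons_zero, Fin.cons_succ]
          exact hxy j v hv
      · refine Fin.cases ?_ (fun j => ?_) j
        · intro _ v hv
          rw [Fin.cons_zero, Fin.cons_succ]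
          exact (hxy i v hv).symm
        · intro h2 v hv
          rw [Fin.cons_succ, Fin.cons_succ]
          exact hd i j (fun h3 => h2 (by rw [h3])) v hv

/-- **directness**: if the sum of the spaces `Z_j` is not direct, the dimension of the sum is less than the sum of the
dimensions -/
theorem direct_count {n : ℕ} (Z : Fin n → Submodule F ℂ) (hZ : ∀ j, Module.Finite F (Z j)) (V : Submodule F ℂ)
    (hV : V ≤ ⨆ j, Z j) :
    Module.finrank F V ≤ ∑ j, Module.finrank F (Z j) ∧
    ((∃ z : Fin n → ℂ, (∀ j, z j ∈ Z j) ∧ ∑ j, z j = 0 ∧ ∃ j, z j ≠ 0) →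
      Module.finrank F V + 1 ≤ ∑ j, Module.finrank F (Z j)) := by
  classical
  let Φ : (∀ j, Z j) →ₗ[F] ℂ := ∑ j, (Z j).subtype ∘ₗ LinearMap.proj j
  have hΦ : ∀ z, Φ z = ∑ j, (z j : ℂ) := fun z => by
    rw [LinearMap.sum_apply]
    rfl
  have h1 := LinearMap.finrank_range_add_finrank_ker Φ
  rw [Module.finrank_pi_fintype] at h1
  have h2 : V ≤ LinearMap.range Φ := by
    refine hV.trans (iSup_le fun j => ?_)
    intro z hz
    refine ⟨Pi.single j ⟨z, hz⟩, ?_⟩
    rw [hΦ, Finset.sum_eq_single j]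
    · rw [Pi.single_eq_same]
    · intro i _ hij
      rw [Pi.single_eq_of_ne hij]
      rfl
    · intro h
      exact absurd (Finset.mem_univ j) h
  have hfin : Module.Finite F (LinearMap.range Φ) := inferInstance
  have h3 : Module.finrank F V ≤ Module.finrank F (LinearMap.range Φ) := Submodule.finrank_mono h2
  refine ⟨by omega, ?_⟩
  rintro ⟨z, hz, hsum, j, hj⟩
  have h4 : (fun i => (⟨z i, hz i⟩ : Z i)) ∈ LinearMap.ker Φ := by
    rw [LinearMap.mem_ker, hΦ]
    exact hsum
  have h5 : LinearMap.ker Φ ≠ ⊥ := by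
    intro h6
    rw [h6, Submodule.mem_bot] at h4
    exact hj (congrArg Subtype.val (congrFun h4 j))
  have h6 : 1 ≤ Module.finrank F (LinearMap.ker Φ) := Submodule.one_le_finrank_iff.2 h5
  omega

end

/-! ### The admissible words of a weight -/

open Classical in
/-- the admissible words of weight `n` -/
noncomputable def Wd (n : ℕ) : Finset (List ℕ) :=
  ((Finset.univ : Finset (Composition n)).image Composition.blocks).filter AdW

lemma mem_Wd {n : ℕ} {w : List ℕ} : w ∈ Wd n ↔ AdW w ∧ w.sum = n := by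
  classical
  rw [Wd, Finset.mem_filter, Finset.mem_image]
  constructor
  · rintro ⟨⟨c, _, rfl⟩, hw⟩
    exact ⟨hw, c.blocks_sum⟩
  · rintro ⟨hw, hs⟩
    exact ⟨⟨⟨w, fun hi => hw.wo.2 _ hi, hs⟩, Finset.mem_univ _, rfl⟩, hw⟩

lemma card_Wd (n : ℕ) : (Wd (n + 2)).card = 2 ^ n := by
  classical
  have h1 : (Finset.univ : Finset (Composition (n + 1))).card = 2 ^ n := by
    rw [Finset.card_univ, composition_card]
    rfl
  rw [← h1]
  symm
  refine Finset.card_bij (fun c _ => (c.blocks.headD 0 + 1) :: c.blocks.tail) ?_ ?_ ?_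
  · intro c _
    have h2 := c.blocks_sum
    have h3 : ∀ i ∈ c.blocks, 1 ≤ i := fun i hi => c.blocks_pos hi
    rcases hb : c.blocks with _ | ⟨k, s⟩
    · rw [hb] at h2
      exact absurd h2 (by simp)
    · rw [hb] at h2 h3
      rw [mem_Wd]
      refine ⟨⟨?_, fun l hl => h3 l (List.mem_cons_of_mem _ hl)⟩, ?_⟩
      · show 2 ≤ k + 1
        have := h3 k (by simp)
        omega
      · show (k + 1) + s.sum = n + 2
        have : k + s.sum = n + 1 := h2
        omega
  · intro c _ d _ h
    have h2 := c.blocks_sum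
    have h3 := d.blocks_sum
    obtain ⟨e1, e2⟩ := List.cons.inj h
    apply Composition.ext
    rcases hb : c.blocks with _ | ⟨k, s⟩
    · rw [hb] at h2
      exact absurd h2 (by simp)
    · rcases hb' : d.blocks with _ | ⟨l, r⟩
      · rw [hb'] at h3
        exact absurd h3 (by simp)
      · rw [hb, hb'] at e1 e2
        have e3 : k + 1 = l + 1 := e1
        have e4 : s = r := e2
        rw [e4, Nat.succ_injective e3]
  · intro w hw
    rw [mem_Wd] at hw
    rcases w with _ | ⟨k, s⟩
    · exact absurd hw.1 id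
    · have h2 : 2 ≤ k := hw.1.1
      have h3 : k + s.sum = n + 2 := hw.2
      refine ⟨⟨(k - 1) :: s, ?_, ?_⟩, Finset.mem_univ _, ?_⟩
      · intro i hi
        rcases List.mem_cons.1 hi with rfl | hi
        · omega
        · exact hw.1.2 i hi
      · rw [List.sum_cons]
        omega
      · show (k - 1 + 1) :: s = k :: s
        rw [Nat.sub_add_cancel (by omega)]

lemma Wd_zero : Wd 0 = ∅ := by
  rw [Finset.eq_empty_iff_forall_notMem]
  intro w hw
  rw [mem_Wd] at hw
  rcases w with _ | ⟨k, s⟩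
  · exact hw.1
  · have h2 : 2 ≤ k := hw.1.1
    have h3 : k + s.sum = 0 := hw.2
    omega

lemma Wd_one : Wd 1 = ∅ := by
  rw [Finset.eq_empty_iff_forall_notMem]
  intro w hw
  rw [mem_Wd] at hw
  rcases w with _ | ⟨k, s⟩
  · exact hw.1
  · have h2 : 2 ≤ k := hw.1.1
    have h3 : k + s.sum = 1 := hw.2
    omega

end Pool.Agent.N778.MZ
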