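import Pool.Agent.N778.MZ.Op
import Pool.Agent.N778.MZ.Tup

/-!
# Words in the letters `exp (a t) dt/t`
-/

set_option autoImplicit false
set_option linter.unusedSectionVars false

open PowerSeries Pool.Agent.N902.EW

namespace Pool.Agent.N778.MZ

section

variable {K : Type*} [Field K] [CharZero K]

/-- the letters -/
def lx (x : K) : SignType → K
  | SignType.neg => -x
  | SignType.zero => 0
  | SignType.pos => x

/-- the series of the words -/
noncomputable def hs (x : K) : List SignType → K⟦X⟧
  | [] => 1
  | [SignType.neg] => U [-x]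
  | [SignType.zero] => 0
  | [SignType.pos] => U [x]
  | a :: b :: v => ig (ex (lx x a) * hs x (b :: v))

lemma hs_cons (x : K) (a : SignType) {v : List SignType} (hv : v ≠ []) : hs x (a :: v) = ig (ex (lx x a) * hs x v) := by
  rcases v with _ | ⟨b, v⟩
  · exact absurd rfl hv
  · cases a <;> rfl

lemma ig_ex_zero (f : K⟦X⟧) : ig (ex (0 : K) * f) = ig (lt 0 * f) := by rw [ex_zero, lt_zero]

lemma ig_ex_ne {a : K} (ha : a ≠ 0) (f : K⟦X⟧) : ig (ex a * f) = ig (lt a * f) + ig (lt 0 * f) := by
  have h1 : ex a * f = lt a * f + lt 0 * f := by rw [lt_ne ha, lt_zero]; ring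
  rw [h1, ig_add]

lemma lx_letter (x : K) (a : SignType) : lx x a = 0 ∨ lx x a = x ∨ lx x a = -x := by
  cases a
  · exact Or.inl rfl
  · exact Or.inr (Or.inr rfl)
  · exact Or.inr (Or.inl rfl)

lemma hs_SF {x : K} (hx : x ≠ 0) : ∀ v : List SignType, v ≠ [] → hs x v ∈ SF x (v.length + 1) := by
  intro v
  induction v with
  | nil => intro h; exact absurd rfl h
  | cons a v ih =>
    intro _
    by_cases hv : v = []
    · subst hv
      cases a
      · exact Submodule.zero_mem _
      · refine U_mem_SF ⟨trivial, fun _ => neg_ne_zero.2 hx⟩ (by simp) ?_ ?_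
        · rw [nz_ne (neg_ne_zero.2 hx), nz_nil]
          norm_num
        · intro b hb
          exact Or.inr (Or.inr (List.mem_singleton.1 hb))
      · refine U_mem_SF ⟨trivial, fun _ => hx⟩ (by simp) ?_ ?_
        · rw [nz_ne hx, nz_nil]
          norm_num
        · intro b hb
          exact Or.inr (Or.inl (List.mem_singleton.1 hb))
    · have h1 := ih hv
      rw [hs_cons x a hv, List.length_cons]
      have h0 : ig (lt 0 * hs x v) ∈ SF x (v.length + 1 + 1) := by
        rw [lt_zero, one_mul]
        exact SF_mono x (Nat.le_succ _) (ig_mem h1)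
      by_cases ha : lx x a = 0
      · rw [ha, ig_ex_zero]
        exact h0
      · rw [ig_ex_ne ha]
        exact Submodule.add_mem _ (ig_lt_mem (lx_letter x a) h1) h0

lemma hs_SP {x : K} (hx : x ≠ 0) {v : List SignType} (hv : v ≠ []) : hs x v ∈ SP K := SF_le_SP x _ (hs_SF hx v hv)

lemma hs_mem {x : K} (hx : x ≠ 0) (v : List SignType) : hs x v ∈ AA K := by
  by_cases hv : v = []
  · rw [hv]
    exact (AA K).one_mem
  · exact SF_le_AA (hs_SF hx v hv)

/-- the words as elements of the algebra -/
noncomputable def HA (x : K) (hx : x ≠ 0) (v : List SignType) : AA K := ⟨hs x v, hs_mem hx v⟩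

lemma HA_nil {x : K} (hx : x ≠ 0) : HA x hx [] = mk 0 [] adm_nil := by
  apply Subtype.ext
  show (1 : K⟦X⟧) = ex 0 * U []
  rw [ex_zero, U_nil, one_mul]

lemma HA_VA {x : K} (hx : x ≠ 0) {v : List SignType} (hv : v ≠ []) : HA x hx v ∈ VA x (v.length + 1) :=
  SF_VA (hs_SF hx v hv) _

lemma VA_NS {x y : K} (hy : y ≠ 0) (hyx : y ≠ x) (hyx' : y ≠ -x) {d : ℕ} {f : AA K} (hf : f ∈ VA x d) : f ∈ NS y := by
  refine Submodule.span_le.2 ?_ hf
  rintro _ ⟨w, h, -, h2, rfl⟩
  refine mk_mem_NS 0 h fun hyw => ?_
  rcases h2 y hyw with h3 | h3 | h3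
  · exact hy h3
  · exact hyx h3
  · exact hyx' h3

/-- the derivations on the words -/
lemma DA_ig (a b : K) {f : K⟦X⟧} (hf : f ∈ SP K) (h1 : ig (lt b * f) ∈ AA K) (h2 : f ∈ AA K) [Decidable (b = a)] :
    DA a ⟨ig (lt b * f), h1⟩ = if b = a then ⟨f, h2⟩ else 0 := by
  have e1 : (⟨ig (lt b * f), h1⟩ : AA K) = ⟨ex 0 * ig (lt b * f), by rw [ex_zero, one_mul]; exact h1⟩ := by
    apply Subtype.ext
    show ig (lt b * f) = ex 0 * ig (lt b * f)
    rw [ex_zero, one_mul]
  have e2 : (⟨f, h2⟩ : AA K) = ⟨ex 0 * f, by rw [ex_zero, one_mul]; exact h2⟩ := by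
    apply Subtype.ext
    show f = ex 0 * f
    rw [ex_zero, one_mul]
  rw [e1, e2, DA_apply]
  exact dA_ig a b 0 hf _ _

/-- the derivations which are dual to the letters -/
noncomputable def Ed (x : K) : SignType → Derivation K (AA K) (AA K)
  | SignType.neg => DA (-x)
  | SignType.zero => DA 0 - DA x - DA (-x)
  | SignType.pos => DA x

lemma ne_neg {x : K} (hx : x ≠ 0) : x ≠ -x := fun h => hx (by
  have h1 : (2 : K) * x = 0 := by linear_combination h
  exact (mul_eq_zero.1 h1).resolve_left two_ne_zero)

lemma Ed_cons {x : K} (hx : x ≠ 0) (a b : SignType) {v : List SignType} (hv : v ≠ []) :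
    Ed x a (HA x hx (b :: v)) = if a = b then HA x hx v else 0 := by
  classical
  have hSP := hs_SP hx hv
  have m0 : ∀ c : K, ig (lt c * hs x v) ∈ AA K := fun c => SW_le_SA (SP_le (ig_mul_mem c hSP))
  have key : ∀ c d : K, DA c (⟨ig (lt d * hs x v), m0 d⟩ : AA K) = if d = c then HA x hx v else 0 := fun c d =>
    DA_ig c d hSP (m0 d) (hs_mem hx v)
  have e0 : HA x hx (SignType.zero :: v) = ⟨ig (lt 0 * hs x v), m0 0⟩ := by
    apply Subtype.ext
    show hs x (SignType.zero :: v) = _
    rw [hs_cons x _ hv]
    exact ig_ex_zero _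
  have e1 : ∀ b : SignType, lx x b ≠ 0 → HA x hx (b :: v) = ⟨ig (lt (lx x b) * hs x v), m0 _⟩ + ⟨ig (lt 0 * hs x v), m0 0⟩ := by
    intro b hb
    apply Subtype.ext
    show hs x (b :: v) = ig (lt (lx x b) * hs x v) + ig (lt 0 * hs x v)
    rw [hs_cons x _ hv]
    exact ig_ex_ne hb _
  have hx' : -x ≠ 0 := neg_ne_zero.2 hx
  have n1 : x ≠ -x := ne_neg hx
  have n2 : -x ≠ x := Ne.symm n1
  have k0 : ∀ f : AA K, Ed x SignType.zero f = DA 0 f - DA x f - DA (-x) f := fun f => rfl
  cases b
  · rw [e0]
    cases a
    · rw [k0, key, key, key, if_pos rfl, if_neg (Ne.symm hx), if_neg (Ne.symm hx'), if_pos rfl, sub_zero, sub_zero]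
    · show DA (-x) _ = _
      rw [key, if_neg (Ne.symm hx'), if_neg (by decide)]
    · show DA x _ = _
      rw [key, if_neg (Ne.symm hx), if_neg (by decide)]
  · rw [e1 SignType.neg hx']
    show Ed x a (⟨ig (lt (-x) * hs x v), m0 _⟩ + ⟨ig (lt 0 * hs x v), m0 0⟩) = _
    cases a
    · rw [k0, map_add, map_add, map_add, key, key, key, key, key, key, if_neg hx', if_pos rfl, if_neg n2, if_neg (Ne.symm hx),
        if_pos rfl, if_neg (Ne.symm hx'), if_neg (by decide)]
      ring
    · show DA (-x) _ = _
      rw [map_add, key, key, if_pos rfl, if_neg (Ne.symm hx'), if_pos rfl, add_zero]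
    · show DA x _ = _
      rw [map_add, key, key, if_neg n2, if_neg (Ne.symm hx), if_neg (by decide), add_zero]
  · rw [e1 SignType.pos hx]
    show Ed x a (⟨ig (lt x * hs x v), m0 _⟩ + ⟨ig (lt 0 * hs x v), m0 0⟩) = _
    cases a
    · rw [k0, map_add, map_add, map_add, key, key, key, key, key, key, if_neg hx, if_pos rfl, if_pos rfl, if_neg (Ne.symm hx),
        if_neg n1, if_neg (Ne.symm hx'), if_neg (by decide)]
      ring
    · show DA (-x) _ = _
      rw [map_add, key, key, if_neg n1, if_neg (Ne.symm hx'), if_neg (by decide), add_zero]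
    · show DA x _ = _
      rw [map_add, key, key, if_pos rfl, if_neg (Ne.symm hx), if_pos rfl, add_zero]

lemma adm_single {a : K} (ha : a ≠ 0) : Adm [a] := ⟨trivial, fun _ => ha⟩

lemma HA_single {a : K} (ha : a ≠ 0) (h : U [a] ∈ AA K) :
    (⟨U [a], h⟩ : AA K) = mk 0 [a] (adm_single ha) := by
  apply Subtype.ext
  show U [a] = ex 0 * U [a]
  rw [ex_zero, one_mul]

lemma Ed_single {x : K} (hx : x ≠ 0) (a b : SignType) :
    Ed x a (HA x hx [b]) = ((if [b] = [a] then (1 : K) else 0) - (if [SignType.zero] = [a] then (1 : K) else 0)) • HA x hx [] := by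
  classical
  have hx' : -x ≠ 0 := neg_ne_zero.2 hx
  have n1 : x ≠ -x := ne_neg hx
  have n2 : -x ≠ x := Ne.symm n1
  have k0 : ∀ f : AA K, Ed x SignType.zero f = DA 0 f - DA x f - DA (-x) f := fun f => rfl
  have e0 : HA x hx [SignType.zero] = 0 := rfl
  have e1 : HA x hx [SignType.neg] = mk 0 [-x] (adm_single hx') := HA_single hx' _
  have e2 : HA x hx [SignType.pos] = mk 0 [x] (adm_single hx) := HA_single hx _
  have s1 : ∀ c : K, ∀ hc : c ≠ 0, DA c (mk 0 [c] (adm_single hc)) = HA x hx [] := fun c hc =>
    (DA_self c 0 [] (adm_single hc)).trans (HA_nil hx).symm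
  have s2 : ∀ c d : K, ∀ hc : c ≠ 0, c ≠ d → DA d (mk 0 [c] (adm_single hc)) = 0 := fun c d hc hcd =>
    DA_ne hcd _ _ _
  cases b
  · rw [e0, map_zero]
    have : ((if [SignType.zero] = [a] then (1 : K) else 0) - (if [SignType.zero] = [a] then (1 : K) else 0)) = 0 := sub_self _
    rw [this, zero_smul]
  · rw [e1]
    cases a
    · rw [k0, s2 _ _ hx' hx', s2 _ _ hx' n2, s1 _ hx', if_neg (by decide), if_pos rfl]
      rw [show ((0 : K) - 1) = -1 by ring, neg_smul, one_smul]
      ring
    · show DA (-x) _ = _
      rw [s1 _ hx', if_pos rfl, if_neg (by decide), sub_zero, one_smul]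
    · show DA x _ = _
      rw [s2 _ _ hx' n2, if_neg (by decide), if_neg (by decide), sub_zero, zero_smul]
  · rw [e2]
    cases a
    · rw [k0, s2 _ _ hx hx, s1 _ hx, s2 _ _ hx n1, if_neg (by decide), if_pos rfl]
      rw [show ((0 : K) - 1) = -1 by ring, neg_smul, one_smul]
      ring
    · show DA (-x) _ = _
      rw [s2 _ _ hx n1, if_neg (by decide), if_neg (by decide), sub_zero, zero_smul]
    · show DA x _ = _
      rw [s1 _ hx, if_pos rfl, if_neg (by decide), sub_zero, one_smul]

lemma Ed_nil {x : K} (hx : x ≠ 0) (a : SignType) : Ed x a (HA x hx []) = 0 := by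
  rw [HA_nil]
  have k0 : ∀ f : AA K, Ed x SignType.zero f = DA 0 f - DA x f - DA (-x) f := fun f => rfl
  cases a
  · rw [k0, DA_nil, DA_nil, DA_nil, sub_zero, sub_zero]
  · exact DA_nil _ _ _
  · exact DA_nil _ _ _

/-! ### The operators of the Lyndon words -/

/-- the action on the words -/
structure Oq (x : K) (hx : x ≠ 0) (n : ℕ) (c : List SignType → K) (D : Derivation K (AA K) (AA K)) : Prop where
  pos : 1 ≤ n
  long : ∀ v : List SignType, n < v.length → D (HA x hx v) = c (v.take n) • HA x hx (v.drop n)
  exact : ∀ (u : List SignType) (b : SignType), u.length + 1 = n →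
    D (HA x hx (u ++ [b])) = (c (u ++ [b]) - c (u ++ [SignType.zero])) • HA x hx []
  short : ∀ v : List SignType, v.length < n → D (HA x hx v) = 0

/-- the kernel -/
structure Kq (x : K) (t : List SignType) (D : Derivation K (AA K) (AA K)) : Prop where
  pres : ∀ (y : K) (f : AA K), f ∈ NS y → D f ∈ NS y
  kp : SignType.pos ∈ t → ∀ f ∈ NS x, D f = 0
  kn : SignType.neg ∈ t → ∀ f ∈ NS (-x), D f = 0

lemma oq_single {x : K} (hx : x ≠ 0) (a : SignType) :
    Oq x hx 1 (fun u => if u = [a] then (1 : K) else 0) (Ed x a) where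
  pos := le_rfl
  long v hv := by
    rcases v with _ | ⟨b, v⟩
    · simp at hv
    · have hv' : v ≠ [] := by
        rintro rfl
        simp at hv
      rw [Ed_cons hx a b hv']
      show _ = (if [b] = [a] then (1 : K) else 0) • HA x hx v
      by_cases h : a = b
      · rw [if_pos h, if_pos (by rw [h]), one_smul]
      · rw [if_neg h, if_neg (fun h' => h (List.cons.inj h').1.symm), zero_smul]
  exact u b hu := by
    have : u = [] := List.length_eq_zero_iff.1 (by omega)
    subst this
    exact Ed_single hx a b
  short v hv := by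
    have : v = [] := List.length_eq_zero_iff.1 (by omega)
    subst this
    exact Ed_nil hx a

lemma kq_single (x : K) (a : SignType) : Kq x [a] (Ed x a) where
  pres y f hf := by
    cases a
    · exact Submodule.sub_mem _ (Submodule.sub_mem _ (DA_NS _ _ hf) (DA_NS _ _ hf)) (DA_NS _ _ hf)
    · exact DA_NS _ _ hf
    · exact DA_NS _ _ hf
  kp h f hf := by
    rw [← List.mem_singleton.1 h]
    exact DA_NS_self _ hf
  kn h f hf := by
    rw [← List.mem_singleton.1 h]
    exact DA_NS_self _ hf

lemma kq_bracket {x : K} {t t' : List SignType} {D D' : Derivation K (AA K) (AA K)} (h : Kq x t D) (h' : Kq x t' D') :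
    Kq x (t ++ t') ⁅D', D⁆ where
  pres y f hf := by
    rw [Derivation.commutator_apply]
    exact Submodule.sub_mem _ (h'.pres y _ (h.pres y f hf)) (h.pres y _ (h'.pres y f hf))
  kp hp f hf := by
    rw [Derivation.commutator_apply]
    rcases List.mem_append.1 hp with h1 | h1
    · rw [h.kp h1 f hf, map_zero, h.kp h1 _ (h'.pres _ _ hf), sub_zero]
    · rw [h'.kp h1 f hf, map_zero, h'.kp h1 _ (h.pres _ _ hf), sub_zero]
  kn hp f hf := by
    rw [Derivation.commutator_apply]
    rcases List.mem_append.1 hp with h1 | h1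
    · rw [h.kn h1 f hf, map_zero, h.kn h1 _ (h'.pres _ _ hf), sub_zero]
    · rw [h'.kn h1 f hf, map_zero, h'.kn h1 _ (h.pres _ _ hf), sub_zero]

/-- the coefficients of the commutator -/
def cb (n n' : ℕ) (c c' : List SignType → K) (a : List SignType) : K :=
  c (a.take n) * c' (a.drop n) - c' (a.take n') * c (a.drop n')

lemma oq_bracket {x : K} {hx : x ≠ 0} {n n' : ℕ} {c c' : List SignType → K} {D D' : Derivation K (AA K) (AA K)}
    (h : Oq x hx n c D) (h' : Oq x hx n' c' D') : Oq x hx (n + n') (cb n n' c c') ⁅D', D⁆ where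
  pos := h.pos.trans (Nat.le_add_right _ _)
  long v hv := by
    have e1 : (v.take (n + n')).take n = v.take n := by
      rw [List.take_take]; congr 1; omega
    have e2 : (v.take (n + n')).drop n = (v.drop n).take n' := by
      rw [List.drop_take]; congr 1; omega
    have e3 : (v.take (n + n')).take n' = v.take n' := by
      rw [List.take_take]; congr 1; omega
    have e4 : (v.take (n + n')).drop n' = (v.drop n').take n := by
      rw [List.drop_take]; congr 1; omega
    have e5 : (v.drop n).drop n' = v.drop (n + n') := by rw [List.drop_drop]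
    have e6 : (v.drop n').drop n = v.drop (n + n') := by rw [List.drop_drop, Nat.add_comm]
    have a1 := h.long v (by omega)
    have a2 := h'.long (v.drop n) (by rw [List.length_drop]; omega)
    have a3 := h'.long v (by omega)
    have a4 := h.long (v.drop n') (by rw [List.length_drop]; omega)
    rw [e5] at a2
    rw [e6] at a4
    rw [Derivation.commutator_apply, a1, a3, Derivation.map_smul, Derivation.map_smul, a2, a4, smul_smul, smul_smul,
      ← sub_smul, cb, e1, e2, e3, e4]
  exact u b hu := by
    have hl : (u ++ [b]).length = n + n' := by rw [List.length_append, List.length_singleton]; exact hu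
    have hp := h.pos
    have hp' := h'.pos
    have a1 := h.long (u ++ [b]) (by omega)
    have a3 := h'.long (u ++ [b]) (by omega)
    have t1 : ∀ (k : ℕ) (d : SignType), k ≤ u.length → (u ++ [d]).take k = u.take k := fun k d hk =>
      List.take_append_of_le_length hk
    have t2 : ∀ (k : ℕ) (d : SignType), k ≤ u.length → (u ++ [d]).drop k = u.drop k ++ [d] := fun k d hk =>
      List.drop_append_of_le_length hk
    have hn : n ≤ u.length := by omega
    have hn' : n' ≤ u.length := by omega
    have a2 := h'.exact (u.drop n) b (by rw [List.length_drop]; omega)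
    have a4 := h.exact (u.drop n') b (by rw [List.length_drop]; omega)
    rw [Derivation.commutator_apply, a1, a3, Derivation.map_smul, Derivation.map_smul, t2 n b hn, t2 n' b hn', a2, a4,
      smul_smul, smul_smul, ← sub_smul, cb, cb, t1 n b hn, t1 n' b hn', t1 n _ hn, t1 n' _ hn', t2 n b hn, t2 n' b hn',
      t2 n _ hn, t2 n' _ hn']
    congr 1
    ring
  short v hv := by
    have key : ∀ {m m' : ℕ} {e e' : List SignType → K} {G G' : Derivation K (AA K) (AA K)}, Oq x hx m e G →
        Oq x hx m' e' G' → v.length < m + m' → G' (G (HA x hx v)) = 0 := by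
      intro m m' e e' G G' hG hG' hv
      rcases lt_trichotomy v.length m with h1 | h1 | h1
      · rw [hG.short v h1, map_zero]
      · rcases List.eq_nil_or_concat v with h2 | ⟨u, b, h2⟩
        · rw [h2] at h1
          have := hG.pos
          simp at h1
          omega
        · rw [h2, List.concat_eq_append] at h1 ⊢
          rw [List.length_append, List.length_singleton] at h1
          rw [hG.exact u b h1, Derivation.map_smul, hG'.short [] hG'.pos, smul_zero]
      · rw [hG.long v h1, Derivation.map_smul, hG'.short _ (by rw [List.length_drop]; omega), smul_zero]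
    rw [Derivation.commutator_apply, key h h' hv, key h' h (by omega), sub_zero]

/-- the operators of the Lyndon words -/
theorem exists_oq {x : K} (hx : x ≠ 0) {t : List SignType} (ht : Lyn t) :
    ∃ (c : List SignType → K) (D : Derivation K (AA K) (AA K)), Oq x hx t.length c D ∧ Kq x t D ∧ c t ≠ 0 ∧
      ∀ a : List SignType, a.length = t.length → c a ≠ 0 → t ≤ a := by
  classical
  induction ht with
  | single a =>
    refine ⟨_, Ed x a, oq_single hx a, kq_single x a, ?_, ?_⟩
    · show (if [a] = [a] then (1 : K) else 0) ≠ 0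
      rw [if_pos rfl]
      exact one_ne_zero
    · intro u _ hu
      by_contra hcon
      apply hu
      show (if u = [a] then (1 : K) else 0) = 0
      rw [if_neg]
      rintro rfl
      exact hcon le_rfl
  | mul u v hu hv huv ihu ihv =>
    obtain ⟨c, D, hD, hK, hc, hc'⟩ := ihu
    obtain ⟨c', D', hD', hK', hd, hd'⟩ := ihv
    have hop := oq_bracket hD hD'
    have hswap := hu.swap hv huv
    rw [← List.length_append] at hop
    refine ⟨_, _, hop, kq_bracket hK hK', ?_, ?_⟩
    · show c ((u ++ v).take u.length) * c' ((u ++ v).drop u.length) -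
        c' ((u ++ v).take v.length) * c ((u ++ v).drop v.length) ≠ 0
      rw [List.take_left, List.drop_left]
      have h0 : c' ((u ++ v).take v.length) * c ((u ++ v).drop v.length) = 0 := by
        by_contra hne
        have h1 := hd' _ (by rw [List.length_take, List.length_append]; omega) (left_ne_zero_of_mul hne)
        have h2 := hc' _ (by rw [List.length_drop, List.length_append]; omega) (right_ne_zero_of_mul hne)
        have h3 := le_app (by rw [List.length_take, List.length_append]; omega) h1 h2
        rw [List.take_append_drop] at h3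
        exact absurd hswap (not_lt.2 h3)
      rw [h0, sub_zero]
      exact mul_ne_zero hc hd
    · intro a ha hne
      rw [List.length_append] at ha
      by_cases h1 : c (a.take u.length) * c' (a.drop u.length) = 0
      · have h2 : c' (a.take v.length) * c (a.drop v.length) ≠ 0 := by
          intro h2
          apply hne
          show c (a.take u.length) * c' (a.drop u.length) - c' (a.take v.length) * c (a.drop v.length) = 0
          rw [h1, h2, sub_zero]
        have h3 := hd' _ (by rw [List.length_take]; omega) (left_ne_zero_of_mul h2)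
        have h4 := hc' _ (by rw [List.length_drop]; omega) (right_ne_zero_of_mul h2)
        have h5 := le_app (by rw [List.length_take]; omega) h3 h4
        rw [List.take_append_drop] at h5
        exact hswap.le.trans h5
      · have h3 := hc' _ (by rw [List.length_take]; omega) (left_ne_zero_of_mul h1)
        have h4 := hd' _ (by rw [List.length_drop]; omega) (right_ne_zero_of_mul h1)
        have h5 := le_app (by rw [List.length_take]; omega) h3 h4
        rwa [List.take_append_drop] at h5

end

end Pool.Agent.N778.MZ
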