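import Pool.Agent.N778.MZ.Hat

/-!
# The leading words of the Poisson means
-/

set_option autoImplicit false
set_option linter.unusedSectionVars false

open PowerSeries Pool.Agent.N902.EW

namespace Pool.Agent.N778.MZ

section

variable {K : Type*} [Field K] [CharZero K]

/-- the word of a composition (the entry `m` stands for `m + 1`) -/
def bw : List ℕ → List SignType
  | [] => []
  | 0 :: s => SignType.zero :: bw s
  | (j + 1) :: s => SignType.neg :: (List.replicate j SignType.zero ++ SignType.pos :: bw s)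

lemma bw_nil : bw [] = [] := rfl

lemma bw_zero (s : List ℕ) : bw (0 :: s) = SignType.zero :: bw s := by rw [bw]

lemma bw_succ (j : ℕ) (s : List ℕ) :
    bw ((j + 1) :: s) = SignType.neg :: (List.replicate j SignType.zero ++ SignType.pos :: bw s) := by rw [bw]

lemma bw_len (j : ℕ) (s : List ℕ) : (bw (j :: s)).length = j + 1 + (bw s).length := by
  rcases j with _ | j
  · rw [bw_zero, List.length_cons]; omega
  · rw [bw_succ, List.length_cons, List.length_append, List.length_replicate, List.length_cons]; omega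

lemma bw_append (s t : List ℕ) : bw (s ++ t) = bw s ++ bw t := by
  induction s with
  | nil => rfl
  | cons j s ih =>
    rw [List.cons_append]
    rcases j with _ | j
    · rw [bw_zero, bw_zero, ih, List.cons_append]
    · rw [bw_succ, bw_succ, ih, List.cons_append, List.append_assoc, List.cons_append]

lemma rep_lt {a b : ℕ} (h : b < a) (u v : List SignType) :
    List.replicate a SignType.zero ++ u < List.replicate b SignType.zero ++ SignType.pos :: v := by
  induction b generalizing a with
  | zero =>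
    obtain ⟨a, rfl⟩ : ∃ a', a = a' + 1 := ⟨a - 1, by omega⟩
    rw [List.replicate_succ, List.cons_append, List.replicate_zero, List.nil_append, List.cons_lt_cons_iff]
    exact Or.inl (by decide)
  | succ b ih =>
    obtain ⟨a, rfl⟩ : ∃ a', a = a' + 1 := ⟨a - 1, by omega⟩
    rw [List.replicate_succ, List.cons_append, List.replicate_succ, List.cons_append, List.cons_lt_cons_iff]
    exact Or.inr ⟨rfl, ih (by omega)⟩

lemma cons_lt' (a : SignType) {u v : List SignType} (h : u < v) : a :: u < a :: v := by
  rw [List.cons_lt_cons_iff]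
  exact Or.inr ⟨rfl, h⟩

/-- merging of two entries makes the word smaller -/
lemma bw_merge (j m : ℕ) (s : List ℕ) : bw ((m + j + 1) :: s) < bw (j :: m :: s) := by
  rw [bw_succ]
  rcases j with _ | j
  · rw [bw_zero, List.cons_lt_cons_iff]
    exact Or.inl (by decide)
  · rw [bw_succ]
    exact cons_lt' _ (rep_lt (by omega) _ _)

lemma bw_merge_len (j m : ℕ) (s : List ℕ) : (bw ((m + j + 1) :: s)).length = (bw (j :: m :: s)).length := by
  rw [bw_len, bw_len, bw_len]
  omega

/-- the smaller words -/
noncomputable def TS (x : K) (v : List SignType) : Submodule K K⟦X⟧ :=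
  Submodule.span K {f | ∃ (p : List SignType) (b : SignType), p.length + 1 = v.length ∧ p ++ [b] < v ∧
    p ++ [SignType.zero] < v ∧ f = hs x (p ++ [b])}

/-- the leading word -/
def Lead (x : K) (v : List SignType) (f : K⟦X⟧) : Prop :=
  ∃ e : K, e ≠ 0 ∧ ∃ (p : List SignType) (b : SignType), p.length + 1 = v.length ∧
    ((b = SignType.pos ∧ v = p ++ [SignType.pos]) ∨ (b = SignType.neg ∧ v = p ++ [SignType.zero])) ∧
    f - e • hs x (p ++ [b]) ∈ TS x v

lemma TS_cons {x : K} (a : SignType) {v : List SignType} {f : K⟦X⟧} (hf : f ∈ TS x v) :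
    ig (ex (lx x a) * f) ∈ TS x (a :: v) := by
  refine Submodule.span_induction (p := fun f _ => ig (ex (lx x a) * f) ∈ TS x (a :: v)) ?_ ?_ ?_ ?_ hf
  · rintro _ ⟨p, b, h1, h2, h3, rfl⟩
    refine Submodule.subset_span ⟨a :: p, b, by rw [List.length_cons, List.length_cons, h1], cons_lt' a h2,
      cons_lt' a h3, ?_⟩
    rw [List.cons_append, hs_cons x a (by simp)]
  · rw [mul_zero]
    have : ig (0 : K⟦X⟧) = 0 := by
      have h1 := ig_smul (0 : K) (0 : K⟦X⟧)
      rwa [zero_smul, zero_smul] at h1
    rw [this]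
    exact Submodule.zero_mem _
  · intro f g _ _ hf hg
    rw [mul_add, ig_add]
    exact Submodule.add_mem _ hf hg
  · intro c f _ hf
    rw [mul_smul_comm, ig_smul]
    exact Submodule.smul_mem _ _ hf

lemma TS_mono {x : K} {v w : List SignType} (h : v ≤ w) (hl : v.length = w.length) : TS x v ≤ TS x w := by
  refine Submodule.span_mono ?_
  rintro _ ⟨p, b, h1, h2, h3, rfl⟩
  exact ⟨p, b, h1.trans hl, h2.trans_le h, h3.trans_le h, rfl⟩

lemma snoc_lt (p : List SignType) {a b : SignType} (h : a < b) : p ++ [a] < p ++ [b] :=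
  app_lt_left p (by rw [List.cons_lt_cons_iff]; exact Or.inl h)

lemma Lead.cons {x : K} (a : SignType) {v : List SignType} {f : K⟦X⟧} (h : Lead x v f) :
    Lead x (a :: v) (ig (ex (lx x a) * f)) := by
  obtain ⟨e, he, p, b, h1, h2, h3⟩ := h
  refine ⟨e, he, a :: p, b, by rw [List.length_cons, List.length_cons, h1], ?_, ?_⟩
  · rcases h2 with ⟨h2, h4⟩ | ⟨h2, h4⟩
    · exact Or.inl ⟨h2, by rw [h4, List.cons_append]⟩
    · exact Or.inr ⟨h2, by rw [h4, List.cons_append]⟩
  · have h4 := TS_cons a h3
    rw [mul_sub, ig_sub, mul_smul_comm, ig_smul] at h4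
    rwa [List.cons_append, hs_cons x a (by simp)]

lemma Lead.iter {x : K} {v : List SignType} {f : K⟦X⟧} (h : Lead x v f) (j : ℕ) :
    Lead x (List.replicate j SignType.zero ++ v) (ig^[j] f) := by
  induction j with
  | zero => exact h
  | succ j ih =>
    rw [Function.iterate_succ_apply', List.replicate_succ, List.cons_append]
    have h1 := ih.cons SignType.zero
    have h2 : ig (ex (lx x SignType.zero) * ig^[j] f) = ig (ig^[j] f) := by
      show ig (ex 0 * ig^[j] f) = _
      rw [ex_zero, one_mul]
    rwa [h2] at h1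

lemma Lead.sub {x : K} {v : List SignType} {f g : K⟦X⟧} (h : Lead x v f) (hg : g ∈ TS x v) : Lead x v (f - g) := by
  obtain ⟨e, he, p, b, h1, h2, h3⟩ := h
  refine ⟨e, he, p, b, h1, h2, ?_⟩
  have h4 : f - g - e • hs x (p ++ [b]) = (f - e • hs x (p ++ [b])) - g := by ring
  rw [h4]
  exact Submodule.sub_mem _ h3 hg

lemma Lead.mem_TS {x : K} {v w : List SignType} {f : K⟦X⟧} (h : Lead x v f) (hvw : v < w) (hl : v.length = w.length) :
    f ∈ TS x w := by
  obtain ⟨e, he, p, b, h1, h2, h3⟩ := h
  have h4 : f = e • hs x (p ++ [b]) + (f - e • hs x (p ++ [b])) := by ring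
  rw [h4]
  refine Submodule.add_mem _ (Submodule.smul_mem _ _ ?_) (TS_mono hvw.le hl h3)
  rcases h2 with ⟨rfl, rfl⟩ | ⟨rfl, rfl⟩
  · exact Submodule.subset_span ⟨p, _, h1.trans hl, hvw, (snoc_lt p (by decide)).trans hvw, rfl⟩
  · exact Submodule.subset_span ⟨p, _, h1.trans hl, (snoc_lt p (by decide)).trans hvw, hvw, rfl⟩

/-- **the leading words of the Poisson means** -/
theorem Lead_Fd {x : K} (hx : x ≠ 0) : ∀ (n : ℕ) (s : List ℕ), s.length = n + 1 → Lead x (bw s) (Fd s x) := by
  intro n
  induction n with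
  | zero =>
    intro s hl0
    obtain ⟨j, rfl⟩ := List.length_eq_one_iff.1 hl0
    rcases j with _ | j
    · rw [bw_zero, Fd_single_zero hx]
      refine ⟨-1, neg_ne_zero.2 one_ne_zero, [], SignType.neg, rfl, Or.inr ⟨rfl, rfl⟩, ?_⟩
      have h1 : -U [-x] - (-1 : K) • hs x ([] ++ [SignType.neg]) = 0 := by
        rw [neg_smul, one_smul]
        show -U [-x] - -U [-x] = 0
        ring
      rw [h1]
      exact Submodule.zero_mem _
    · rw [bw_succ, Fd_single_succ j hx]
      have h1 : Lead x [SignType.pos] (U [x]) := by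
        refine ⟨1, one_ne_zero, [], SignType.pos, rfl, Or.inl ⟨rfl, rfl⟩, ?_⟩
        have h2 : U [x] - (1 : K) • hs x ([] ++ [SignType.pos]) = 0 := by
          rw [one_smul]
          show U [x] - U [x] = 0
          ring
        rw [h2]
        exact Submodule.zero_mem _
      exact (h1.iter j).cons SignType.neg
  | succ n ih =>
    intro s hl0
    rcases s with _ | ⟨j, s⟩
    · simp at hl0
    rcases s with _ | ⟨m, s⟩
    · simp at hl0
    have hl : (m :: s).length = n + 1 := by simpa using hl0
    have h1 := ih (m :: s) hl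
    have h2 := (ih ((m + j + 1) :: s) hl).mem_TS (bw_merge j m s) (bw_merge_len j m s)
    rw [Fd_rec]
    refine Lead.sub ?_ h2
    rcases j with _ | j
    · rw [bw_zero]
      have h3 := h1.cons SignType.zero
      have h4 : ig (ex (lx x SignType.zero) * Fd (m :: s) x) = Mo x 0 (Fd (m :: s) x) := by
        show ig (ex 0 * Fd (m :: s) x) = ig (Fd (m :: s) x)
        rw [ex_zero, one_mul]
      rwa [h4] at h3
    · rw [bw_succ]
      exact ((h1.cons SignType.pos).iter j).cons SignType.neg

lemma Lead_Fd' {x : K} (hx : x ≠ 0) {s : List ℕ} (hs : s ≠ []) : Lead x (bw s) (Fd s x) := by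
  obtain ⟨j, t, rfl⟩ := List.exists_cons_of_ne_nil hs
  exact Lead_Fd hx t.length (j :: t) rfl

/-- the Poisson means as elements of the algebra -/
noncomputable def FdA (x : K) (hx : x ≠ 0) (s : List ℕ) : AA K := ⟨Fd s x, Fd_mem hx s⟩

lemma TS_le {x : K} (hx : x ≠ 0) {v : List SignType} {f : K⟦X⟧} (hf : f ∈ TS x v) : f ∈ AA K := by
  have h : TS x v ≤ (AA K).toSubmodule := by
    refine Submodule.span_le.2 ?_
    rintro _ ⟨p, b, -, -, -, rfl⟩
    exact hs_mem hx _
  exact h hf

/-- the operators on the smaller words -/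
lemma act_TS {x : K} {hx : x ≠ 0} {t : List SignType} {c : List SignType → K} {D : Derivation K (AA K) (AA K)}
    (h : Oq x hx t.length c D) (htri : ∀ a : List SignType, a.length = t.length → c a ≠ 0 → t ≤ a)
    {f : K⟦X⟧} (hf : f ∈ TS x t) : ∀ hm : f ∈ AA K, D ⟨f, hm⟩ = 0 := by
  refine Submodule.span_induction (p := fun f _ => ∀ hm : f ∈ AA K, D ⟨f, hm⟩ = 0) ?_ ?_ ?_ ?_ hf
  · rintro _ ⟨p, b, h1, h2, h3, rfl⟩ hm
    have h4 := h.exact p b h1
    have z1 : ∀ b' : SignType, p ++ [b'] < t → c (p ++ [b']) = 0 := by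
      intro b' hb'
      by_contra hne
      exact absurd (htri _ (by rw [List.length_append, List.length_singleton]; exact h1) hne) (not_le.2 hb')
    rw [z1 b h2, z1 _ h3, sub_zero, zero_smul] at h4
    exact h4
  · intro hm
    exact map_zero D
  · intro f g hf hg ihf ihg hm
    have h1 := map_add D (⟨f, TS_le hx hf⟩ : AA K) ⟨g, TS_le hx hg⟩
    rw [ihf, ihg, add_zero] at h1
    exact h1
  · intro a f hf ihf hm
    have h1 := D.map_smul a (⟨f, TS_le hx hf⟩ : AA K)
    rw [ihf, smul_zero] at h1
    exact h1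

lemma act_TS_short {x : K} {hx : x ≠ 0} {n : ℕ} {v : List SignType} {c : List SignType → K}
    {D : Derivation K (AA K) (AA K)} (h : Oq x hx n c D) (hv : v.length < n)
    {f : K⟦X⟧} (hf : f ∈ TS x v) : ∀ hm : f ∈ AA K, D ⟨f, hm⟩ = 0 := by
  refine Submodule.span_induction (p := fun f _ => ∀ hm : f ∈ AA K, D ⟨f, hm⟩ = 0) ?_ ?_ ?_ ?_ hf
  · rintro _ ⟨p, b, h1, h2, h3, rfl⟩ hm
    exact h.short (p ++ [b]) (by rw [List.length_append, List.length_singleton]; omega)
  · intro hm
    exact map_zero D
  · intro f g hf hg ihf ihg hm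
    have h1 := map_add D (⟨f, TS_le hx hf⟩ : AA K) ⟨g, TS_le hx hg⟩
    rw [ihf, ihg, add_zero] at h1
    exact h1
  · intro a f hf ihf hm
    have h1 := D.map_smul a (⟨f, TS_le hx hf⟩ : AA K)
    rw [ihf, smul_zero] at h1
    exact h1

lemma split_lead {x : K} (hx : x ≠ 0) {v : List SignType} {f : K⟦X⟧} {e : K} {u : List SignType}
    (h3 : f - e • hs x u ∈ TS x v) (hm : f ∈ AA K) :
    (⟨f, hm⟩ : AA K) = e • HA x hx u + ⟨f - e • hs x u, TS_le hx h3⟩ := by
  apply Subtype.ext
  show f = e • hs x u + (f - e • hs x u)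
  ring

/-- **the operators on the Poisson means** -/
theorem act_Fd {x : K} {hx : x ≠ 0} {t : List SignType} {c : List SignType → K} {D : Derivation K (AA K) (AA K)}
    (h : Oq x hx t.length c D) (hct : c t ≠ 0) (htri : ∀ a : List SignType, a.length = t.length → c a ≠ 0 → t ≤ a)
    {s : List ℕ} (hs : s ≠ []) :
    ((bw s).length < t.length → D (FdA x hx s) = 0) ∧
    ((bw s).length = t.length → bw s < t → D (FdA x hx s) = 0) ∧
    (bw s = t → ∃ r : K, r ≠ 0 ∧ D (FdA x hx s) = r • HA x hx []) := by
  have hL := Lead_Fd' hx hs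
  refine ⟨fun hl => ?_, fun hl hlt => ?_, fun heq => ?_⟩
  · obtain ⟨e, he, p, b, h1, h2, h3⟩ := hL
    have h4 := split_lead hx h3 (Fd_mem hx s)
    show D ⟨Fd s x, Fd_mem hx s⟩ = 0
    rw [h4, map_add, Derivation.map_smul, act_TS_short h hl h3,
      h.short (p ++ [b]) (by rw [List.length_append, List.length_singleton]; omega), smul_zero, add_zero]
  · exact act_TS h htri (hL.mem_TS hlt hl) _
  · obtain ⟨e, he, p, b, h1, h2, h3⟩ := hL
    have h4 := split_lead hx h3 (Fd_mem hx s)
    rw [heq] at h1 h2 h3
    have h5 := h.exact p b h1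
    have z1 : ∀ b' : SignType, p ++ [b'] < t → c (p ++ [b']) = 0 := by
      intro b' hb'
      by_contra hne
      exact absurd (htri _ (by rw [List.length_append, List.length_singleton]; exact h1) hne) (not_le.2 hb')
    have h6 : D (FdA x hx s) = e • D (HA x hx (p ++ [b])) := by
      show D ⟨Fd s x, Fd_mem hx s⟩ = _
      rw [h4, map_add, Derivation.map_smul, act_TS h htri h3, add_zero]
    rcases h2 with ⟨rfl, h2⟩ | ⟨rfl, h2⟩
    · have h7 : c (p ++ [SignType.zero]) = 0 := z1 _ (by rw [h2]; exact snoc_lt p (by decide))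
      refine ⟨e * c t, mul_ne_zero he hct, ?_⟩
      rw [h6, h5, h7, sub_zero, ← h2, smul_smul]
    · have h7 : c (p ++ [SignType.neg]) = 0 := z1 _ (by rw [h2]; exact snoc_lt p (by decide))
      refine ⟨e * (-c t), mul_ne_zero he (neg_ne_zero.2 hct), ?_⟩
      rw [h6, h5, h7, zero_sub, ← h2, smul_smul]

lemma FdA_NS {x y : K} (hx : x ≠ 0) (hy : y ≠ 0) (hyx : y ≠ x) (hyx' : y ≠ -x) {s : List ℕ} (hs : s ≠ []) :
    FdA x hx s ∈ NS y := by
  obtain ⟨e, he, p, b, h1, h2, h3⟩ := Lead_Fd' hx hs
  have key : ∀ u : List SignType, u ≠ [] → HA x hx u ∈ NS y := fun u hu => VA_NS hy hyx hyx' (HA_VA hx hu)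
  have h5 : ∀ f ∈ TS x (bw s), ∀ hm : f ∈ AA K, (⟨f, hm⟩ : AA K) ∈ NS y := by
    intro f hf
    refine Submodule.span_induction (p := fun f _ => ∀ hm : f ∈ AA K, (⟨f, hm⟩ : AA K) ∈ NS y) ?_ ?_ ?_ ?_ hf
    · rintro _ ⟨p, b, h1, h2, h3, rfl⟩ hm
      exact key (p ++ [b]) (by simp)
    · intro hm
      exact Submodule.zero_mem _
    · intro f g hf hg ihf ihg hm
      exact Submodule.add_mem _ (ihf (TS_le hx hf)) (ihg (TS_le hx hg))
    · intro a f hf ihf hm
      exact Submodule.smul_mem _ a (ihf (TS_le hx hf))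
  have h4 := split_lead hx h3 (Fd_mem hx s)
  show (⟨Fd s x, Fd_mem hx s⟩ : AA K) ∈ NS y
  rw [h4]
  exact Submodule.add_mem _ (Submodule.smul_mem _ _ (key _ (by simp))) (h5 _ h3 _)

/-! ### Lyndon compositions -/

lemma rep_inj {i j : ℕ} {u v : List SignType}
    (h : List.replicate i SignType.zero ++ SignType.pos :: u = List.replicate j SignType.zero ++ SignType.pos :: v) :
    i = j ∧ u = v := by
  induction i generalizing j with
  | zero =>
    rcases j with _ | j
    · exact ⟨rfl, (List.cons.inj h).2⟩
    · rw [List.replicate_succ, List.replicate_zero, List.nil_append, List.cons_append] at h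
      exact absurd (List.cons.inj h).1 (by decide)
  | succ i ih =>
    rcases j with _ | j
    · rw [List.replicate_succ, List.replicate_zero, List.nil_append, List.cons_append] at h
      exact absurd (List.cons.inj h).1 (by decide)
    · rw [List.replicate_succ, List.replicate_succ, List.cons_append, List.cons_append] at h
      obtain ⟨h1, h2⟩ := ih (List.cons.inj h).2
      exact ⟨by rw [h1], h2⟩

lemma bw_inj : ∀ {s t : List ℕ}, bw s = bw t → s = t := by
  intro s
  induction s with
  | nil =>
    intro t h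
    rcases t with _ | ⟨j, t⟩
    · rfl
    · have := congrArg List.length h
      rw [bw_len, bw_nil, List.length_nil] at this
      omega
  | cons i s ih =>
    intro t h
    rcases t with _ | ⟨j, t⟩
    · have := congrArg List.length h
      rw [bw_len, bw_nil, List.length_nil] at this
      omega
    · rcases i with _ | i
      · rcases j with _ | j
        · rw [bw_zero, bw_zero] at h
          rw [ih (List.cons.inj h).2]
        · rw [bw_zero, bw_succ] at h
          exact absurd (List.cons.inj h).1 (by decide)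
      · rcases j with _ | j
        · rw [bw_zero, bw_succ] at h
          exact absurd (List.cons.inj h).1 (by decide)
        · rw [bw_succ, bw_succ] at h
          obtain ⟨h1, h2⟩ := rep_inj (List.cons.inj h).2
          rw [h1, ih h2]

lemma bw_lt {ψ : ℕ → ℤ} (hψ : ∀ a b, ψ a < ψ b → b < a) (hψ' : Function.Injective ψ) :
    ∀ {s t : List ℕ}, s.map ψ < t.map ψ → bw s < bw t := by
  intro s
  induction s with
  | nil =>
    intro t h
    rcases t with _ | ⟨j, t⟩
    · exact absurd h (lt_irrefl _)
    · rw [bw_nil]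
      rcases hb : bw (j :: t) with _ | ⟨b, v⟩
      · have := bw_len j t
        rw [hb, List.length_nil] at this
        omega
      · exact List.nil_lt_cons b v
  | cons i s ih =>
    intro t h
    rcases t with _ | ⟨j, t⟩
    · exact absurd h (List.not_lt_nil _)
    · rw [List.map_cons, List.map_cons, List.cons_lt_cons_iff] at h
      rcases h with h | ⟨h1, h2⟩
      · have h3 := hψ _ _ h
        obtain ⟨i, rfl⟩ : ∃ i', i = i' + 1 := ⟨i - 1, by omega⟩
        rw [bw_succ]
        rcases j with _ | j
        · rw [bw_zero, List.cons_lt_cons_iff]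
          exact Or.inl (by decide)
        · rw [bw_succ]
          exact cons_lt' _ (rep_lt (by omega) _ _)
      · have h3 := hψ' h1
        subst h3
        have h4 := ih h2
        rcases i with _ | i
        · rw [bw_zero, bw_zero]
          exact cons_lt' _ h4
        · rw [bw_succ, bw_succ]
          exact cons_lt' _ (app_lt_left _ (cons_lt' _ h4))

lemma lyn_block (j : ℕ) : Lyn (SignType.neg :: (List.replicate j SignType.zero ++ [SignType.pos])) := by
  have h1 : ∀ j : ℕ, Lyn (List.replicate j SignType.zero ++ [SignType.pos]) ∧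
      [SignType.neg] < List.replicate j SignType.zero ++ [SignType.pos] := by
    intro j
    induction j with
    | zero => exact ⟨Lyn.single _, by decide⟩
    | succ j ih =>
      rw [List.replicate_succ, List.cons_append]
      refine ⟨Lyn.mul [SignType.zero] _ (Lyn.single _) ih.1 ?_, ?_⟩
      · rcases j with _ | j
        · decide
        · show [SignType.zero] < SignType.zero :: (List.replicate j SignType.zero ++ [SignType.pos])
          rw [List.cons_lt_cons_iff]
          refine Or.inr ⟨rfl, ?_⟩
          rcases hb : List.replicate j SignType.zero ++ [SignType.pos] with _ | ⟨b, v⟩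
          · simp at hb
          · exact List.nil_lt_cons b v
      · rw [List.cons_lt_cons_iff]
        exact Or.inl (by decide)
  exact Lyn.mul [SignType.neg] _ (Lyn.single _) (h1 j).1 (h1 j).2

/-- **the words of the Lyndon compositions are Lyndon words** -/
theorem lyn_bw {ψ : ℕ → ℤ} (hψ : ∀ a b, ψ a < ψ b → b < a) (hψ' : Function.Injective ψ) {s : List ℕ}
    (hs : LynO ψ s) : Lyn (bw s) := by
  induction hs with
  | letter a =>
    rcases a with _ | j
    · exact Lyn.single _
    · rw [bw_succ, bw_nil]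
      exact lyn_block j
  | mul u v hu hv huv ihu ihv =>
    rw [bw_append]
    exact Lyn.mul _ _ ihu ihv (bw_lt hψ hψ' huv)

end

end Pool.Agent.N778.MZ
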