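import Pool.Agent.N778.MZ.Gen

/-!
# Linear forms in the Poisson means for all admissible words
-/

set_option autoImplicit false
set_option linter.unusedSectionVars false

open PowerSeries Pool.Agent.N902.EW

namespace Pool.Agent.N778.MZ

section

variable {K : Type*} [Field K] [CharZero K]

/-- products of Lyndon words which contain both letters -/
inductive Pr : List SignType → Prop
  | one (u : List SignType) : Lyn u → SignType.pos ∈ u → SignType.neg ∈ u → Pr u
  | mul (u v : List SignType) : Lyn u → SignType.pos ∈ u → SignType.neg ∈ u → Pr v → Pr (u ++ v)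

lemma Pr.pos_len {t : List SignType} (h : Pr t) : 1 ≤ t.length := by
  induction h with
  | one u _ hu _ => exact List.length_pos_of_mem hu
  | mul u v _ hu _ _ _ =>
    rw [List.length_append]
    have := List.length_pos_of_mem hu
    omega

/-- the blocks `A z^j B z^m` -/
def bz (j m : ℕ) : List SignType :=
  SignType.neg :: (List.replicate j SignType.zero ++ [SignType.pos]) ++ List.replicate m SignType.zero

lemma bz_succ (j m : ℕ) : bz j (m + 1) = bz j m ++ [SignType.zero] := by
  rw [bz, bz, List.append_assoc, ← List.replicate_succ']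

lemma lyn_bz (j m : ℕ) : Lyn (bz j m) := by
  induction m with
  | zero =>
    have h := lyn_block j
    rw [bz, List.replicate_zero, List.append_nil]
    exact h
  | succ m ih =>
    rw [bz_succ]
    refine Lyn.mul _ _ ih (Lyn.single _) ?_
    rw [bz, List.cons_append, List.cons_lt_cons_iff]
    exact Or.inl (by decide)

lemma bz_pos (j m : ℕ) : SignType.pos ∈ bz j m := by simp [bz]

lemma bz_neg (j m : ℕ) : SignType.neg ∈ bz j m := by simp [bz]

lemma pr_bz (s : List ℕ) : ∀ j m : ℕ, Pr (bz j m ++ bw s) := by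
  induction s with
  | nil =>
    intro j m
    rw [bw_nil, List.append_nil]
    exact Pr.one _ (lyn_bz j m) (bz_pos j m) (bz_neg j m)
  | cons k s ih =>
    intro j m
    rcases k with _ | k
    · have h1 := ih j (m + 1)
      rw [bz_succ, List.append_assoc] at h1
      rw [bw_zero]
      exact h1
    · refine Pr.mul _ _ (lyn_bz j m) (bz_pos j m) (bz_neg j m) ?_
      have h1 := ih k 0
      rw [bw_succ]
      rw [bz, List.replicate_zero, List.append_nil, List.cons_append, List.append_assoc] at h1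
      exact h1

lemma pr_bw (j : ℕ) (s : List ℕ) : Pr (bw ((j + 1) :: s)) := by
  have h1 := pr_bz s j 0
  rw [bw_succ]
  rw [bz, List.replicate_zero, List.append_nil, List.cons_append, List.append_assoc] at h1
  exact h1

/-- the elements which are killed by all derivations which kill the words without `x` or without `-x` -/
def Kd (x : K) (f : AA K) : Prop :=
  ∀ D : Derivation K (AA K) (AA K), (∀ g ∈ NS x, D g = 0) → (∀ g ∈ NS (-x), D g = 0) → D f = 0

/-- the action on the words -/
structure Ol (x : K) (hx : x ≠ 0) (n : ℕ) (c : List SignType → K) (O : AA K →ₗ[K] AA K) : Prop where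
  exact : ∀ (u : List SignType) (b : SignType), u.length + 1 = n →
    O (HA x hx (u ++ [b])) = (c (u ++ [b]) - c (u ++ [SignType.zero])) • HA x hx []
  short : ∀ v : List SignType, v.length < n → O (HA x hx v) = 0

/-- linearity over the killed elements -/
structure Kl (x : K) (O : AA K →ₗ[K] AA K) : Prop where
  lin : ∀ f : AA K, Kd x f → ∀ g, O (f * g) = f * O g
  kill : ∀ f : AA K, Kd x f → O f = 0

/-- the operators of the products -/
theorem exists_ol {x : K} (hx : x ≠ 0) {t : List SignType} (ht : Pr t) :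
    ∃ (c : List SignType → K) (O : AA K →ₗ[K] AA K), Ol x hx t.length c O ∧ Kl x O ∧ c t ≠ 0 ∧
      ∀ a : List SignType, a.length = t.length → c a ≠ 0 → t ≤ a := by
  induction ht with
  | one u hu hp hn =>
    obtain ⟨c, D, hD, hK, hc, hc'⟩ := exists_oq hx hu
    refine ⟨c, D.toLinearMap, ⟨fun u b h => hD.exact u b h, fun v h => hD.short v h⟩, ⟨fun f hf g => ?_, fun f hf => ?_⟩,
      hc, hc'⟩
    · show D (f * g) = f * D g
      rw [Derivation.leibniz, hf D (hK.kp hp) (hK.kn hn), smul_zero, add_zero, smul_eq_mul]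
    · exact hf D (hK.kp hp) (hK.kn hn)
  | mul u v hu hp hn hv ih =>
    obtain ⟨c, D, hD, hK, hc, hc'⟩ := exists_oq hx hu
    obtain ⟨d, O, hO, hL, hd, hd'⟩ := ih
    have hvl := hv.pos_len
    refine ⟨fun a => c (a.take u.length) * d (a.drop u.length), O.comp D.toLinearMap, ⟨fun p b h => ?_, fun w h => ?_⟩,
      ⟨fun f hf g => ?_, fun f hf => ?_⟩, ?_, fun a ha hne => ?_⟩
    · rw [List.length_append] at h
      have t1 : ∀ b' : SignType, (p ++ [b']).take u.length = p.take u.length := fun b' =>
        List.take_append_of_le_length (by omega)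
      have t2 : ∀ b' : SignType, (p ++ [b']).drop u.length = p.drop u.length ++ [b'] := fun b' =>
        List.drop_append_of_le_length (by omega)
      show O (D (HA x hx (p ++ [b]))) = _
      rw [hD.long (p ++ [b]) (by rw [List.length_append, List.length_singleton]; omega), map_smul, t2 b,
        hO.exact (p.drop u.length) b (by rw [List.length_drop]; omega), smul_smul, t1, t1, t2]
      congr 1
      ring
    · rw [List.length_append] at h
      show O (D (HA x hx w)) = 0
      rcases lt_trichotomy w.length u.length with h1 | h1 | h1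
      · rw [hD.short w h1, map_zero]
      · rcases List.eq_nil_or_concat w with h2 | ⟨p, b, h2⟩
        · rw [h2] at h1
          have := hD.pos
          simp at h1
          omega
        · rw [h2, List.concat_eq_append] at h1 ⊢
          rw [List.length_append, List.length_singleton] at h1
          rw [hD.exact p b h1, map_smul, hO.short [] hvl, smul_zero]
      · rw [hD.long w h1, map_smul, hO.short _ (by rw [List.length_drop]; omega), smul_zero]
    · show O (D (f * g)) = f * O (D g)
      rw [Derivation.leibniz, hf D (hK.kp hp) (hK.kn hn), smul_zero, add_zero, smul_eq_mul, hL.lin f hf]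
    · show O (D f) = 0
      rw [hf D (hK.kp hp) (hK.kn hn), map_zero]
    · show c ((u ++ v).take u.length) * d ((u ++ v).drop u.length) ≠ 0
      rw [List.take_left, List.drop_left]
      exact mul_ne_zero hc hd
    · rw [List.length_append] at ha
      have h3 := hc' _ (by rw [List.length_take]; omega) (left_ne_zero_of_mul hne)
      have h4 := hd' _ (by rw [List.length_drop]; omega) (right_ne_zero_of_mul hne)
      have h5 := le_app (by rw [List.length_take]; omega) h3 h4
      rwa [List.take_append_drop] at h5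

/-- the operators on the smaller words -/
lemma ol_TS {x : K} {hx : x ≠ 0} {t : List SignType} {c : List SignType → K} {O : AA K →ₗ[K] AA K}
    (h : Ol x hx t.length c O) (htri : ∀ a : List SignType, a.length = t.length → c a ≠ 0 → t ≤ a)
    {f : K⟦X⟧} (hf : f ∈ TS x t) : ∀ hm : f ∈ AA K, O ⟨f, hm⟩ = 0 := by
  refine Submodule.span_induction (p := fun f _ => ∀ hm : f ∈ AA K, O ⟨f, hm⟩ = 0) ?_ ?_ ?_ ?_ hf
  · rintro _ ⟨p, b, h1, h2, h3, rfl⟩ hm
    have h4 := h.exact p b h1
    have z1 : ∀ b' : SignType, p ++ [b'] < t → c (p ++ [b']) = 0 := by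
      intro b' hb'
      by_contra hne
      exact absurd (htri _ (by rw [List.length_append, List.length_singleton]; exact h1) hne) (not_le.2 hb')
    rw [z1 b h2, z1 _ h3, sub_zero, zero_smul] at h4
    exact h4
  · intro hm
    exact map_zero O
  · intro f g hf hg ihf ihg hm
    have h1 := map_add O (⟨f, TS_le hx hf⟩ : AA K) ⟨g, TS_le hx hg⟩
    rw [ihf, ihg, add_zero] at h1
    exact h1
  · intro a f hf ihf hm
    have h1 := map_smul O a (⟨f, TS_le hx hf⟩ : AA K)
    rw [ihf, smul_zero] at h1
    exact h1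

lemma ol_TS_short {x : K} {hx : x ≠ 0} {n : ℕ} {v : List SignType} {c : List SignType → K}
    {O : AA K →ₗ[K] AA K} (h : Ol x hx n c O) (hv : v.length < n)
    {f : K⟦X⟧} (hf : f ∈ TS x v) : ∀ hm : f ∈ AA K, O ⟨f, hm⟩ = 0 := by
  refine Submodule.span_induction (p := fun f _ => ∀ hm : f ∈ AA K, O ⟨f, hm⟩ = 0) ?_ ?_ ?_ ?_ hf
  · rintro _ ⟨p, b, h1, h2, h3, rfl⟩ hm
    exact h.short (p ++ [b]) (by rw [List.length_append, List.length_singleton]; omega)
  · intro hm
    exact map_zero O
  · intro f g hf hg ihf ihg hm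
    have h1 := map_add O (⟨f, TS_le hx hf⟩ : AA K) ⟨g, TS_le hx hg⟩
    rw [ihf, ihg, add_zero] at h1
    exact h1
  · intro a f hf ihf hm
    have h1 := map_smul O a (⟨f, TS_le hx hf⟩ : AA K)
    rw [ihf, smul_zero] at h1
    exact h1

/-- **the operators on the Poisson means** -/
theorem ol_Fd {x : K} {hx : x ≠ 0} {t : List SignType} {c : List SignType → K} {O : AA K →ₗ[K] AA K}
    (h : Ol x hx t.length c O) (hct : c t ≠ 0) (htri : ∀ a : List SignType, a.length = t.length → c a ≠ 0 → t ≤ a)
    {s : List ℕ} (hs : s ≠ []) :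
    ((bw s).length < t.length → O (FdA x hx s) = 0) ∧
    ((bw s).length = t.length → bw s < t → O (FdA x hx s) = 0) ∧
    (bw s = t → ∃ r : K, r ≠ 0 ∧ O (FdA x hx s) = r • HA x hx []) := by
  have hL := Lead_Fd' hx hs
  refine ⟨fun hl => ?_, fun hl hlt => ?_, fun heq => ?_⟩
  · obtain ⟨e, he, p, b, h1, h2, h3⟩ := hL
    have h4 := split_lead hx h3 (Fd_mem hx s)
    show O ⟨Fd s x, Fd_mem hx s⟩ = 0
    rw [h4, map_add, map_smul, ol_TS_short h hl h3,
      h.short (p ++ [b]) (by rw [List.length_append, List.length_singleton]; omega), smul_zero, add_zero]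
  · exact ol_TS h htri (hL.mem_TS hlt hl) _
  · obtain ⟨e, he, p, b, h1, h2, h3⟩ := hL
    have h4 := split_lead hx h3 (Fd_mem hx s)
    rw [heq] at h1 h2 h3
    have h5 := h.exact p b h1
    have z1 : ∀ b' : SignType, p ++ [b'] < t → c (p ++ [b']) = 0 := by
      intro b' hb'
      by_contra hne
      exact absurd (htri _ (by rw [List.length_append, List.length_singleton]; exact h1) hne) (not_le.2 hb')
    have h6 : O (FdA x hx s) = e • O (HA x hx (p ++ [b])) := by
      show O ⟨Fd s x, Fd_mem hx s⟩ = _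
      rw [h4, map_add, map_smul, ol_TS h htri h3, add_zero]
    rcases h2 with ⟨rfl, h2⟩ | ⟨rfl, h2⟩
    · have h7 : c (p ++ [SignType.zero]) = 0 := z1 _ (by rw [h2]; exact snoc_lt p (by decide))
      refine ⟨e * c t, mul_ne_zero he hct, ?_⟩
      rw [h6, h5, h7, sub_zero, ← h2, smul_smul]
    · have h7 : c (p ++ [SignType.neg]) = 0 := z1 _ (by rw [h2]; exact snoc_lt p (by decide))
      refine ⟨e * (-c t), mul_ne_zero he (neg_ne_zero.2 hct), ?_⟩
      rw [h6, h5, h7, zero_sub, ← h2, smul_smul]

end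

/-- admissible compositions (the entry `m` stands for `m + 1`) -/
def Ap : List ℕ → Prop
  | [] => False
  | 0 :: _ => False
  | (_ + 1) :: _ => True

lemma Ap.ne_nil {s : List ℕ} (h : Ap s) : s ≠ [] := by
  rintro rfl
  exact h

lemma Ap.pr {s : List ℕ} (h : Ap s) : Pr (bw s) := by
  rcases s with _ | ⟨_ | j, s⟩
  · exact absurd h id
  · exact absurd h id
  · exact pr_bw j s

/-- the index set -/
abbrev La (X : Set Qb) : Type := {p : List ℕ × Qb // Ap p.1 ∧ p.2 ∈ X}

/-- **linear forms whose value is killed** -/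
theorem lf_alg {X : Set Qb} (hX : ∀ x ∈ X, ∀ y ∈ X, x + y ≠ 0) (hX0 : ∀ x ∈ X, x ≠ 0) (T : Finset (La X))
    (r : La X → AA Qb) (hr : ∀ p, ∀ x : Qb, x ≠ 0 → Kd x (r p))
    (h : ∀ x : Qb, x ≠ 0 → Kd x (∑ p ∈ T, r p * FdA p.1.2 (hX0 _ p.2.2) p.1.1)) : ∀ p ∈ T, r p = 0 := by
  classical
  by_contra hcon
  push Not at hcon
  obtain ⟨o₀, ho₀, hne₀⟩ := hcon
  obtain ⟨p, hp, hmax⟩ := Finset.exists_max_image (T.filter fun o => r o ≠ 0)
    (fun q => (toLex ((bw q.1.1).length, bw q.1.1) : ℕ ×ₗ List SignType))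
    ⟨o₀, Finset.mem_filter.2 ⟨ho₀, hne₀⟩⟩
  obtain ⟨hpT, hpne⟩ := Finset.mem_filter.1 hp
  have hx0 := hX0 _ p.2.2
  obtain ⟨c, O, hO, hK, hc, hc'⟩ := exists_ol hx0 p.2.1.pr
  obtain ⟨e, he, hself⟩ := (ol_Fd hO hc hc' p.2.1.ne_nil).2.2 rfl
  have h1 : O (∑ q ∈ T, r q * FdA q.1.2 (hX0 _ q.2.2) q.1.1) = r p * (e • HA p.1.2 hx0 []) := by
    rw [map_sum, Finset.sum_eq_single p]
    · rw [hK.lin _ (hr p _ hx0), hself]
    · intro q hq hqp
      rw [hK.lin _ (hr q _ hx0)]
      by_cases hrq : r q = 0
      · rw [hrq, zero_mul]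
      · have hrk := hmax q (Finset.mem_filter.2 ⟨hq, hrq⟩)
        by_cases hxy : p.1.2 = q.1.2
        · have h2 : FdA q.1.2 (hX0 _ q.2.2) q.1.1 = FdA p.1.2 (hX0 _ p.2.2) q.1.1 := by
            congr 1
            exact hxy.symm
          rw [h2]
          have h3 := ol_Fd hO hc hc' q.2.1.ne_nil
          rcases (Prod.Lex.le_iff (α := ℕ) (β := List SignType)).1 hrk with h4 | h4
          · rw [h3.1 h4, mul_zero]
          · rcases h4.2.lt_or_eq with h5 | h5
            · rw [h3.2.1 h4.1 h5, mul_zero]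
            · exact absurd (Subtype.ext (Prod.ext (bw_inj h5) hxy.symm)) hqp
        · rw [hK.kill, mul_zero]
          intro D hD1 hD2
          refine hD1 _ (FdA_NS _ hx0 hxy ?_ q.2.1.ne_nil)
          intro h
          exact hX _ p.2.2 _ q.2.2 (by rw [h]; ring)
    · intro h2; exact absurd hpT h2
  rw [hK.kill _ (h _ hx0)] at h1
  rcases mul_eq_zero.1 h1.symm with h2 | h2
  · exact hpne h2
  · rcases smul_eq_zero.1 h2 with h3 | h3
    · exact he h3
    · rw [HA_nil] at h3
      have h4 := congrArg (evA io) h3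
      rw [evA_mk, evk_ex_zero, U_nil, evk_one, map_zero, mul_one] at h4
      exact one_ne_zero h4

/-- values which are algebraic over the base field belong to elements killed by the derivations -/
theorem kd_of_alg {F : AA Qb} (h : IsAlgebraic (IntermediateField.adjoin ℚ GG) (evA io F)) :
    ∀ x : Qb, x ≠ 0 → Kd x F := by
  intro x hx D hD1 hD2
  by_contra hne
  let R' : Subalgebra ℚ ℂ := Algebra.adjoin ℚ GG
  let R : Subring (AA Qb) := R'.toSubring.comap (evA io)
  have hinj := evA_injective io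
  have hkill : ∀ b : R, D b.1 = 0 := by
    intro b
    obtain ⟨f, hf, hf'⟩ := exists_killed2 (z := evA io b.1) b.2
    rw [← hinj hf]
    exact hf' _ hx _ hD1 hD2
  have hAI : AlgebraicIndependent R (fun _ : Unit => F) :=
    ai_of_tri (k := Qb) (α := ℕ) Subtype.val_injective _ (fun _ => 0) (fun _ => D) (fun _ b => hkill b) (fun _ => hne)
      fun i j hij => absurd (Subsingleton.elim i j) hij
  let f : R →+* R' := ((evA io).comp R.subtype).codRestrict R'.toSubring (fun b => b.2)
  have hf : Function.Surjective f := by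
    rintro ⟨z, hz⟩
    obtain ⟨g, hg, -⟩ := exists_killed2 hz
    refine ⟨⟨g, ?_⟩, Subtype.ext hg⟩
    show evA io g ∈ R'
    rw [hg]; exact hz
  have h1 : AlgebraicIndependent R' (fun _ : Unit => evA io F) :=
    hAI.ringHom_of_comp_eq f (evA io) hf hinj (RingHom.ext fun b => rfl)
  have h2 : AlgebraicIndependent (IntermediateField.adjoin ℚ GG) (fun _ : Unit => evA io F) :=
    IntermediateField.algebraicIndependent_adjoin_iff.2 h1
  have h3 := (algebraicIndependent_unique_type_iff (ι := Unit)).1 h2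
  exact h3 h

open scoped IntermediateField.algebraAdjoinAdjoin in
/-- **linear forms with an algebraic value** -/
theorem lf_values {X : Set Qb} (hX : ∀ x ∈ X, ∀ y ∈ X, x + y ≠ 0) (hX0 : ∀ x ∈ X, x ≠ 0) (T : Finset (La X))
    (a : La X → IntermediateField.adjoin ℚ GG)
    (h : IsAlgebraic (IntermediateField.adjoin ℚ GG) (∑ p ∈ T, (a p : ℂ) * evA io (FdA p.1.2 (hX0 _ p.2.2) p.1.1))) :
    ∀ p ∈ T, a p = 0 := by
  classical
  obtain ⟨b, hb⟩ := IsLocalization.exist_integer_multiples (nonZeroDivisors (Algebra.adjoin ℚ GG)) T a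
  have hb0 : ((b : Algebra.adjoin ℚ GG) : ℂ) ≠ 0 := by
    intro h0
    exact nonZeroDivisors.ne_zero b.2 (Subtype.ext h0)
  choose g hg using fun p : T => hb p.1 p.2
  choose f hf hf' using fun p : T => exists_killed2 (z := (g p : ℂ)) (g p).2
  let r : La X → AA Qb := fun p => if hp : p ∈ T then f ⟨p, hp⟩ else 0
  have hgv : ∀ p : T, ((g p : Algebra.adjoin ℚ GG) : ℂ) = ((b : Algebra.adjoin ℚ GG) : ℂ) * (a p.1 : ℂ) := by
    intro p
    have h1 := congrArg (fun z : IntermediateField.adjoin ℚ GG => (z : ℂ)) (hg p)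
    have h2 : ((b : Algebra.adjoin ℚ GG) • a p.1 : IntermediateField.adjoin ℚ GG) =
      algebraMap (Algebra.adjoin ℚ GG) (IntermediateField.adjoin ℚ GG) b * a p.1 := Algebra.smul_def _ _
    simp only [h2] at h1
    exact h1
  have hr : ∀ p ∈ T, evA io (r p) = ((b : Algebra.adjoin ℚ GG) : ℂ) * (a p : ℂ) := by
    intro p hp
    show evA io (if hp : p ∈ T then f ⟨p, hp⟩ else 0) = _
    rw [dif_pos hp, hf, hgv]
  have hrk : ∀ p, ∀ x : Qb, x ≠ 0 → Kd x (r p) := by
    intro p x hx D hD1 hD2
    show D (if hp : p ∈ T then f ⟨p, hp⟩ else 0) = 0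
    by_cases hp : p ∈ T
    · rw [dif_pos hp]
      exact hf' _ x hx D hD1 hD2
    · rw [dif_neg hp, map_zero]
  have hsum : evA io (∑ p ∈ T, r p * FdA p.1.2 (hX0 _ p.2.2) p.1.1) =
      ((b : Algebra.adjoin ℚ GG) : ℂ) * ∑ p ∈ T, (a p : ℂ) * evA io (FdA p.1.2 (hX0 _ p.2.2) p.1.1) := by
    rw [map_sum, Finset.mul_sum]
    refine Finset.sum_congr rfl fun p hp => ?_
    rw [map_mul, hr p hp, mul_assoc]
  have halg : IsAlgebraic (IntermediateField.adjoin ℚ GG) (evA io (∑ p ∈ T, r p * FdA p.1.2 (hX0 _ p.2.2) p.1.1)) := by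
    rw [hsum]
    refine IsAlgebraic.mul ?_ h
    exact isAlgebraic_algebraMap (algebraMap (Algebra.adjoin ℚ GG) (IntermediateField.adjoin ℚ GG) b)
  have h0 := lf_alg hX hX0 T r hrk (kd_of_alg halg)
  intro p hp
  have h1 := hr p hp
  rw [h0 p hp, map_zero] at h1
  rcases mul_eq_zero.1 h1.symm with h2 | h2
  · exact absurd h2 hb0
  · exact Subtype.ext h2

end Pool.Agent.N778.MZ
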