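import Pool.Agent.N778.MZ.Lf

/-!
# Linear forms in the Poisson means: over the complex numbers
-/

set_option autoImplicit false
set_option linter.unusedSectionVars false

open PowerSeries Pool.Agent.N902.EW

namespace Pool.Agent.N778.MZ

lemma ap_shift {w : List ℕ} (h : AdW w) : Ap (w.map (· - 1)) := by
  rcases w with _ | ⟨k, w⟩
  · exact absurd h id
  · have h1 : 2 ≤ k := h.1
    obtain ⟨j, rfl⟩ : ∃ j, k = j + 2 := ⟨k - 2, by omega⟩
    exact trivial

lemma AdW.ge_one {w : List ℕ} (h : AdW w) : ∀ k ∈ w, 1 ≤ k := by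
  rcases w with _ | ⟨k, w⟩
  · exact absurd h id
  · intro l hl
    rcases List.mem_cons.1 hl with rfl | hl
    · have := h.1
      omega
    · exact h.2 l hl

/-- **linear forms in the Poisson means with an algebraic value** -/
theorem lf_S {X : Set ℂ} (hX : ∀ x ∈ X, IsAlgebraic ℚ x ∧ ∀ y ∈ X, x + y ≠ 0) (P : Finset (List ℕ × ℂ))
    (hP : ∀ p ∈ P, AdW p.1 ∧ p.2 ∈ X) (a : List ℕ × ℂ → KK)
    (h : IsAlgebraic KK (∑ p ∈ P, (a p : ℂ) * S p.1 p.2)) : ∀ p ∈ P, a p = 0 := by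
  classical
  have hne : ∀ x ∈ X, x ≠ 0 := by
    intro x hx h0
    exact (hX x hx).2 x hx (by rw [h0, add_zero])
  let X' : Set Qb := {x | io x ∈ X}
  have hX' : ∀ x ∈ X', ∀ y ∈ X', x + y ≠ 0 := by
    intro x hx y hy h
    refine (hX _ hx).2 _ hy ?_
    rw [← map_add, h, map_zero]
  have hX0 : ∀ x ∈ X', x ≠ 0 := fun x hx h => hne _ hx (by rw [h, map_zero])
  have hGG : IntermediateField.adjoin ℚ GG = KK := by
    rw [GG_eq]
    rfl
  choose f hf using fun p : P => mem_range_io (hX p.1.2 (hP p.1 p.2).2).1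
  let g : P → La X' := fun p => ⟨(p.1.1.map (· - 1), f p), ap_shift (hP p.1 p.2).1, by
    show io (f p) ∈ X
    rw [hf]; exact (hP p.1 p.2).2⟩
  have hg : Function.Injective g := by
    intro p q h
    have e1 : f p = f q := congrArg (fun z : La X' => z.1.2) h
    have e2 : p.1.1.map (· - 1) = q.1.1.map (· - 1) := congrArg (fun z : La X' => z.1.1) h
    apply Subtype.ext
    apply Prod.ext (map_inj1 (hP p.1 p.2).1.ge_one (hP q.1 q.2).1.ge_one e2)
    rw [← hf p, ← hf q, e1]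
  have hmem : ∀ z : KK, (z : ℂ) ∈ IntermediateField.adjoin ℚ GG := fun z => hGG.symm ▸ z.2
  let b : La X' → IntermediateField.adjoin ℚ GG := fun q =>
    if hq : ∃ p : P, g p = q then ⟨(a hq.choose.1 : ℂ), hmem _⟩ else 0
  have hb : ∀ p : P, (b (g p) : ℂ) = (a p.1 : ℂ) := by
    intro p
    have hq : ∃ p' : P, g p' = g p := ⟨p, rfl⟩
    have h1 : b (g p) = ⟨(a hq.choose.1 : ℂ), hmem _⟩ := dif_pos hq
    rw [h1]
    show (a hq.choose.1 : ℂ) = _
    rw [hg hq.choose_spec]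
  have hval : ∀ p : P, evA io (FdA (g p).1.2 (hX0 _ (g p).2.2) (g p).1.1) = S p.1.1 p.1.2 := by
    intro p
    show evA io (FdA (f p) (hX0 _ (g p).2.2) (p.1.1.map (· - 1))) = S p.1.1 p.1.2
    rw [Sn_eq (hP p.1 p.2).1.ge_one, FdA, evA_Fd (hX0 _ (g p).2.2), hf]
  have hsum : ∑ q ∈ (Finset.univ : Finset P).image g, (b q : ℂ) * evA io (FdA q.1.2 (hX0 _ q.2.2) q.1.1) =
      ∑ p ∈ P, (a p : ℂ) * S p.1 p.2 := by
    rw [Finset.sum_image fun p _ q _ h => hg h]
    rw [← Finset.sum_coe_sort P (fun p => (a p : ℂ) * S p.1 p.2)]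
    refine Finset.sum_congr rfl fun p _ => ?_
    rw [hb, hval]
  have halg : IsAlgebraic (IntermediateField.adjoin ℚ GG)
      (∑ q ∈ (Finset.univ : Finset P).image g, (b q : ℂ) * evA io (FdA q.1.2 (hX0 _ q.2.2) q.1.1)) := by
    rw [hsum, hGG]
    exact h
  have h1 := lf_values hX' hX0 _ b halg
  intro p hp
  have h2 := h1 (g ⟨p, hp⟩) (Finset.mem_image_of_mem g (Finset.mem_univ _))
  have h3 := hb ⟨p, hp⟩
  rw [h2, ZeroMemClass.coe_zero] at h3
  exact ZeroMemClass.coe_eq_zero.1 h3.symm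

end Pool.Agent.N778.MZ
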