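import Pool.Agent.N778.MZ.De

/-!
# Linear independence of the Poisson means of the truncated multiple zeta values
-/

set_option autoImplicit false
set_option linter.unusedSectionVars false

open PowerSeries Pool.Agent.N902.EW

namespace Pool.Agent.N778.MZ

/-! ### The values -/

lemma map_Hm {K L : Type*} [Field K] [CharZero K] [Field L] [CharZero L] (φ : K →+* L) (s : List ℕ) (n : ℕ) : φ (Hm K s n) = Hm L s n := by
  induction s generalizing n with
  | nil => rw [Hm_nil, Hm_nil, map_one]
  | cons m s ih =>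
    rw [Hm_cons, Hm_cons, map_sum]
    refine Finset.sum_congr rfl fun i _ => ?_
    rw [map_div₀, map_pow, map_add, map_natCast, map_one, ih]

/-- the Poisson mean of the truncated multiple sums -/
noncomputable def PM (s : List ℕ) (x : ℂ) : ℂ :=
  Complex.exp (-x) * ∑' j : ℕ, x ^ j / j.factorial * Hm ℂ s j

lemma PM_nil (x : ℂ) : PM [] x = 1 := by
  have h1 : ∑' j : ℕ, x ^ j / (j.factorial : ℂ) * Hm ℂ [] j = Complex.exp x := by
    rw [Complex.exp_eq_exp_ℂ, NormedSpace.exp_eq_tsum_div]
    exact tsum_congr fun j => by rw [Hm_nil, mul_one]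
  rw [PM, h1, ← Complex.exp_add, neg_add_cancel, Complex.exp_zero]

lemma Hc_mem_SA {x : Qb} (hx : x ≠ 0) (s : List ℕ) : Hc s x ∈ SA Qb := by
  rw [← ex_mul_Fc]
  refine SA_mul ?_ (Fc_mem hx s)
  exact Submodule.subset_span ⟨x, [], trivial, by rw [U_nil, mul_one]⟩

theorem evA_FA {x : Qb} (hx : x ≠ 0) (s : List ℕ) : evA io (FA x hx s) = PM s (io x) := by
  have h1 : (FA x hx s).1 = ex (-x) * Hc s x := rfl
  rw [evA_apply, h1, evk_mul (EFK.ex _) (EFK.of_mem (Hc_mem_SA hx s)), evk_ex, PM, map_neg]
  congr 1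
  rw [evk]
  refine tsum_congr fun n => ?_
  rw [Hc, coeff_mk, map_mul, map_div₀, map_pow, map_natCast, map_Hm]

/-! ### Linear independence over the elements killed by the derivations -/

/-- the index set: a nonempty composition and a point -/
abbrev Ix (X : Set Qb) : Type := {p : List ℕ × Qb // p.1 ≠ [] ∧ p.2 ∈ X}

section

variable {X : Set Qb}

/-- the composition of an index -/
def cp : Option (Ix X) → List ℕ
  | none => []
  | some p => p.1.1

/-- the elements -/
noncomputable def FO (hX0 : ∀ x ∈ X, x ≠ 0) : Option (Ix X) → AA Qb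
  | none => 1
  | some p => FA p.1.2 (hX0 _ p.2.2) p.1.1

theorem li_alg (hX : ∀ x ∈ X, ∀ y ∈ X, x + y ≠ 0) (hX0 : ∀ x ∈ X, x ≠ 0) (T : Finset (Option (Ix X)))
    (r : Option (Ix X) → AA Qb) (hr : ∀ o, ∀ x : Qb, x ≠ 0 → ∀ n, Dk x n (r o) = 0)
    (h : ∑ o ∈ T, r o * FO hX0 o = 0) : ∀ o ∈ T, r o = 0 := by
  classical
  by_contra hcon
  push Not at hcon
  obtain ⟨o₀, ho₀, hne₀⟩ := hcon
  obtain ⟨o, ho, hmax⟩ := Finset.exists_max_image (T.filter fun o => r o ≠ 0) (fun o => (cp o).length)
    ⟨o₀, Finset.mem_filter.2 ⟨ho₀, hne₀⟩⟩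
  obtain ⟨hoT, hone⟩ := Finset.mem_filter.1 ho
  have hmax' : ∀ q ∈ T, r q ≠ 0 → (cp q).length ≤ (cp o).length := fun q hq hq' =>
    hmax q (Finset.mem_filter.2 ⟨hq, hq'⟩)
  rcases o with _ | p
  · have h1 : ∑ o ∈ T, r o * FO hX0 o = r none := by
      rw [Finset.sum_eq_single none]
      · show r none * 1 = r none
        rw [mul_one]
      · intro q hq hqn
        rcases q with _ | q
        · exact absurd rfl hqn
        · by_cases h2 : r (some q) = 0
          · rw [h2, zero_mul]
          · have h3 := hmax' _ hq h2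
            have h4 : (cp (some q)).length ≤ 0 := h3
            have h5 : q.1.1 = [] := List.length_eq_zero_iff.1 (Nat.le_zero.1 h4)
            exact absurd h5 q.2.1
      · intro h2; exact absurd hoT h2
    exact hone (h1.symm.trans h)
  · obtain ⟨⟨t, x⟩, hp⟩ := p
    obtain ⟨ht, hx⟩ := hp
    rcases t with _ | ⟨m, t⟩
    · exact absurd rfl ht
    have hx0 : x ≠ 0 := hX0 x hx
    have h1 : Dt x (m :: t) (∑ o ∈ T, r o * FO hX0 o) = r (some ⟨((m :: t), x), ht, hx⟩) *
        (((-1) ^ (m :: t).sum : Qb) • mk 0 [] adm_nil) := by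
      rw [Dt_sum, Finset.sum_eq_single (some ⟨((m :: t), x), ht, hx⟩)]
      · rw [Dt_mul x _ (hr _ x hx0)]
        show _ * Dt x (m :: t) (FA x (hX0 x hx) (m :: t)) = _
        rw [Dt_FA _ adm_nil _ _ le_rfl, if_pos rfl]
      · intro q hq hqn
        rw [Dt_mul x _ (hr _ x hx0)]
        rcases q with _ | q
        · show _ * Dt x (m :: t) 1 = 0
          have h2 : Dk x m (1 : AA Qb) = 0 := Derivation.map_one_eq_zero _
          rw [Dt, h2, Dt_zero, mul_zero]
        · by_cases h2 : r (some q) = 0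
          · rw [h2, zero_mul]
          · have h3 : q.1.1.length ≤ (m :: t).length := hmax' _ hq h2
            obtain ⟨⟨s, y⟩, hs, hy⟩ := q
            show _ * Dt x (m :: t) (FA y (hX0 y hy) s) = 0
            by_cases hxy : x = y
            · subst hxy
              rw [Dt_FA _ adm_nil _ _ h3, if_neg, mul_zero]
              intro h4
              have h5 : s = m :: t := h4
              subst h5
              exact hqn rfl
            · rw [Dt_FA_other hx0 _ hxy (hX x hx y hy), mul_zero]
      · intro h2; exact absurd hoT h2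
    rw [h, Dt_zero] at h1
    rcases mul_eq_zero.1 h1.symm with h2 | h2
    · exact hone h2
    · rcases smul_eq_zero.1 h2 with h3 | h3
      · exact pow_ne_zero _ (by norm_num) h3
      · have h4 := congrArg (evA io) h3
        rw [evA_mk, evk_ex_zero, U_nil, evk_one, map_zero, mul_one] at h4
        exact one_ne_zero h4

open scoped IntermediateField.algebraAdjoinAdjoin in
/-- **the values are linearly independent over the base field** -/
theorem li_values (hX : ∀ x ∈ X, ∀ y ∈ X, x + y ≠ 0) (hX0 : ∀ x ∈ X, x ≠ 0) :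
    LinearIndependent (IntermediateField.adjoin ℚ GG) (fun o : Option (Ix X) => evA io (FO hX0 o)) := by
  classical
  rw [← LinearIndependent.iff_fractionRing (Algebra.adjoin ℚ GG) (IntermediateField.adjoin ℚ GG)]
  rw [linearIndependent_iff']
  intro T g hg o ho
  choose f hf hf' using fun o => exists_killed (z := (g o : ℂ)) (g o).2
  have h1 : evA io (∑ o ∈ T, f o * FO hX0 o) = 0 := by
    rw [map_sum, ← hg]
    refine Finset.sum_congr rfl fun q _ => ?_
    rw [map_mul, hf]
    rfl
  have h2 : ∑ o ∈ T, f o * FO hX0 o = 0 := evA_injective io (h1.trans (map_zero _).symm)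
  have h3 := li_alg hX hX0 T f (fun o x hx n => hf' o x hx n) h2 o ho
  apply Subtype.ext
  rw [← hf o, h3, map_zero]
  rfl

end

/-- the index set over the complex numbers -/
abbrev Jx (X : Set ℂ) : Type := {p : List ℕ × ℂ // p.1 ≠ [] ∧ p.2 ∈ X}

/-- **linear independence of the Poisson means and `1`** -/
theorem li_PM (X : Set ℂ) (hX : ∀ x ∈ X, IsAlgebraic ℚ x ∧ ∀ y ∈ X, x + y ≠ 0) :
    LinearIndependent KK (fun o : Option (Jx X) => o.elim 1 (fun p => PM p.1.1 p.1.2)) := by
  have hne : ∀ x ∈ X, x ≠ 0 := by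
    intro x hx h0
    exact (hX x hx).2 x hx (by rw [h0, add_zero])
  let X' : Set Qb := {x | io x ∈ X}
  have hX' : ∀ x ∈ X', ∀ y ∈ X', x + y ≠ 0 := by
    intro x hx y hy h
    refine (hX _ hx).2 _ hy ?_
    rw [← map_add, h, map_zero]
  have hX0 : ∀ x ∈ X', x ≠ 0 := fun x hx h => hne _ hx (by rw [h, map_zero])
  have h1 := li_values hX' hX0
  rw [GG_eq] at h1
  choose f hf using fun p : Jx X => mem_range_io (hX p.1.2 p.2.2).1
  let g : Jx X → Ix X' := fun p => ⟨(p.1.1, f p), p.2.1, by
    show io (f p) ∈ X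
    rw [hf]; exact p.2.2⟩
  have hg : Function.Injective g := by
    intro p q h
    have e1 : f p = f q := congrArg (fun z : Ix X' => z.1.2) h
    have e2 : p.1.1 = q.1.1 := congrArg (fun z : Ix X' => z.1.1) h
    apply Subtype.ext
    apply Prod.ext e2
    rw [← hf p, ← hf q, e1]
  have h2 : LinearIndependent KK ((fun o : Option (Ix X') => evA io (FO hX0 o)) ∘ Option.map g) :=
    h1.comp (Option.map g) (Option.map_injective hg)
  have h3 : ((fun o : Option (Ix X') => evA io (FO hX0 o)) ∘ Option.map g) =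
      fun o : Option (Jx X) => o.elim 1 (fun p => PM p.1.1 p.1.2) := by
    funext o
    rcases o with _ | p
    · exact map_one _
    · show evA io (FA (f p) (hX0 _ (g p).2.2) p.1.1) = PM p.1.1 p.1.2
      rw [evA_FA, hf]
  rwa [h3] at h2

end Pool.Agent.N778.MZ
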