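import Mathlib

/-!
# Lyndon words
-/

set_option autoImplicit false

namespace Pool.Agent.N778.MZ

section

variable {α : Type*} [LinearOrder α]

/-- Lyndon words: the letters, and `u v` for Lyndon words `u < v` (lexicographic order) -/
inductive Lyn : List α → Prop
  | single (a : α) : Lyn [a]
  | mul (u v : List α) : Lyn u → Lyn v → u < v → Lyn (u ++ v)

lemma Lyn.ne_nil {w : List α} (h : Lyn w) : w ≠ [] := by
  induction h with
  | single a => simp
  | mul u v _ _ _ hu _ => simp [hu]

lemma lt_app {u v : List α} (h : u < v) (hl : v.length ≤ u.length) (y z : List α) : u ++ y < v ++ z := by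
  induction u generalizing v with
  | nil =>
    rw [List.length_nil] at hl
    have := List.length_eq_zero_iff.1 (Nat.le_zero.1 hl)
    rw [this] at h
    exact absurd h (lt_irrefl _)
  | cons a u ih =>
    rcases v with _ | ⟨b, v⟩
    · exact absurd h (List.not_lt_nil _)
    · rw [List.cons_lt_cons_iff] at h
      rw [List.cons_append, List.cons_append, List.cons_lt_cons_iff]
      rcases h with h | ⟨h1, h2⟩
      · exact Or.inl h
      · exact Or.inr ⟨h1, ih h2 (by simpa using hl)⟩

lemma lt_or {u v : List α} (h : u < v) : (∃ v', v = u ++ v' ∧ v' ≠ []) ∨ ∀ y, u ++ y < v := by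
  induction u generalizing v with
  | nil =>
    left
    refine ⟨v, rfl, ?_⟩
    rintro rfl
    exact absurd h (lt_irrefl _)
  | cons a u ih =>
    rcases v with _ | ⟨b, v⟩
    · exact absurd h (List.not_lt_nil _)
    · rw [List.cons_lt_cons_iff] at h
      rcases h with h | ⟨rfl, h2⟩
      · right
        intro y
        rw [List.cons_append, List.cons_lt_cons_iff]
        exact Or.inl h
      · rcases ih h2 with ⟨v', rfl, hv'⟩ | h3
        · exact Or.inl ⟨v', rfl, hv'⟩
        · right
          intro y
          rw [List.cons_append, List.cons_lt_cons_iff]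
          exact Or.inr ⟨rfl, h3 y⟩

lemma app_lt_left (u : List α) {v w : List α} (h : v < w) : u ++ v < u ++ w := by
  induction u with
  | nil => exact h
  | cons a u ih =>
    rw [List.cons_append, List.cons_append, List.cons_lt_cons_iff]
    exact Or.inr ⟨rfl, ih⟩

lemma le_app {u a v b : List α} (hl : a.length = u.length) (h1 : u ≤ a) (h2 : v ≤ b) : u ++ v ≤ a ++ b := by
  rcases h1.lt_or_eq with h | rfl
  · exact (lt_app h hl.le v b).le
  · rcases h2.lt_or_eq with h | rfl
    · exact (app_lt_left u h).le
    · exact le_rfl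

/-- a Lyndon word is smaller than its proper suffixes -/
theorem Lyn.suffix {t : List α} (h : Lyn t) : ∀ p s : List α, t = p ++ s → p ≠ [] → s ≠ [] → t < s := by
  induction h with
  | single a =>
    intro p s h hp hs
    have h1 := congrArg List.length h
    rw [List.length_singleton, List.length_append] at h1
    have h2 := List.length_pos_of_ne_nil hp
    have h3 := List.length_pos_of_ne_nil hs
    omega
  | mul u v hu hv huv ihu ihv =>
    have key : u ++ v < v := by
      rcases lt_or huv with ⟨v', hv', hne⟩ | h
      · have h1 := ihv u v' hv' hu.ne_nil hne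
        have h2 := app_lt_left u h1
        rwa [← hv'] at h2
      · exact h v
    intro p s h hp hs
    rcases List.append_eq_append_iff.1 h with ⟨a', h1, h2⟩ | ⟨c', h1, h2⟩
    · by_cases ha : a' = []
      · rw [ha, List.nil_append] at h2
        rw [← h2]
        exact key
      · exact key.trans (ihv a' s h2 ha hs)
    · by_cases hc : c' = []
      · rw [hc, List.nil_append] at h2
        rw [h2]
        exact key
      · have h3 := ihu p c' h1 hp hc
        rw [h2]
        refine lt_app h3 ?_ _ _
        rw [h1, List.length_append]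
        omega

/-- exchange of the factors -/
theorem Lyn.swap {u v : List α} (hu : Lyn u) (hv : Lyn v) (huv : u < v) : u ++ v < v ++ u := by
  have h1 := (Lyn.mul u v hu hv huv).suffix u v rfl hu.ne_nil hv.ne_nil
  have h2 := lt_app h1 (by rw [List.length_append]; omega) [] u
  rwa [List.append_nil] at h2

end

/-- Lyndon words for the order of the letters which is defined by a function -/
inductive LynO (φ : ℕ → ℤ) : List ℕ → Prop
  | letter (a : ℕ) : LynO φ [a]
  | mul (u v : List ℕ) : LynO φ u → LynO φ v → u.map φ < v.map φ → LynO φ (u ++ v)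

lemma LynO.ne_nil {φ : ℕ → ℤ} {w : List ℕ} (h : LynO φ w) : w ≠ [] := by
  induction h with
  | letter a => simp
  | mul u v _ _ _ hu _ => simp [hu]

lemma LynO.lyn {φ : ℕ → ℤ} {w : List ℕ} (h : LynO φ w) : Lyn (w.map φ) := by
  induction h with
  | letter a => exact Lyn.single _
  | mul u v _ _ huv hu hv =>
    rw [List.map_append]
    exact Lyn.mul _ _ hu hv huv

lemma map_map_sub {φ : ℕ → ℤ} {w : List ℕ} (hw : ∀ k ∈ w, 2 ≤ k) : (w.map (· - 2)).map (fun m => φ (m + 2)) = w.map φ := by
  rw [List.map_map]
  refine List.map_congr_left fun k hk => ?_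
  show φ (k - 2 + 2) = φ k
  rw [Nat.sub_add_cancel (hw k hk)]

/-- the shift of the letters -/
lemma LynO.shift {φ : ℕ → ℤ} {w : List ℕ} (h : LynO φ w) (hw : ∀ k ∈ w, 2 ≤ k) :
    LynO (fun m => φ (m + 2)) (w.map (· - 2)) := by
  induction h with
  | letter a => exact LynO.letter _
  | mul u v hu hv huv ihu ihv =>
    have h1 : ∀ k ∈ u, 2 ≤ k := fun k hk => hw k (List.mem_append_left _ hk)
    have h2 : ∀ k ∈ v, 2 ≤ k := fun k hk => hw k (List.mem_append_right _ hk)
    rw [List.map_append]
    refine LynO.mul _ _ (ihu h1) (ihv h2) ?_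
    rw [map_map_sub h1, map_map_sub h2]
    exact huv

/-- the direction of reading -/
def dir (ρ : Bool) (w : List ℕ) : List ℕ := if ρ then w.reverse else w

lemma dir_length (ρ : Bool) (w : List ℕ) : (dir ρ w).length = w.length := by
  cases ρ
  · rfl
  · exact List.length_reverse

lemma dir_inj (ρ : Bool) {v w : List ℕ} (h : dir ρ v = dir ρ w) : v = w := by
  cases ρ
  · exact h
  · exact List.reverse_injective h

lemma dir_map (ρ : Bool) (f : ℕ → ℕ) (w : List ℕ) : dir ρ (w.map f) = (dir ρ w).map f := by
  cases ρ
  · rfl
  · exact (List.map_reverse).symm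

lemma mem_dir (ρ : Bool) {w : List ℕ} {k : ℕ} : k ∈ dir ρ w ↔ k ∈ w := by
  cases ρ
  · exact Iff.rfl
  · exact List.mem_reverse

end Pool.Agent.N778.MZ
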