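import Pool.Agent.N778.MZ.Li

/-!
# Multiple zeta values, truncated sums, tails
-/

set_option autoImplicit false
set_option linter.unusedSectionVars false

open Pool.Agent.N902.EW

namespace Pool.Agent.N778.MZ

/-- the truncated sums -/
noncomputable def H : List ℕ → ℕ → ℂ
  | [], _ => 1
  | k :: w, j => ∑ i ∈ Finset.range j, H w i / ((i : ℂ) + 1) ^ k

/-- the multiple zeta values -/
noncomputable def zt : List ℕ → ℂ
  | [] => 1
  | k :: w => ∑' i : ℕ, H w i / ((i : ℂ) + 1) ^ k

/-- the tails -/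
noncomputable def tl : List ℕ → ℕ → ℂ
  | [], _ => 0
  | k :: w, j => ∑' i : ℕ, H w (i + j) / ((i : ℂ) + j + 1) ^ k

/-- the Poisson means of the truncated sums -/
noncomputable def S (w : List ℕ) (x : ℂ) : ℂ := Complex.exp (-x) * ∑' j : ℕ, x ^ j / j.factorial * H w j

/-- the Poisson means of the tails -/
noncomputable def T (w : List ℕ) (x : ℂ) : ℂ := Complex.exp (-x) * ∑' j : ℕ, x ^ j / j.factorial * tl w j

/-- nonempty with entries at least `2` -/
def Word (w : List ℕ) : Prop := w ≠ [] ∧ ∀ k ∈ w, 2 ≤ k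

lemma H_eq {w : List ℕ} (hw : ∀ k ∈ w, 2 ≤ k) (j : ℕ) : H w j = Hm ℂ (w.map (· - 2)) j := by
  induction w generalizing j with
  | nil => rfl
  | cons k w ih =>
    rw [H, List.map_cons, Hm_cons]
    refine Finset.sum_congr rfl fun i _ => ?_
    have h1 : k - 2 + 2 = k := Nat.sub_add_cancel (hw k (by simp))
    rw [ih (fun l hl => hw l (List.mem_cons_of_mem _ hl)), h1]

lemma S_eq {w : List ℕ} (hw : ∀ k ∈ w, 2 ≤ k) (x : ℂ) : S w x = PM (w.map (· - 2)) x := by
  rw [S, PM]
  congr 1
  exact tsum_congr fun j => by rw [H_eq hw]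

lemma norm_succ (i : ℕ) : ‖(i : ℂ) + 1‖ = (i : ℝ) + 1 := by
  have : ((i : ℂ) + 1) = (((i : ℝ) + 1 : ℝ) : ℂ) := by push_cast; rfl
  rw [this, Complex.norm_real, Real.norm_eq_abs, abs_of_pos (by positivity)]

lemma summ_sq : Summable fun i : ℕ => 1 / ((i : ℝ) + 1) ^ 2 := by
  have h := (summable_nat_add_iff 1).2 (Real.summable_one_div_nat_pow.2 (show 1 < 2 by norm_num))
  refine h.congr fun n => ?_
  push_cast
  rfl

lemma norm_term_le {C : ℝ} (hC : 0 ≤ C) {h : ℂ} (hh : ‖h‖ ≤ C) (i : ℕ) {k : ℕ} (hk : 2 ≤ k) :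
    ‖h / ((i : ℂ) + 1) ^ k‖ ≤ C * (1 / ((i : ℝ) + 1) ^ 2) := by
  rw [norm_div, norm_pow, norm_succ, mul_one_div]
  have h1 : (1 : ℝ) ≤ (i : ℝ) + 1 := by
    have : (0 : ℝ) ≤ i := Nat.cast_nonneg i
    linarith
  exact div_le_div₀ hC hh (by positivity) (pow_le_pow_right₀ h1 hk)

lemma norm_H_le {w : List ℕ} (hw : ∀ k ∈ w, 2 ≤ k) : ∃ C : ℝ, 0 ≤ C ∧ ∀ j, ‖H w j‖ ≤ C := by
  induction w with
  | nil => exact ⟨1, zero_le_one, fun j => by rw [H, norm_one]⟩
  | cons k w ih =>
    obtain ⟨C, hC, h⟩ := ih fun l hl => hw l (List.mem_cons_of_mem _ hl)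
    refine ⟨C * ∑' i : ℕ, 1 / ((i : ℝ) + 1) ^ 2, mul_nonneg hC (tsum_nonneg fun i => by positivity), fun j => ?_⟩
    rw [H]
    refine (norm_sum_le _ _).trans ?_
    have h1 : ∀ i ∈ Finset.range j, ‖H w i / ((i : ℂ) + 1) ^ k‖ ≤ C * (1 / ((i : ℝ) + 1) ^ 2) := fun i _ =>
      norm_term_le hC (h i) i (hw k (by simp))
    refine (Finset.sum_le_sum h1).trans ?_
    rw [← Finset.mul_sum]
    exact mul_le_mul_of_nonneg_left (summ_sq.sum_le_tsum _ fun i _ => by positivity) hC

lemma summ_H {k : ℕ} {w : List ℕ} (hw : ∀ l ∈ k :: w, 2 ≤ l) : Summable fun i : ℕ => H w i / ((i : ℂ) + 1) ^ k := by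
  obtain ⟨C, hC, h⟩ := norm_H_le fun l hl => hw l (List.mem_cons_of_mem _ hl)
  exact Summable.of_norm_bounded (summ_sq.mul_left C) fun i => norm_term_le hC (h i) i (hw k (by simp))

/-- a truncated sum and the tail -/
lemma H_add_tl {w : List ℕ} (hw : Word w) (j : ℕ) : H w j + tl w j = zt w := by
  rcases w with _ | ⟨k, w⟩
  · exact absurd rfl hw.1
  · rw [H, tl, zt, ← (summ_H hw.2).sum_add_tsum_nat_add j]
    congr 1
    exact tsum_congr fun i => by push_cast; rfl

lemma summ_exp {a : ℕ → ℂ} {C : ℝ} (h : ∀ j, ‖a j‖ ≤ C) (x : ℂ) : Summable fun j : ℕ => x ^ j / (j.factorial : ℂ) * a j := by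
  have hexp : Summable fun j : ℕ => ‖x ^ j / (j.factorial : ℂ)‖ := NormedSpace.norm_expSeries_div_summable x
  refine Summable.of_norm_bounded (hexp.mul_right C) fun j => ?_
  rw [norm_mul]
  exact mul_le_mul_of_nonneg_left (h j) (norm_nonneg _)

/-- `ζ(w) = S_w(x) + T_w(x)` -/
theorem S_add_T {w : List ℕ} (hw : Word w) (x : ℂ) : S w x + T w x = zt w := by
  obtain ⟨C, hC, h⟩ := norm_H_le hw.2
  have h1 := summ_exp h x
  have ht : ∀ j, tl w j = zt w - H w j := fun j => by rw [← H_add_tl hw j]; ring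
  have h2 : Summable fun j : ℕ => x ^ j / (j.factorial : ℂ) * tl w j := by
    refine summ_exp (C := ‖zt w‖ + C) (fun j => ?_) x
    rw [ht]
    exact (norm_sub_le _ _).trans (by have := h j; linarith)
  have h3 : ∑' j : ℕ, x ^ j / (j.factorial : ℂ) * zt w = Complex.exp x * zt w := by
    rw [tsum_mul_right, Complex.exp_eq_exp_ℂ, NormedSpace.exp_eq_tsum_div]
  rw [S, T, ← mul_add, ← h1.tsum_add h2]
  have h4 : ∑' j : ℕ, (x ^ j / (j.factorial : ℂ) * H w j + x ^ j / (j.factorial : ℂ) * tl w j) =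
      ∑' j : ℕ, x ^ j / (j.factorial : ℂ) * zt w := tsum_congr fun j => by rw [ht]; ring
  rw [h4, h3, ← mul_assoc, ← Complex.exp_add, neg_add_cancel, Complex.exp_zero, one_mul]

lemma S_zero {w : List ℕ} (hw : Word w) : S w 0 = 0 := by
  rw [S, tsum_eq_single 0]
  · rcases w with _ | ⟨k, w⟩
    · exact absurd rfl hw.1
    · simp [H]
  · intro j hj
    rw [zero_pow hj]
    simp

lemma T_zero {w : List ℕ} (hw : Word w) : T w 0 = zt w := by
  have h := S_add_T hw 0
  rwa [S_zero hw, zero_add] at h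

lemma T_eq {w : List ℕ} (hw : Word w) (x : ℂ) : T w x = zt w - S w x := by
  rw [← S_add_T hw x]; ring

lemma map_inj {v w : List ℕ} (hv : ∀ k ∈ v, 2 ≤ k) (hw : ∀ k ∈ w, 2 ≤ k) (h : v.map (· - 2) = w.map (· - 2)) : v = w := by
  induction v generalizing w with
  | nil => exact (List.map_eq_nil_iff.1 h.symm).symm
  | cons k v ih =>
    rcases w with _ | ⟨l, w⟩
    · exact absurd h (by simp)
    · rw [List.map_cons, List.map_cons] at h
      obtain ⟨h1, h2⟩ := List.cons.inj h
      have h3 := hv k (by simp)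
      have h4 := hw l (by simp)
      rw [ih (fun a ha => hv a (List.mem_cons_of_mem _ ha)) (fun a ha => hw a (List.mem_cons_of_mem _ ha)) h2]
      congr 1
      omega

/-- **linear independence of the Poisson means and `1`** -/
theorem li_S (X : Set ℂ) (hX : ∀ x ∈ X, IsAlgebraic ℚ x ∧ ∀ y ∈ X, x + y ≠ 0) :
    LinearIndependent KK (fun o : Option {p : List ℕ × ℂ // Word p.1 ∧ p.2 ∈ X} =>
      o.elim 1 (fun p => S p.1.1 p.1.2)) := by
  let g : {p : List ℕ × ℂ // Word p.1 ∧ p.2 ∈ X} → Jx X := fun p => ⟨(p.1.1.map (· - 2), p.1.2), by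
    rw [Ne, List.map_eq_nil_iff]; exact p.2.1.1, p.2.2⟩
  have hg : Function.Injective g := by
    intro p q h
    have e1 : p.1.1.map (· - 2) = q.1.1.map (· - 2) := congrArg (fun z : Jx X => z.1.1) h
    have e2 : p.1.2 = q.1.2 := congrArg (fun z : Jx X => z.1.2) h
    exact Subtype.ext (Prod.ext (map_inj p.2.1.2 q.2.1.2 e1) e2)
  have h2 := (li_PM X hX).comp (Option.map g) (Option.map_injective hg)
  have h3 : ((fun o : Option (Jx X) => o.elim 1 (fun p => PM p.1.1 p.1.2)) ∘ Option.map g) =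
      fun o : Option {p : List ℕ × ℂ // Word p.1 ∧ p.2 ∈ X} => o.elim 1 (fun p => S p.1.1 p.1.2) := by
    funext o
    rcases o with _ | p
    · rfl
    · show PM (p.1.1.map (· - 2)) p.1.2 = S p.1.1 p.1.2
      rw [S_eq p.2.1.2]
  rwa [h3] at h2

/-! ### The count of the exceptional points -/

section

variable {F : Type*} [Field F] [Algebra F ℂ] {ι : Type*}

/-- the linear independence of the combinations -/
theorem li_comb (W : Finset ι) (f : ι → ℂ → ℂ) (t : Finset ℂ)
    (h : LinearIndependent F (fun o : Option (W × t) => o.elim 1 (fun p => f p.1 p.2))) (c : t → W → F)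
    (hc : ∀ x, ∃ w, c x w ≠ 0) :
    LinearIndependent F (fun o : Option t => o.elim 1 (fun x => ∑ w : W, c x w • f w x)) := by
  rw [Fintype.linearIndependent_iff] at h ⊢
  intro g hg
  have h1 := h (fun o => o.elim (g none) (fun p => g (some p.2) * c p.2 p.1)) (by
    rw [← hg, Fintype.sum_option, Fintype.sum_option]
    congr 1
    rw [Fintype.sum_prod_type]
    rw [Finset.sum_comm]
    refine Finset.sum_congr rfl fun x _ => ?_
    show ∑ w : W, (g (some x) * c x w) • f w x = g (some x) • ∑ w : W, c x w • f w x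
    rw [Finset.smul_sum]
    exact Finset.sum_congr rfl fun w _ => by rw [mul_smul])
  intro o
  rcases o with _ | x
  · exact h1 none
  · obtain ⟨w, hw⟩ := hc x
    have h2 : g (some x) * c x w = 0 := h1 (some (w, x))
    exact (mul_eq_zero.1 h2).resolve_right hw

/-- the count -/
theorem lin_count_dim (W : Finset ι) (f : ι → ℂ → ℂ) (z : ι → ℂ) (t : Finset ℂ)
    (h : LinearIndependent F (fun o : Option (W × t) => o.elim 1 (fun p => f p.1 p.2)))
    (ht : ∀ x ∈ t, ¬ LinearIndependent F (fun o : Option W => o.elim 1 (fun w => z w - f w x))) :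
    t.card + 1 ≤ Module.finrank F (Submodule.span F (Set.range fun o : Option W => (o.elim 1 (fun w => z w) : ℂ))) := by
  classical
  have h1 : ∀ x : t, ∃ g : Option W → F, ∑ o, g o • (o.elim 1 (fun w => z w - f w x) : ℂ) = 0 ∧ ∃ o, g o ≠ 0 := by
    intro x
    have h2 := ht x x.2
    rw [Fintype.linearIndependent_iff] at h2
    push Not at h2
    exact h2
  choose g hg hg' using h1
  have hc : ∀ x, ∃ w, g x (some w) ≠ 0 := by
    intro x
    by_contra hcon
    push Not at hcon
    obtain ⟨o, ho⟩ := hg' x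
    rcases o with _ | w
    · have h2 := hg x
      rw [Fintype.sum_option] at h2
      have h3 : ∑ w : W, g x (some w) • ((some w).elim 1 (fun w : W => z w - f w x) : ℂ) = 0 :=
        Finset.sum_eq_zero fun w _ => by rw [hcon w, zero_smul]
      rw [h3, add_zero] at h2
      rcases smul_eq_zero.1 h2 with h4 | h4
      · exact ho h4
      · exact one_ne_zero h4
    · exact ho (hcon w)
  have hLI := li_comb W f t h (fun x w => g x (some w)) hc
  let u : Option W → ℂ := fun o => o.elim 1 (fun w => z w)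
  let V : Submodule F ℂ := Submodule.span F (Set.range u)
  have hu : ∀ o, u o ∈ V := fun o => Submodule.subset_span ⟨o, rfl⟩
  have hmem : ∀ o : Option t, (o.elim 1 (fun x => ∑ w : W, g x (some w) • f w x) : ℂ) ∈ V := by
    intro o
    rcases o with _ | x
    · exact hu none
    · show ∑ w : W, g x (some w) • f w x ∈ V
      have h2 := hg x
      rw [Fintype.sum_option] at h2
      have h3 : ∑ w : W, g x (some w) • ((some w).elim 1 (fun w : W => z w - f w x) : ℂ) =
          ∑ w : W, g x (some w) • z w - ∑ w : W, g x (some w) • f w x := by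
        rw [← Finset.sum_sub_distrib]
        exact Finset.sum_congr rfl fun w _ => smul_sub _ _ _
      rw [h3] at h2
      have h4 : ∑ w : W, g x (some w) • f w x = g x none • (1 : ℂ) + ∑ w : W, g x (some w) • z w := by
        have h5 : g x none • (1 : ℂ) + (∑ w : W, g x (some w) • z w - ∑ w : W, g x (some w) • f w x) = 0 := h2
        linear_combination -h5
      rw [h4]
      exact V.add_mem (V.smul_mem _ (hu none)) (V.sum_mem fun w _ => V.smul_mem _ (hu (some w)))
  have hfin : Module.Finite F V := Module.Finite.span_of_finite F (Set.finite_range u)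
  have hLI' : LinearIndependent F (fun o : Option t =>
      (⟨o.elim 1 (fun x => ∑ w : W, g x (some w) • f w x), hmem o⟩ : V)) :=
    LinearIndependent.of_comp V.subtype hLI
  have h5 := hLI'.fintype_card_le_finrank
  rw [Fintype.card_option, Fintype.card_coe] at h5
  exact h5

theorem lin_count (W : Finset ι) (f : ι → ℂ → ℂ) (z : ι → ℂ) (t : Finset ℂ)
    (h : LinearIndependent F (fun o : Option (W × t) => o.elim 1 (fun p => f p.1 p.2)))
    (ht : ∀ x ∈ t, ¬ LinearIndependent F (fun o : Option W => o.elim 1 (fun w => z w - f w x))) :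
    t.card ≤ W.card ∧ (¬ LinearIndependent F (fun o : Option W => o.elim 1 (fun w => z w)) → t.card + 1 ≤ W.card) := by
  classical
  have h5 := lin_count_dim W f z t h ht
  set u : Option W → ℂ := fun o : Option W => (o.elim 1 (fun w => z w) : ℂ) with hu
  have h6 : Module.finrank F (Submodule.span F (Set.range u)) ≤ Fintype.card (Option W) := finrank_range_le_card u
  rw [Fintype.card_option, Fintype.card_coe] at h6
  refine ⟨by omega, fun hdep => ?_⟩
  have h7 : Module.finrank F (Submodule.span F (Set.range u)) ≠ Fintype.card (Option W) := by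
    intro h8
    exact hdep (linearIndependent_iff_card_eq_finrank_span.2 h8.symm)
  rw [Fintype.card_option, Fintype.card_coe] at h7
  omega

end

end Pool.Agent.N778.MZ
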