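import Pool.Agent.N778.MZ.Mz
import Pool.Agent.N778.MZ.Ly

/-!
# Algebraic independence of the Poisson means for Lyndon words
-/

set_option autoImplicit false
set_option linter.unusedSectionVars false

open PowerSeries Pool.Agent.N902.EW

namespace Pool.Agent.N778.MZ

section

variable {K : Type*} [Field K] [CharZero K]

/-- the operators -/
structure Op (x : K) (hx : x ≠ 0) (n : ℕ) (c : List ℕ → K) (D : Derivation K (AA K) (AA K)) : Prop where
  kill : ∀ f : AA K, (∀ m, Dk x m f = 0) → D f = 0
  fil : ∀ (d : ℕ) (f : AA K), f ∈ VA x d → D f ∈ VA x (d - 2 * n)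
  act : ∀ (s : List ℕ), n ≤ s.length →
    D (mk 0 (WW x s) (adm_WW hx s)) = c (s.take n) • mk 0 (WW x (s.drop n)) (adm_WW hx (s.drop n))

open Classical in
lemma op_single {x : K} (hx : x ≠ 0) (m : ℕ) :
    Op x hx 1 (fun a => if a = [m] then ((-1) ^ m : K) else 0) (Dk x m) where
  kill f hf := hf m
  fil d f hf := by
    have := Dk_VA hx m hf
    simpa using this
  act s hs := by
    rcases s with _ | ⟨k, s⟩
    · simp at hs
    · have h1 := Dk_WW_cons hx m k s 0 (adm_WW hx (k :: s)) (adm_WW hx s)
      rw [h1]
      show _ = (if (k :: s).take 1 = [m] then ((-1) ^ m : K) else 0) • mk 0 (WW x ((k :: s).drop 1)) _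
      have h2 : (k :: s).take 1 = [k] := rfl
      have h3 : ([k] = [m]) ↔ k = m := by simp
      rw [h2]
      by_cases hk : k = m
      · rw [if_pos hk, if_pos (h3.2 hk)]
        rfl
      · rw [if_neg hk, if_neg (fun h => hk (h3.1 h)), zero_smul]

lemma op_bracket {x : K} {hx : x ≠ 0} {n n' : ℕ} {c c' : List ℕ → K} {D D' : Derivation K (AA K) (AA K)}
    (h : Op x hx n c D) (h' : Op x hx n' c' D') :
    Op x hx (n + n') (fun a => c (a.take n) * c' (a.drop n) - c' (a.take n') * c (a.drop n')) ⁅D', D⁆ where
  kill f hf := by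
    rw [Derivation.commutator_apply, h.kill f hf, h'.kill f hf, map_zero, map_zero, sub_zero]
  fil d f hf := by
    rw [Derivation.commutator_apply]
    refine Submodule.sub_mem _ ?_ ?_
    · have h1 := h'.fil _ _ (h.fil _ _ hf)
      rwa [Nat.sub_sub, ← Nat.mul_add] at h1
    · have h1 := h.fil _ _ (h'.fil _ _ hf)
      rwa [Nat.sub_sub, ← Nat.mul_add, Nat.add_comm n' n] at h1
  act s hs := by
    have e1 : (s.take (n + n')).take n = s.take n := by
      rw [List.take_take]; congr 1; omega
    have e2 : (s.take (n + n')).drop n = (s.drop n).take n' := by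
      rw [List.drop_take]; congr 1; omega
    have e3 : (s.take (n + n')).take n' = s.take n' := by
      rw [List.take_take]; congr 1; omega
    have e4 : (s.take (n + n')).drop n' = (s.drop n').take n := by
      rw [List.drop_take]; congr 1; omega
    have e5 : (s.drop n).drop n' = s.drop (n + n') := by rw [List.drop_drop]
    have e6 : (s.drop n').drop n = s.drop (n + n') := by rw [List.drop_drop, Nat.add_comm]
    have a1 := h.act s (by omega)
    have a2 := h'.act (s.drop n) (by rw [List.length_drop]; omega)
    have a3 := h'.act s (by omega)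
    have a4 := h.act (s.drop n') (by rw [List.length_drop]; omega)
    have g1 : (mk 0 (WW x ((s.drop n).drop n')) (adm_WW hx ((s.drop n).drop n')) : AA K) =
        mk 0 (WW x (s.drop (n + n'))) (adm_WW hx (s.drop (n + n'))) := by
      congr 1; rw [e5]
    have g2 : (mk 0 (WW x ((s.drop n').drop n)) (adm_WW hx ((s.drop n').drop n)) : AA K) =
        mk 0 (WW x (s.drop (n + n'))) (adm_WW hx (s.drop (n + n'))) := by
      congr 1; rw [e6]
    rw [Derivation.commutator_apply, a1, a3, Derivation.map_smul, Derivation.map_smul, a2, a4, g1, g2, smul_smul,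
      smul_smul, ← sub_smul]
    show _ = (c ((s.take (n + n')).take n) * c' ((s.take (n + n')).drop n) -
      c' ((s.take (n + n')).take n') * c ((s.take (n + n')).drop n')) • _
    rw [e1, e2, e3, e4]

/-- the operators of the Lyndon words -/
theorem exists_op {φ : ℕ → ℤ} {x : K} (hx : x ≠ 0) {t : List ℕ} (ht : LynO φ t) :
    ∃ (c : List ℕ → K) (D : Derivation K (AA K) (AA K)), Op x hx t.length c D ∧ c t ≠ 0 ∧
      (∀ a : List ℕ, a.length = t.length → c a ≠ 0 → t.map φ ≤ a.map φ) ∧
      ∀ a : List ℕ, a.length = t.length → c a.reverse = (-1) ^ (t.length + 1) * c a := by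
  classical
  induction ht with
  | letter m =>
    refine ⟨_, Dk x m, op_single hx m, ?_, ?_, ?_⟩
    · show (if [m] = [m] then ((-1) ^ m : K) else 0) ≠ 0
      rw [if_pos rfl]
      exact pow_ne_zero _ (by norm_num)
    · intro a _ ha
      by_contra hcon
      apply ha
      show (if a = [m] then ((-1) ^ m : K) else 0) = 0
      rw [if_neg]
      rintro rfl
      exact hcon le_rfl
    · intro a ha
      obtain ⟨b, rfl⟩ := List.length_eq_one_iff.1 ha
      have h1 : ([b] : List ℕ).reverse = [b] := rfl
      have h2 : ((-1 : K)) ^ ([m].length + 1) = 1 := by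
        rw [List.length_singleton]; norm_num
      rw [h1, h2, one_mul]
  | mul u v hu hv huv ihu ihv =>
    obtain ⟨c, D, hD, hc, hc', hcr⟩ := ihu
    obtain ⟨c', D', hD', hd, hd', hdr⟩ := ihv
    have hop := op_bracket hD hD'
    have hswap := hu.lyn.swap hv.lyn huv
    rw [← List.map_append, ← List.map_append] at hswap
    rw [← List.length_append] at hop
    refine ⟨_, _, hop, ?_, ?_, ?_⟩
    · show c ((u ++ v).take u.length) * c' ((u ++ v).drop u.length) -
        c' ((u ++ v).take v.length) * c ((u ++ v).drop v.length) ≠ 0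
      rw [List.take_left, List.drop_left]
      have h0 : c' ((u ++ v).take v.length) * c ((u ++ v).drop v.length) = 0 := by
        by_contra hne
        have h1 := hd' _ (by rw [List.length_take, List.length_append]; omega) (left_ne_zero_of_mul hne)
        have h2 := hc' _ (by rw [List.length_drop, List.length_append]; omega) (right_ne_zero_of_mul hne)
        have h3 := le_app (by rw [List.length_map, List.length_map, List.length_take, List.length_append]; omega) h1 h2
        rw [← List.map_append, ← List.map_append, List.take_append_drop] at h3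
        exact absurd hswap (not_lt.2 h3)
      rw [h0, sub_zero]
      exact mul_ne_zero hc hd
    · intro a ha hne
      rw [List.length_append] at ha
      by_cases h1 : c (a.take u.length) * c' (a.drop u.length) = 0
      · have h2 : c' (a.take v.length) * c (a.drop v.length) ≠ 0 := by
          intro h2
          apply hne
          show c (a.take u.length) * c' (a.drop u.length) - c' (a.take v.length) * c (a.drop v.length) = 0
          rw [h1, h2, sub_zero]
        have h3 := hd' _ (by rw [List.length_take]; omega) (left_ne_zero_of_mul h2)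
        have h4 := hc' _ (by rw [List.length_drop]; omega) (right_ne_zero_of_mul h2)
        have h5 := le_app (by rw [List.length_map, List.length_map, List.length_take]; omega) h3 h4
        rw [← List.map_append, ← List.map_append, List.take_append_drop] at h5
        exact hswap.le.trans h5
      · have h3 := hc' _ (by rw [List.length_take]; omega) (left_ne_zero_of_mul h1)
        have h4 := hd' _ (by rw [List.length_drop]; omega) (right_ne_zero_of_mul h1)
        have h5 := le_app (by rw [List.length_map, List.length_map, List.length_take]; omega) h3 h4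
        rwa [← List.map_append, ← List.map_append, List.take_append_drop] at h5
    · intro a ha
      rw [List.length_append] at ha
      have e1 : a.reverse.take u.length = (a.drop v.length).reverse := by
        rw [List.take_reverse]; congr 2; omega
      have e2 : a.reverse.drop u.length = (a.take v.length).reverse := by
        rw [List.drop_reverse]; congr 2; omega
      have e3 : a.reverse.take v.length = (a.drop u.length).reverse := by
        rw [List.take_reverse]; congr 2; omega
      have e4 : a.reverse.drop v.length = (a.take u.length).reverse := by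
        rw [List.drop_reverse]; congr 2; omega
      show c (a.reverse.take u.length) * c' (a.reverse.drop u.length) -
        c' (a.reverse.take v.length) * c (a.reverse.drop v.length) = (-1) ^ ((u ++ v).length + 1) *
          (c (a.take u.length) * c' (a.drop u.length) - c' (a.take v.length) * c (a.drop v.length))
      rw [e1, e2, e3, e4, hcr _ (by rw [List.length_drop]; omega), hdr _ (by rw [List.length_take]; omega),
        hdr _ (by rw [List.length_drop]; omega), hcr _ (by rw [List.length_take]; omega), List.length_append]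
      ring

/-- the operators for both directions -/
theorem exists_op' {φ : ℕ → ℤ} {x : K} (hx : x ≠ 0) (ρ : Bool) {w : List ℕ} (hw : LynO φ (dir ρ w)) :
    ∃ (c : List ℕ → K) (D : Derivation K (AA K) (AA K)), Op x hx w.length c D ∧ c w ≠ 0 ∧
      ∀ a : List ℕ, a.length = w.length → c a ≠ 0 → (dir ρ w).map φ ≤ (dir ρ a).map φ := by
  obtain ⟨c, D, h1, h2, h3, h4⟩ := exists_op hx hw
  cases ρ
  · exact ⟨c, D, h1, h2, h3⟩
  · have hl : (dir true w).length = w.length := dir_length true w
    have hne : ((-1 : K)) ^ ((dir true w).length + 1) ≠ 0 := pow_ne_zero _ (by norm_num)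
    have e : ∀ a : List ℕ, dir true a = a.reverse := fun a => rfl
    rw [hl] at h1
    refine ⟨c, D, h1, ?_, fun a ha hca => ?_⟩
    · have h5 := h4 (dir true w) rfl
      rw [e, List.reverse_reverse] at h5
      rw [h5]
      exact mul_ne_zero (by rw [← e]; exact hne) (by rw [← e]; exact h2)
    · refine h3 _ (by rw [dir_length, dir_length]; exact ha) ?_
      rw [e, h4 a (ha.trans hl.symm)]
      exact mul_ne_zero hne hca

/-- the operators on the elements -/
lemma op_on {x : K} {hx : x ≠ 0} {n : ℕ} {c : List ℕ → K} {D : Derivation K (AA K) (AA K)} (h : Op x hx n c D)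
    (h0 : Adm ([] : List K)) {s : List ℕ} (hs : s.length ≤ n) :
    D (FA x hx s) = if s.length = n then c s • mk 0 [] h0 else 0 := by
  rcases hs.lt_or_eq with h1 | h1
  · rw [if_neg h1.ne]
    have h2 := h.fil _ _ (FA_mem hx s)
    have h3 : 2 * s.length + 1 - 2 * n = 0 := by omega
    rw [h3] at h2
    exact VA_zero h2
  · rw [if_pos h1]
    have h2 : FA x hx s = (FA x hx s - mk 0 (WW x s) (adm_WW hx s)) + mk 0 (WW x s) (adm_WW hx s) := by ring
    have h3 := h.fil _ _ (FA_sub_mem hx s)
    have h4 : 2 * s.length - 2 * n = 0 := by omega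
    rw [h4] at h3
    have h5 := h.act s h1.ge
    have e1 : s.take n = s := List.take_of_length_le h1.le
    have e2 : s.drop n = [] := List.drop_of_length_le h1.le
    rw [h2, map_add, VA_zero h3, zero_add, h5, e1]
    congr 2
    rw [e2]
    rfl

end

/-! ### The triangular criterion -/

section

variable {k R A ι : Type*} [CommRing R] [CommRing A] [IsDomain A] [CharZero A] [Algebra R A] [CommRing k] [Algebra k A]

theorem ai_of_tri {α : Type*} [LinearOrder α] (hinj : Function.Injective (algebraMap R A)) (y : ι → A) (rk : ι → α)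
    (D : ι → Derivation k A A) (hB : ∀ i b, D i (algebraMap R A b) = 0) (hy : ∀ i, D i (y i) ≠ 0)
    (hy' : ∀ i j, i ≠ j → rk j ≤ rk i → D i (y j) = 0) : AlgebraicIndependent R y := by
  classical
  refine algebraicIndependent_of_finite_type fun T hT => ?_
  obtain ⟨T, rfl⟩ := hT.exists_finset_coe
  have key : ∀ S : Finset ι, AlgebraicIndepOn R y (S : Set ι) := by
    intro S
    refine Finset.induction_on_max_value rk S ?_ ?_
    · rw [Finset.coe_empty]
      exact (algebraicIndependent_empty_type_iff).2 hinj
    · intro i S hi hmax ih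
      rw [Finset.coe_insert]
      refine ih.insert ?_
      let B : Subalgebra R A := Algebra.adjoin R (y '' (S : Set ι))
      have hk : ∀ b ∈ B, D i b = 0 := by
        intro b hb
        induction hb using Algebra.adjoin_induction with
        | mem z hz =>
          obtain ⟨j, hj, rfl⟩ := hz
          exact hy' i j (fun h => hi (h ▸ hj)) (hmax j hj)
        | algebraMap r => exact hB i r
        | add a b _ _ ha hb => rw [map_add, ha, hb, add_zero]
        | mul a b _ _ ha hb => rw [Derivation.leibniz, ha, hb, smul_zero, smul_zero, add_zero]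
      have h1 : AlgebraicIndependent B (fun _ : Unit => y i) :=
        ai_of_der (k := k) Subtype.val_injective _ (fun _ => D i) (fun _ b => hk b.1 b.2) (fun _ => D i (y i))
          (fun _ => hy i) (fun _ => rfl) (fun a b hab => absurd (Subsingleton.elim a b) hab)
      exact (algebraicIndependent_unique_type_iff).1 h1
  exact key T

end

/-- the index set: Lyndon words and points -/
abbrev Lx (φ : ℕ → ℤ) (ρ : Bool) (X : Set Qb) : Type := {p : List ℕ × Qb // LynO φ (dir ρ p.1) ∧ p.2 ∈ X}

/-- **algebraic independence of the Poisson means for Lyndon words** -/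
theorem ai_lyn {φ : ℕ → ℤ} (hφ : Function.Injective φ) (ρ : Bool) {X : Set Qb} (hX : ∀ x ∈ X, ∀ y ∈ X, x + y ≠ 0)
    (hX0 : ∀ x ∈ X, x ≠ 0) :
    AlgebraicIndependent (IntermediateField.adjoin ℚ GG)
      (fun p : Lx φ ρ X => evA io (FA p.1.2 (hX0 _ p.2.2) p.1.1)) := by
  classical
  rw [IntermediateField.algebraicIndependent_adjoin_iff]
  let R' : Subalgebra ℚ ℂ := Algebra.adjoin ℚ GG
  let R : Subring (AA Qb) := R'.toSubring.comap (evA io)
  have hinj := evA_injective io
  have hkill : ∀ (b : R) (x : Qb), x ≠ 0 → ∀ n, Dk x n b.1 = 0 := by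
    intro b x hx n
    obtain ⟨f, hf, hf'⟩ := exists_killed (z := evA io b.1) b.2
    rw [← hinj hf]
    exact hf' x hx n
  choose c D hop hc hc' using fun p : Lx φ ρ X => exists_op' (hX0 _ p.2.2) ρ p.2.1
  have hone : ∀ (r : Qb), r ≠ 0 → (r • mk 0 [] adm_nil : AA Qb) ≠ 0 := by
    intro r hr h
    rcases smul_eq_zero.1 h with h2 | h2
    · exact hr h2
    · have h3 := congrArg (evA io) h2
      rw [evA_mk, evk_ex_zero, U_nil, evk_one, map_zero, mul_one] at h3
      exact one_ne_zero h3
  have hAI : AlgebraicIndependent R (fun p : Lx φ ρ X => FA p.1.2 (hX0 _ p.2.2) p.1.1) := by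
    refine ai_of_tri (k := Qb) (α := ℕ ×ₗ List ℤ) Subtype.val_injective _
      (fun p => toLex (p.1.1.length, (dir ρ p.1.1).map φ)) D
      (fun p b => (hop p).kill _ (hkill b _ (hX0 _ p.2.2))) (fun p => ?_) (fun p q hpq hrk => ?_)
    · rw [op_on (hop p) adm_nil le_rfl, if_pos rfl]
      exact hone _ (hc p)
    · have hlen : q.1.1.length ≤ p.1.1.length := by
        rcases (Prod.Lex.le_iff (α := ℕ) (β := List ℤ)).1 hrk with h | h
        · exact h.le
        · exact h.1.le
      by_cases hxy : p.1.2 = q.1.2
      · have h1 : FA q.1.2 (hX0 _ q.2.2) q.1.1 = FA p.1.2 (hX0 _ p.2.2) q.1.1 := by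
          congr 1
          exact hxy.symm
        rw [h1, op_on (hop p) adm_nil hlen]
        split_ifs with h2
        · by_cases h3 : c p q.1.1 = 0
          · rw [h3, zero_smul]
          · exfalso
            have h4 := hc' p _ h2 h3
            have h5 : (dir ρ q.1.1).map φ ≤ (dir ρ p.1.1).map φ := by
              rcases (Prod.Lex.le_iff (α := ℕ) (β := List ℤ)).1 hrk with h | h
              · exact absurd h2 h.ne
              · exact h.2
            have h6 := List.map_injective_iff.2 hφ (le_antisymm h4 h5)
            exact hpq (Subtype.ext (Prod.ext (dir_inj ρ h6) hxy))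
        · rfl
      · refine (hop p).kill _ fun m => ?_
        exact Dk_VA_other (hX0 _ p.2.2) hxy (hX _ p.2.2 _ q.2.2) m (FA_mem _ _)
  let f : R →+* R' := ((evA io).comp R.subtype).codRestrict R'.toSubring (fun b => b.2)
  have hf : Function.Surjective f := by
    rintro ⟨z, hz⟩
    obtain ⟨g, hg, -⟩ := exists_killed hz
    refine ⟨⟨g, ?_⟩, Subtype.ext hg⟩
    show evA io g ∈ R'
    rw [hg]; exact hz
  exact hAI.ringHom_of_comp_eq f (evA io) hf hinj (RingHom.ext fun b => rfl)

/-- Lyndon words (for an order of the letters and a direction of reading) with letters at least `2` -/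
def LW (φ : ℕ → ℤ) (ρ : Bool) (w : List ℕ) : Prop := LynO φ (dir ρ w) ∧ ∀ k ∈ w, 2 ≤ k

lemma LW.word {φ : ℕ → ℤ} {ρ : Bool} {w : List ℕ} (h : LW φ ρ w) : Word w := by
  refine ⟨?_, h.2⟩
  rintro rfl
  refine h.1.ne_nil ?_
  cases ρ <;> rfl

/-- **algebraic independence of the Poisson means `S_w(x)`, `w` a Lyndon word with entries at least `2`** -/
theorem ai_S {φ : ℕ → ℤ} (hφ : Function.Injective φ) (ρ : Bool) (X : Set ℂ)
    (hX : ∀ x ∈ X, IsAlgebraic ℚ x ∧ ∀ y ∈ X, x + y ≠ 0) :
    AlgebraicIndependent KK (fun p : {p : List ℕ × ℂ // LW φ ρ p.1 ∧ p.2 ∈ X} => S p.1.1 p.1.2) := by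
  have hne : ∀ x ∈ X, x ≠ 0 := by
    intro x hx h0
    exact (hX x hx).2 x hx (by rw [h0, add_zero])
  let X' : Set Qb := {x | io x ∈ X}
  have hX' : ∀ x ∈ X', ∀ y ∈ X', x + y ≠ 0 := by
    intro x hx y hy h
    refine (hX _ hx).2 _ hy ?_
    rw [← map_add, h, map_zero]
  have hX0 : ∀ x ∈ X', x ≠ 0 := fun x hx h => hne _ hx (by rw [h, map_zero])
  let φ' : ℕ → ℤ := fun m => φ (m + 2)
  have hφ' : Function.Injective φ' := fun a b h => Nat.add_right_cancel (hφ h)
  have h1 := ai_lyn hφ' ρ hX' hX0
  rw [GG_eq] at h1
  choose f hf using fun p : {p : List ℕ × ℂ // LW φ ρ p.1 ∧ p.2 ∈ X} => mem_range_io (hX p.1.2 p.2.2).1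
  let g : {p : List ℕ × ℂ // LW φ ρ p.1 ∧ p.2 ∈ X} → Lx φ' ρ X' := fun p =>
    ⟨(p.1.1.map (· - 2), f p), by
      show LynO φ' (dir ρ (p.1.1.map (· - 2)))
      rw [dir_map]
      exact p.2.1.1.shift fun k hk => p.2.1.2 k ((mem_dir ρ).1 hk), by
      show io (f p) ∈ X
      rw [hf]; exact p.2.2⟩
  have hg : Function.Injective g := by
    intro p q h
    have e1 : f p = f q := congrArg (fun z : Lx φ' ρ X' => z.1.2) h
    have e2 : p.1.1.map (· - 2) = q.1.1.map (· - 2) := congrArg (fun z : Lx φ' ρ X' => z.1.1) h
    apply Subtype.ext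
    apply Prod.ext (map_inj p.2.1.2 q.2.1.2 e2)
    rw [← hf p, ← hf q, e1]
  have h2 : AlgebraicIndependent KK ((fun p : Lx φ' ρ X' => evA io (FA p.1.2 (hX0 _ p.2.2) p.1.1)) ∘ g) :=
    h1.comp g hg
  have h3 : (fun p : Lx φ' ρ X' => evA io (FA p.1.2 (hX0 _ p.2.2) p.1.1)) ∘ g =
      fun p : {p : List ℕ × ℂ // LW φ ρ p.1 ∧ p.2 ∈ X} => S p.1.1 p.1.2 := by
    funext p
    show evA io (FA (f p) (hX0 _ (g p).2.2) (p.1.1.map (· - 2))) = S p.1.1 p.1.2
    rw [evA_FA, hf, S_eq p.2.1.2]
  rwa [h3] at h2

end Pool.Agent.N778.MZ
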