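import Pool.Agent.N778.MZ.Lf2
import Pool.Agent.N778.MZ.Lim

/-!
# Polynomials in truncated multiple zeta values
-/

set_option autoImplicit false
set_option linter.unusedSectionVars false

open PowerSeries Pool.Agent.N902.EW

namespace Pool.Agent.N778.MZ

section

variable {F : Type*} [Field F] [Algebra F ℂ]

/-- the operator of the first letter -/
noncomputable def pre (F : Type*) [Field F] [Algebra F ℂ] (a : ℕ) : (ℕ → ℂ) →ₗ[F] (ℕ → ℂ) where
  toFun f j := ∑ i ∈ Finset.range j, f i / ((i : ℂ) + 1) ^ a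
  map_add' f g := by
    funext j
    show ∑ i ∈ Finset.range j, (f i + g i) / ((i : ℂ) + 1) ^ a = _ + _
    rw [← Finset.sum_add_distrib]
    exact Finset.sum_congr rfl fun i _ => add_div _ _ _
  map_smul' c f := by
    funext j
    show ∑ i ∈ Finset.range j, (c • f i) / ((i : ℂ) + 1) ^ a = c • ∑ i ∈ Finset.range j, f i / ((i : ℂ) + 1) ^ a
    rw [Finset.smul_sum]
    exact Finset.sum_congr rfl fun i _ => smul_div_assoc _ _ _

lemma H_pre (a : ℕ) (w : List ℕ) : H (a :: w) = pre F a (H w) := by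
  funext j
  rw [H]
  rfl

lemma H_mul (a b : ℕ) (u v : List ℕ) : H (a :: u) * H (b :: v) =
    pre F a (H u * H (b :: v)) + pre F b (H (a :: u) * H v) + pre F (a + b) (H u * H v) := by
  funext j
  show H (a :: u) j * H (b :: v) j = ∑ i ∈ Finset.range j, (H u i * H (b :: v) i) / ((i : ℂ) + 1) ^ a +
    ∑ i ∈ Finset.range j, (H (a :: u) i * H v i) / ((i : ℂ) + 1) ^ b +
    ∑ i ∈ Finset.range j, (H u i * H v i) / ((i : ℂ) + 1) ^ (a + b)
  induction j with
  | zero => simp [H]
  | succ j ih =>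
    have e : ∀ (c : ℕ) (w : List ℕ), H (c :: w) (j + 1) = H (c :: w) j + H w j / ((j : ℂ) + 1) ^ c := by
      intro c w
      rw [H, H, Finset.sum_range_succ]
    rw [Finset.sum_range_succ, Finset.sum_range_succ, Finset.sum_range_succ, e, e]
    have h1 : ((j : ℂ) + 1) ≠ 0 := by exact_mod_cast Nat.succ_ne_zero j
    have h2 : (H (a :: u) j + H u j / ((j : ℂ) + 1) ^ a) * (H (b :: v) j + H v j / ((j : ℂ) + 1) ^ b) =
      H (a :: u) j * H (b :: v) j + (H u j * H (b :: v) j) / ((j : ℂ) + 1) ^ a + (H (a :: u) j * H v j) / ((j : ℂ) + 1) ^ b +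
        (H u j * H v j) / ((j : ℂ) + 1) ^ (a + b) := by
      rw [pow_add]
      field_simp
      ring
    rw [h2, ih]
    ring

/-- the span of the truncated values of all words with positive entries -/
def Q1 : Set (ℕ → ℂ) := {f | ∃ w : List ℕ, (∀ k ∈ w, 1 ≤ k) ∧ f = H w}

/-- the truncated values of the admissible words -/
def Q2 : Set (ℕ → ℂ) := {f | ∃ w : List ℕ, AdW w ∧ f = H w}

lemma pre_Q1 {a : ℕ} (ha : 1 ≤ a) {f : ℕ → ℂ} (hf : f ∈ Submodule.span F Q1) : pre F a f ∈ Submodule.span F Q1 := by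
  have h1 : (Submodule.span F Q1).map (pre F a) ≤ Submodule.span F Q1 := by
    rw [Submodule.map_span_le]
    rintro _ ⟨w, hw, rfl⟩
    rw [← H_pre]
    refine Submodule.subset_span ⟨a :: w, fun k hk => ?_, rfl⟩
    rcases List.mem_cons.1 hk with rfl | hk
    · exact ha
    · exact hw k hk
  exact h1 (Submodule.mem_map_of_mem hf)

lemma pre_Q2 {a : ℕ} (ha : 2 ≤ a) {f : ℕ → ℂ} (hf : f ∈ Submodule.span F Q1) : pre F a f ∈ Submodule.span F Q2 := by
  have h1 : (Submodule.span F Q1).map (pre F a) ≤ Submodule.span F Q2 := by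
    rw [Submodule.map_span_le]
    rintro _ ⟨w, hw, rfl⟩
    rw [← H_pre]
    exact Submodule.subset_span ⟨a :: w, ⟨ha, hw⟩, rfl⟩
  exact h1 (Submodule.mem_map_of_mem hf)

lemma mul_Q1 : ∀ (n : ℕ) (u v : List ℕ), u.length + v.length = n → (∀ k ∈ u, 1 ≤ k) → (∀ k ∈ v, 1 ≤ k) →
    H u * H v ∈ Submodule.span F Q1 := by
  intro n
  induction n using Nat.strong_induction_on with
  | _ n ih =>
    intro u v hn hu hv
    rcases u with _ | ⟨a, u⟩
    · have : H [] * H v = H v := by
        funext j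
        show H [] j * H v j = H v j
        rw [H, one_mul]
      rw [this]
      exact Submodule.subset_span ⟨v, hv, rfl⟩
    rcases v with _ | ⟨b, v⟩
    · have : H (a :: u) * H [] = H (a :: u) := by
        funext j
        show H (a :: u) j * H [] j = H (a :: u) j
        rw [show H [] j = 1 from rfl, mul_one]
      rw [this]
      exact Submodule.subset_span ⟨a :: u, hu, rfl⟩
    have ha := hu a (by simp)
    have hb := hv b (by simp)
    have hu' : ∀ k ∈ u, 1 ≤ k := fun k hk => hu k (List.mem_cons_of_mem _ hk)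
    have hv' : ∀ k ∈ v, 1 ≤ k := fun k hk => hv k (List.mem_cons_of_mem _ hk)
    rw [List.length_cons, List.length_cons] at hn
    rw [H_mul (F := F)]
    refine Submodule.add_mem _ (Submodule.add_mem _ (pre_Q1 ha (ih _ ?_ u (b :: v) rfl hu' hv))
      (pre_Q1 hb (ih _ ?_ (a :: u) v rfl hu hv'))) (pre_Q1 (by omega) (ih _ ?_ u v rfl hu' hv'))
    · rw [List.length_cons]; omega
    · rw [List.length_cons]; omega
    · omega

lemma mul_Q2 {u v : List ℕ} (hu : AdW u) (hv : AdW v) : H u * H v ∈ Submodule.span F Q2 := by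
  rcases u with _ | ⟨a, u⟩
  · exact absurd hu id
  rcases v with _ | ⟨b, v⟩
  · exact absurd hv id
  have ha : 2 ≤ a := hu.1
  have hb : 2 ≤ b := hv.1
  rw [H_mul (F := F)]
  exact Submodule.add_mem _ (Submodule.add_mem _ (pre_Q2 ha (mul_Q1 _ u (b :: v) rfl hu.2 hv.ge_one))
    (pre_Q2 hb (mul_Q1 _ (a :: u) v rfl hu.ge_one hv.2))) (pre_Q2 (by omega) (mul_Q1 _ u v rfl hu.2 hv.2))

open scoped Pointwise in
/-- polynomials in the truncated values are linear combinations -/
theorem adj_Q2 {f : ℕ → ℂ} (hf : f ∈ Algebra.adjoin F Q2) : f ∈ Submodule.span F (insert 1 Q2) := by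
  have hS : (insert 1 Q2 : Set (ℕ → ℂ)) * insert 1 Q2 ⊆ (Submodule.span F (insert 1 Q2) : Set (ℕ → ℂ)) := by
    rintro _ ⟨x, hx, y, hy, rfl⟩
    show x * y ∈ Submodule.span F (insert 1 Q2)
    rcases hx with rfl | ⟨u, hu, rfl⟩
    · rw [one_mul]; exact Submodule.subset_span hy
    · rcases hy with rfl | ⟨v, hv, rfl⟩
      · rw [mul_one]; exact Submodule.subset_span (Or.inr ⟨u, hu, rfl⟩)
      · exact Submodule.span_mono (Set.subset_insert _ _) (mul_Q2 hu hv)
  have hmul : ∀ x ∈ Submodule.span F (insert 1 Q2), ∀ y ∈ Submodule.span F (insert 1 Q2),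
      x * y ∈ Submodule.span F (insert 1 Q2) := by
    intro x hx y hy
    have h1 := Submodule.mul_mem_mul hx hy
    rw [Submodule.span_mul_span] at h1
    exact Submodule.span_le.2 hS h1
  induction hf using Algebra.adjoin_induction with
  | mem x hx => exact Submodule.subset_span (Or.inr hx)
  | algebraMap r =>
    rw [Algebra.algebraMap_eq_smul_one]
    exact Submodule.smul_mem _ _ (Submodule.subset_span (Or.inl rfl))
  | add x y _ _ hx hy => exact Submodule.add_mem _ hx hy
  | mul x y _ _ hx hy => exact hmul x hx y hy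

/-- explicit form -/
theorem expl {f : ℕ → ℂ} (hf : f ∈ Algebra.adjoin F Q2) :
    ∃ (a : F) (W : Finset (List ℕ)) (c : List ℕ → F), (∀ w ∈ W, AdW w) ∧
      ∀ j, f j = algebraMap F ℂ a + ∑ w ∈ W, algebraMap F ℂ (c w) * H w j := by
  classical
  have h1 := adj_Q2 hf
  refine Submodule.span_induction (p := fun f _ => ∃ (a : F) (W : Finset (List ℕ)) (c : List ℕ → F), (∀ w ∈ W, AdW w) ∧
      ∀ j, f j = algebraMap F ℂ a + ∑ w ∈ W, algebraMap F ℂ (c w) * H w j) ?_ ?_ ?_ ?_ h1
  · rintro f (rfl | ⟨w, hw, rfl⟩)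
    · exact ⟨1, ∅, fun _ => 0, by simp, fun j => by simp⟩
    · exact ⟨0, {w}, fun _ => 1, by simpa using hw, fun j => by simp⟩
  · exact ⟨0, ∅, fun _ => 0, by simp, fun j => by simp⟩
  · rintro f g _ _ ⟨a, W, c, hW, hf⟩ ⟨b, V, d, hV, hg⟩
    refine ⟨a + b, W ∪ V, fun w => (if w ∈ W then c w else 0) + (if w ∈ V then d w else 0), fun w hw => ?_, fun j => ?_⟩
    · rcases Finset.mem_union.1 hw with h | h
      · exact hW w h
      · exact hV w h
    · show f j + g j = _
      rw [hf, hg, map_add]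
      have e1 : ∑ w ∈ W, algebraMap F ℂ (c w) * H w j = ∑ w ∈ W ∪ V, algebraMap F ℂ (if w ∈ W then c w else 0) * H w j := by
        rw [← Finset.sum_subset (Finset.subset_union_left (s₁ := W) (s₂ := V))]
        · exact Finset.sum_congr rfl fun w hw => by rw [if_pos hw]
        · intro w _ hw
          rw [if_neg hw, map_zero, zero_mul]
      have e2 : ∑ w ∈ V, algebraMap F ℂ (d w) * H w j = ∑ w ∈ W ∪ V, algebraMap F ℂ (if w ∈ V then d w else 0) * H w j := by
        rw [← Finset.sum_subset (Finset.subset_union_right (s₁ := W) (s₂ := V))]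
        · exact Finset.sum_congr rfl fun w hw => by rw [if_pos hw]
        · intro w _ hw
          rw [if_neg hw, map_zero, zero_mul]
      rw [e1, e2]
      have e3 : ∑ w ∈ W ∪ V, algebraMap F ℂ ((if w ∈ W then c w else 0) + (if w ∈ V then d w else 0)) * H w j =
          ∑ w ∈ W ∪ V, algebraMap F ℂ (if w ∈ W then c w else 0) * H w j +
          ∑ w ∈ W ∪ V, algebraMap F ℂ (if w ∈ V then d w else 0) * H w j := by
        rw [← Finset.sum_add_distrib]
        refine Finset.sum_congr rfl fun w _ => ?_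
        rw [map_add, add_mul]
      rw [e3]
      ring
  · rintro b f _ ⟨a, W, c, hW, hf⟩
    refine ⟨b * a, W, fun w => b * c w, hW, fun j => ?_⟩
    show b • f j = _
    rw [hf, Algebra.smul_def, map_mul, mul_add, Finset.mul_sum]
    congr 1
    refine Finset.sum_congr rfl fun w _ => ?_
    rw [map_mul, mul_assoc]

end

/-- the Poisson mean of a sequence -/
noncomputable def Pm (f : ℕ → ℂ) (x : ℂ) : ℂ := Complex.exp (-x) * ∑' j : ℕ, x ^ j / j.factorial * f j

lemma Pm_expl {f : ℕ → ℂ} {a : ℂ} {W : Finset (List ℕ)} {c : List ℕ → ℂ} (hW : ∀ w ∈ W, AdW w)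
    (hf : ∀ j, f j = a + ∑ w ∈ W, c w * H w j) (x : ℂ) : Pm f x = a + ∑ w ∈ W, c w * S w x := by
  have h0 : HasSum (fun j : ℕ => x ^ j / (j.factorial : ℂ) * a) (Complex.exp x * a) := by
    rw [Complex.exp_eq_exp_ℂ]
    exact (NormedSpace.expSeries_div_hasSum_exp x).mul_right a
  have h1 : ∀ w ∈ W, HasSum (fun j : ℕ => c w * (x ^ j / (j.factorial : ℂ) * H w j))
      (c w * ∑' j : ℕ, x ^ j / (j.factorial : ℂ) * H w j) := by
    intro w hw
    obtain ⟨C, -, h⟩ := norm_Hn_le (hW w hw)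
    exact (summ_exp h x).hasSum.mul_left _
  have h2 := h0.add (hasSum_sum h1)
  have h3 : (fun j : ℕ => x ^ j / (j.factorial : ℂ) * a + ∑ w ∈ W, c w * (x ^ j / (j.factorial : ℂ) * H w j)) =
      fun j : ℕ => x ^ j / (j.factorial : ℂ) * f j := by
    funext j
    rw [hf, mul_add, Finset.mul_sum]
    congr 1
    exact Finset.sum_congr rfl fun w _ => by ring
  rw [h3] at h2
  rw [Pm, h2.tsum_eq, mul_add, ← mul_assoc, ← Complex.exp_add, neg_add_cancel, Complex.exp_zero, one_mul, Finset.mul_sum]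
  congr 1
  refine Finset.sum_congr rfl fun w _ => ?_
  rw [S]
  ring

/-- **the Poisson means of a nonconstant polynomial in truncated multiple zeta values at two points** -/
theorem pol_two {X : Set ℂ} (hX : ∀ x ∈ X, IsAlgebraic ℚ x ∧ ∀ y ∈ X, x + y ≠ 0) {f : ℕ → ℂ}
    (hf : f ∈ Algebra.adjoin KK Q2) (hc : ∃ j, f j ≠ f 0) {x y : ℂ} (hx : x ∈ X) (hy : y ∈ X ∨ y = 0) (hxy : x ≠ y) :
    ¬ IsAlgebraic KK (Pm f x - Pm f y) := by
  classical
  intro halg
  obtain ⟨a, W, c, hW, hf'⟩ := expl hf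
  rw [Pm_expl (c := fun w => (c w : ℂ)) hW hf' x, Pm_expl (c := fun w => (c w : ℂ)) hW hf' y, add_sub_add_left_eq_sub] at halg
  let Pt : Finset (List ℕ × ℂ) := W ×ˢ (({x, y} : Finset ℂ).filter fun z => z ≠ 0)
  have hx0 : x ≠ 0 := by
    intro h0
    exact (hX x hx).2 x hx (by rw [h0, add_zero])
  let b : List ℕ × ℂ → KK := fun p => if p.2 = x then c p.1 else -c p.1
  have e : ∑ w ∈ W, (c w : ℂ) * S w x - ∑ w ∈ W, (c w : ℂ) * S w y = ∑ p ∈ Pt, (b p : ℂ) * S p.1 p.2 := by
    rw [Finset.sum_product_right, Finset.sum_filter, Finset.sum_pair hxy, if_pos hx0, sub_eq_add_neg]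
    congr 1
    · refine Finset.sum_congr rfl fun w _ => ?_
      show _ = ((if x = x then c w else -c w : KK) : ℂ) * S w x
      rw [if_pos rfl]
    · by_cases hy0 : y ≠ 0
      · rw [if_pos hy0, ← Finset.sum_neg_distrib]
        refine Finset.sum_congr rfl fun w _ => ?_
        show _ = ((if y = x then c w else -c w : KK) : ℂ) * S w y
        rw [if_neg (fun h => hxy h.symm)]
        push_cast
        ring
      · rw [if_neg hy0]
        rw [not_not] at hy0
        subst hy0
        rw [neg_eq_zero]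
        exact Finset.sum_eq_zero fun w hw => by rw [S_zeron (hW w hw).wo.1, mul_zero]
  rw [e] at halg
  have h1 := lf_S hX Pt (fun p hp => by
    obtain ⟨hp1, hp2⟩ := Finset.mem_product.1 hp
    obtain ⟨hp3, hp4⟩ := Finset.mem_filter.1 hp2
    refine ⟨hW _ hp1, ?_⟩
    rcases Finset.mem_insert.1 hp3 with h | h
    · rw [h]; exact hx
    · rw [Finset.mem_singleton.1 h] at hp4 ⊢
      exact hy.resolve_right hp4) b halg
  have h2 : ∀ w ∈ W, c w = 0 := by
    intro w hw
    have h3 := h1 (w, x) (Finset.mem_product.2 ⟨hw, Finset.mem_filter.2 ⟨by simp, hx0⟩⟩)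
    have h4 : b (w, x) = c w := if_pos rfl
    rw [h4] at h3
    exact h3
  obtain ⟨j, hj⟩ := hc
  refine hj ?_
  rw [hf' j, hf' 0]
  congr 1
  refine Finset.sum_congr rfl fun w hw => ?_
  rw [h2 w hw, map_zero, zero_mul, zero_mul]

end Pool.Agent.N778.MZ
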