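import Pool.Agent.N778.MZ.Va

/-!
# The sum of the dimensions of the spaces of relations
-/

set_option autoImplicit false
set_option linter.unusedSectionVars false

namespace Pool.Agent.N778.MZ

section

variable {F : Type*} [Field F] [Algebra F ℂ]

/-- the linear relations of a family -/
def rels (F : Type*) [Field F] [Algebra F ℂ] {κ : Type*} [Fintype κ] (u : κ → ℂ) : Submodule F (κ → F) :=
  LinearMap.ker (Fintype.linearCombination F u)

lemma mem_rels {κ : Type*} [Fintype κ] {u : κ → ℂ} {c : κ → F} : c ∈ rels F u ↔ ∑ i, c i • u i = 0 := by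
  rw [rels, LinearMap.mem_ker, Fintype.linearCombination_apply]

lemma rels_add_span {κ : Type*} [Fintype κ] (u : κ → ℂ) :
    Module.finrank F (rels F u) + Module.finrank F (Submodule.span F (Set.range u)) = Fintype.card κ := by
  have h := LinearMap.finrank_range_add_finrank_ker (Fintype.linearCombination F u)
  rw [Module.finrank_fintype_fun_eq_card, Fintype.range_linearCombination] at h
  rw [rels]
  omega

variable {ι : Type*}

/-- **the sum rule**, the points which are not zero -/
theorem sum_rule (W : Finset ι) (f : ι → ℂ → ℂ) (z : ι → ℂ) (t : Finset ℂ)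
    (h : LinearIndependent F (fun o : Option (W × t) => (o.elim 1 (fun p => f p.1 p.2) : ℂ))) :
    ∑ x ∈ t, Module.finrank F (rels F (fun o : Option W => (o.elim 1 (fun w => z w - f w x) : ℂ))) + 1 ≤
      Module.finrank F (Submodule.span F (Set.range fun o : Option W => (o.elim 1 (fun w => z w) : ℂ))) := by
  classical
  set u : Option W → ℂ := fun o => o.elim 1 (fun w => z w) with hu
  set V : Submodule F ℂ := Submodule.span F (Set.range u) with hV
  have huV : ∀ o, u o ∈ V := fun o => Submodule.subset_span ⟨o, rfl⟩
  let k : ℂ → Submodule F (Option W → F) := fun x => rels F (fun o : Option W => (o.elim 1 (fun w => z w - f w x) : ℂ))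
  let Φ : (F × (∀ x : t, k x)) →ₗ[F] ℂ :=
    { toFun := fun p => p.1 • (1 : ℂ) + ∑ x : t, ∑ w : W, (p.2 x : Option W → F) (some w) • f w x
      map_add' := by
        intro p q
        have h1 : ∑ x : t, ∑ w : W, ((p + q).2 x : Option W → F) (some w) • f w x =
            ∑ x : t, ∑ w : W, (p.2 x : Option W → F) (some w) • f w x +
              ∑ x : t, ∑ w : W, (q.2 x : Option W → F) (some w) • f w x := by
          rw [← Finset.sum_add_distrib]
          refine Finset.sum_congr rfl fun x _ => ?_
          rw [← Finset.sum_add_distrib]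
          refine Finset.sum_congr rfl fun w _ => ?_
          rw [← add_smul]
          rfl
        rw [h1, Prod.fst_add, add_smul]
        abel
      map_smul' := by
        intro a p
        have h1 : ∑ x : t, ∑ w : W, ((a • p).2 x : Option W → F) (some w) • f w x =
            a • ∑ x : t, ∑ w : W, (p.2 x : Option W → F) (some w) • f w x := by
          rw [Finset.smul_sum]
          refine Finset.sum_congr rfl fun x _ => ?_
          rw [Finset.smul_sum]
          refine Finset.sum_congr rfl fun w _ => ?_
          rw [← mul_smul]
          rfl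
        rw [h1, Prod.smul_fst, smul_assoc, RingHom.id_apply, smul_add] }
  have hΦ : ∀ p, Φ p ∈ V := by
    intro p
    show p.1 • (1 : ℂ) + ∑ x : t, ∑ w : W, (p.2 x : Option W → F) (some w) • f w x ∈ V
    refine V.add_mem (V.smul_mem _ (huV none)) (V.sum_mem fun x _ => ?_)
    have h1 := mem_rels.1 (p.2 x).2
    rw [Fintype.sum_option] at h1
    set c : Option W → F := (p.2 x : Option W → F) with hc
    have h2 : ∑ w : W, c (some w) • ((some w).elim 1 (fun w : W => z w - f w x) : ℂ) =
        ∑ w : W, c (some w) • z w - ∑ w : W, c (some w) • f w x := by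
      rw [← Finset.sum_sub_distrib]
      exact Finset.sum_congr rfl fun w _ => smul_sub _ _ _
    have h3 : c none • (1 : ℂ) + (∑ w : W, c (some w) • z w - ∑ w : W, c (some w) • f w x) = 0 := by
      rw [← h2]
      exact h1
    have h4 : ∑ w : W, c (some w) • f w x = c none • (1 : ℂ) + ∑ w : W, c (some w) • z w := by
      linear_combination -h3
    rw [h4]
    exact V.add_mem (V.smul_mem _ (huV none)) (V.sum_mem fun w _ => V.smul_mem _ (huV (some w)))
  have hinj : Function.Injective Φ := by
    rw [injective_iff_map_eq_zero]
    intro p hp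
    have hp' : p.1 • (1 : ℂ) + ∑ x : t, ∑ w : W, (p.2 x : Option W → F) (some w) • f w x = 0 := hp
    rw [Fintype.linearIndependent_iff] at h
    have h1 := h (fun o => o.elim p.1 (fun q => (p.2 q.2 : Option W → F) (some q.1))) (by
      rw [← hp', Fintype.sum_option, Fintype.sum_prod_type, Finset.sum_comm]
      rfl)
    have h2 : p.1 = 0 := h1 none
    have h3 : ∀ (x : t) (w : W), (p.2 x : Option W → F) (some w) = 0 := fun x w => h1 (some (w, x))
    refine Prod.ext h2 ?_
    funext x
    apply Subtype.ext
    funext o
    rcases o with _ | w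
    · have h4 := mem_rels.1 (p.2 x).2
      rw [Fintype.sum_option] at h4
      have h5 : ∑ w : W, (p.2 x : Option W → F) (some w) • ((some w).elim 1 (fun w : W => z w - f w x) : ℂ) = 0 :=
        Finset.sum_eq_zero fun w _ => by rw [h3 x w, zero_smul]
      rw [h5, add_zero] at h4
      exact (smul_eq_zero.1 h4).resolve_right one_ne_zero
    · exact h3 x w
  have hfin : Module.Finite F V := Module.Finite.span_of_finite F (Set.finite_range u)
  have h1 := LinearMap.finrank_le_finrank_of_injective (f := LinearMap.codRestrict V Φ hΦ)
    (fun a b hab => hinj (congrArg Subtype.val hab))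
  rw [Module.finrank_prod, Module.finrank_self, Module.finrank_pi_fintype, Finset.sum_coe_sort t
    (fun x => Module.finrank F (k x))] at h1
  rw [add_comm]
  exact h1

/-- **the sum rule**, all points -/
theorem sum_rule_all (W : Finset ι) (f : ι → ℂ → ℂ) (z : ι → ℂ) (t : Finset ℂ) (h0 : ∀ w ∈ W, f w 0 = 0)
    (h : LinearIndependent F (fun o : Option (W × (t.erase 0 : Finset ℂ)) => (o.elim 1 (fun p => f p.1 p.2) : ℂ))) :
    ∑ x ∈ t, Module.finrank F (rels F (fun o : Option W => (o.elim 1 (fun w => z w - f w x) : ℂ))) ≤ W.card := by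
  classical
  have h1 := sum_rule W f z (t.erase 0) h
  have h2 := rels_add_span (F := F) (fun o : Option W => (o.elim 1 (fun w => z w) : ℂ))
  rw [Fintype.card_option, Fintype.card_coe] at h2
  by_cases h3 : (0 : ℂ) ∈ t
  · rw [← Finset.add_sum_erase _ _ h3]
    have h4 : (fun o : Option W => (o.elim 1 (fun w => z w - f w 0) : ℂ)) =
        fun o : Option W => (o.elim 1 (fun w => z w) : ℂ) := by
      funext o
      rcases o with _ | w
      · rfl
      · show z w - f w 0 = z w
        rw [h0 w w.2, sub_zero]
    rw [h4]
    omega
  · rw [Finset.erase_eq_of_notMem h3] at h1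
    omega

end

end Pool.Agent.N778.MZ
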