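import Pool.Agent.N778.MZ.Al

/-!
# Linear independence over the exponentials
-/

set_option autoImplicit false
set_option linter.unusedSectionVars false

open PowerSeries Pool.Agent.N902.EW

namespace Pool.Agent.N778.MZ

/-! ### The triangular lemma -/

theorem li_tri {R M ι β : Type*} [CommRing R] [IsDomain R] [AddCommGroup M] [Module R M] {v : β → M}
    (hv : LinearIndependent R v) (rk : β → ℕ) {σ : ι → β} (hσ : Function.Injective σ) (e : ι → R) (he : ∀ i, e i ≠ 0)
    {u : ι → M} (hu : ∀ i, u i - e i • v (σ i) ∈ Submodule.span R (v '' {b | rk b < rk (σ i)})) :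
    LinearIndependent R u := by
  classical
  choose d hd hd' using fun i => (Finsupp.mem_span_image_iff_linearCombination R).1 (hu i)
  rw [linearIndependent_iff']
  intro s g hg
  by_contra hcon
  push Not at hcon
  obtain ⟨j₀, hj₀, hne₀⟩ := hcon
  obtain ⟨i₀, hi₀, hmax⟩ := Finset.exists_max_image (s.filter fun i => g i ≠ 0) (fun i => rk (σ i))
    ⟨j₀, Finset.mem_filter.2 ⟨hj₀, hne₀⟩⟩
  obtain ⟨hi₀s, hi₀ne⟩ := Finset.mem_filter.1 hi₀
  have h1 : Finsupp.linearCombination R v (∑ i ∈ s, g i • (Finsupp.single (σ i) (e i) + d i)) = 0 := by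
    rw [map_sum, ← hg]
    refine Finset.sum_congr rfl fun i _ => ?_
    rw [map_smul, map_add, Finsupp.linearCombination_single, hd', add_sub_cancel]
  have h2 : ∑ i ∈ s, g i • (Finsupp.single (σ i) (e i) + d i) = 0 := hv (h1.trans (map_zero _).symm)
  have h3 := congrArg (fun f => f (σ i₀)) h2
  simp only [Finsupp.finsetSum_apply, Finsupp.smul_apply, Finsupp.add_apply, Finsupp.coe_zero, Pi.zero_apply,
    smul_eq_mul] at h3
  rw [Finset.sum_eq_single i₀] at h3
  · have h4 : d i₀ (σ i₀) = 0 := by
      by_contra h4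
      have h5 : rk (σ i₀) < rk (σ i₀) := (Finsupp.mem_supported R _).1 (hd i₀) (Finsupp.mem_support_iff.2 h4)
      exact absurd h5 (lt_irrefl _)
    rw [Finsupp.single_eq_same, h4, add_zero] at h3
    rcases mul_eq_zero.1 h3 with h5 | h5
    · exact hi₀ne h5
    · exact he _ h5
  · intro i hi hii
    by_cases hgi : g i = 0
    · rw [hgi, zero_mul]
    · have h4 : d i (σ i₀) = 0 := by
        by_contra h4
        have h5 := (Finsupp.mem_supported R _).1 (hd i) (Finsupp.mem_support_iff.2 h4)
        have h6 : rk (σ i₀) < rk (σ i) := h5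
        have h7 := hmax i (Finset.mem_filter.2 ⟨hi, hgi⟩)
        omega
      rw [h4, add_zero, Finsupp.single_eq_of_ne (fun h => hii (hσ h.symm)), mul_zero]
  · intro h; exact absurd hi₀s h

section

variable {K : Type*} [Field K] [CharZero K]

/-! ### The ring of the exponentials -/

lemma mk_one : (mk 0 [] adm_nil : AA K) = 1 := by
  apply Subtype.ext
  show ex 0 * U [] = (1 : K⟦X⟧)
  rw [ex_zero, U_nil, one_mul]

/-- the span of the exponentials -/
noncomputable def ESp (K : Type*) [Field K] [CharZero K] : Submodule K (AA K) :=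
  Submodule.span K (Set.range fun l : K => mk l [] adm_nil)

lemma ESp_mul {f g : AA K} (hf : f ∈ ESp K) (hg : g ∈ ESp K) : f * g ∈ ESp K := by
  refine Submodule.span_induction₂ (p := fun f g _ _ => f * g ∈ ESp K) ?_ ?_ ?_ ?_ ?_ ?_ ?_ hf hg
  · rintro _ _ ⟨l, rfl⟩ ⟨m, rfl⟩
    show mk l [] adm_nil * mk m [] adm_nil ∈ _
    rw [mk_mul_nil]
    exact Submodule.subset_span ⟨_, rfl⟩
  · intro y _; rw [zero_mul]; exact Submodule.zero_mem _
  · intro x _; rw [mul_zero]; exact Submodule.zero_mem _
  · intro x y z _ _ _ hx hy; rw [add_mul]; exact Submodule.add_mem _ hx hy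
  · intro x y z _ _ _ hx hy; rw [mul_add]; exact Submodule.add_mem _ hx hy
  · intro c x y _ _ h; rw [smul_mul_assoc]; exact Submodule.smul_mem _ _ h
  · intro c x y _ _ h; rw [mul_smul_comm]; exact Submodule.smul_mem _ _ h

/-- the ring of the exponentials -/
noncomputable def ES (K : Type*) [Field K] [CharZero K] : Subalgebra K (AA K) :=
  (ESp K).toSubalgebra (by rw [← mk_one]; exact Submodule.subset_span ⟨0, rfl⟩) fun _ _ => ESp_mul

lemma mem_ES {f : AA K} : f ∈ ES K ↔ f ∈ ESp K := Iff.rfl

open Classical in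
/-- the coefficient of a word -/
noncomputable def cw (w₀ : List K) : AA K →ₗ[K] AA K :=
  (bA K).constr K fun x => if x.1.2 = w₀ then mk x.1.1 [] adm_nil else 0

open Classical in
lemma cw_mk (w₀ : List K) (l : K) (w : List K) (h : Adm w) :
    cw w₀ (mk l w h) = if w = w₀ then mk l [] adm_nil else 0 := by
  have h1 := (bA K).constr_basis K (fun x : {x : K × List K // Adm x.2} =>
    if x.1.2 = w₀ then (mk x.1.1 [] adm_nil : AA K) else 0) ⟨(l, w), h⟩
  rw [bA_apply] at h1
  exact h1

open Classical in
lemma cw_mul (w₀ : List K) {r : AA K} (hr : r ∈ ESp K) (w : List K) (h : Adm w) :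
    cw w₀ (r * mk 0 w h) = if w = w₀ then r else 0 := by
  refine Submodule.span_induction (p := fun r _ => cw w₀ (r * mk 0 w h) = if w = w₀ then r else 0) ?_ ?_ ?_ ?_ hr
  · rintro _ ⟨l, rfl⟩
    show cw w₀ (mk l [] adm_nil * mk 0 w h) = _
    rw [mk_mul_nil, cw_mk, add_zero]
  · rw [zero_mul, map_zero]; split_ifs <;> rfl
  · intro x y _ _ hx hy
    rw [add_mul, map_add, hx, hy]
    split_ifs
    · rfl
    · rw [add_zero]
  · intro c x _ hx
    rw [smul_mul_assoc, map_smul, hx]
    split_ifs
    · rfl
    · rw [smul_zero]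

/-- the words -/
noncomputable def vw (w : {w : List K // Adm w}) : AA K := mk 0 w.1 w.2

theorem li_words : LinearIndependent (ES K) (vw (K := K)) := by
  classical
  refine (linearIndependent_iff' (R := ES K) (M := AA K) (v := vw (K := K))).2 fun s g hg w hw => ?_
  have h1 := congrArg (cw w.1) hg
  rw [map_sum, map_zero, Finset.sum_eq_single w] at h1
  · have h2 : g w • vw w = (g w : AA K) * mk 0 w.1 w.2 := rfl
    rw [h2, cw_mul w.1 (g w).2, if_pos rfl] at h1
    exact Subtype.ext h1
  · intro v _ hv
    have h2 : g v • vw v = (g v : AA K) * mk 0 v.1 v.2 := rfl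
    rw [h2, cw_mul w.1 (g v).2, if_neg (fun h => hv (Subtype.ext h))]
  · intro h; exact absurd hw h

/-! ### The decoding of the words -/

lemma zs_append_inj {x : K} (hx : x ≠ 0) {i j : ℕ} {u v : List K} (h : zs x i ++ u = zs x j ++ v) : i = j ∧ u = v := by
  induction i generalizing j with
  | zero =>
    rcases j with _ | j
    · rw [zs] at h
      exact ⟨rfl, by simpa using h⟩
    · rw [zs, zs, List.singleton_append, List.cons_append] at h
      exact absurd (List.cons.inj h).1 hx
  | succ i ih =>
    rcases j with _ | j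
    · rw [zs, zs, List.singleton_append, List.cons_append] at h
      exact absurd (List.cons.inj h).1.symm hx
    · rw [zs, zs, List.cons_append, List.cons_append] at h
      obtain ⟨h1, h2⟩ := ih (List.cons.inj h).2
      exact ⟨by rw [h1], h2⟩

lemma zs_append_ne {x : K} (i : ℕ) (u : List K) : zs x i ++ u ≠ [] := by
  intro h
  exact zs_ne_nil x i (List.append_eq_nil_iff.1 h).1

lemma WP_inj {x : K} (hx : x ≠ 0) : ∀ {s t : List ℕ}, WP x s = WP x t → s = t := by
  intro s
  induction s with
  | nil =>
    intro t h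
    rcases t with _ | ⟨j, t⟩
    · rfl
    · rcases j with _ | j
      · rcases t with _ | ⟨m, t⟩ <;> simp [WP] at h
      · simp [WP] at h
  | cons i s ih =>
    intro t h
    rcases t with _ | ⟨j, t⟩
    · rcases i with _ | i
      · rcases s with _ | ⟨m, s⟩ <;> simp [WP] at h
      · simp [WP] at h
    · rcases i with _ | i
      · rcases s with _ | ⟨m, s⟩
        · rcases j with _ | j
          · rcases t with _ | ⟨k, t⟩
            · rfl
            · simp only [WP] at h
              exact absurd (List.cons.inj h).1 (neg_ne_zero.2 hx)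
          · simp only [WP] at h
            exact absurd (List.cons.inj h).2.symm (zs_append_ne _ _)
        · rcases j with _ | j
          · rcases t with _ | ⟨k, t⟩
            · simp only [WP] at h
              exact absurd (List.cons.inj h).1.symm (neg_ne_zero.2 hx)
            · have h' : (0 : K) :: WP x (m :: s) = 0 :: WP x (k :: t) := by simpa only [WP] using h
              rw [ih (List.cons.inj h').2]
          · have h' : (0 : K) :: WP x (m :: s) = -x :: (zs x j ++ WP x t) := by simpa only [WP] using h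
            exact absurd (List.cons.inj h').1.symm (neg_ne_zero.2 hx)
      · rcases j with _ | j
        · rcases t with _ | ⟨k, t⟩
          · simp only [WP] at h
            exact absurd (List.cons.inj h).2 (zs_append_ne _ _)
          · have h' : -x :: (zs x i ++ WP x s) = (0 : K) :: WP x (k :: t) := by simpa only [WP] using h
            exact absurd (List.cons.inj h').1 (neg_ne_zero.2 hx)
        · have h' : -x :: (zs x i ++ WP x s) = -x :: (zs x j ++ WP x t) := by simpa only [WP] using h
          obtain ⟨h1, h2⟩ := zs_append_inj hx (List.cons.inj h').2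
          rw [h1, ih h2]

/-- the first nonzero letter -/
lemma first_WP {x y : K} (hx : x ≠ 0) (hy : y ≠ 0) : ∀ {s t : List ℕ}, s ≠ [] → WP x s = WP y t → x = y := by
  intro s
  induction s with
  | nil => intro t h _; exact absurd rfl h
  | cons i s ih =>
    intro t _ h
    rcases t with _ | ⟨j, t⟩
    · rcases i with _ | i
      · rcases s with _ | ⟨m, s⟩ <;> simp [WP] at h
      · simp [WP] at h
    · rcases i with _ | i
      · rcases s with _ | ⟨m, s⟩
        · rcases j with _ | j
          · rcases t with _ | ⟨k, t⟩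
            · simp only [WP] at h
              exact neg_injective (List.cons.inj h).1
            · simp only [WP] at h
              exact absurd (List.cons.inj h).1 (neg_ne_zero.2 hx)
          · simp only [WP] at h
            exact neg_injective (List.cons.inj h).1
        · rcases j with _ | j
          · rcases t with _ | ⟨k, t⟩
            · simp only [WP] at h
              exact absurd (List.cons.inj h).1.symm (neg_ne_zero.2 hy)
            · have h' : (0 : K) :: WP x (m :: s) = 0 :: WP y (k :: t) := by simpa only [WP] using h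
              exact ih (by simp) (List.cons.inj h').2
          · have h' : (0 : K) :: WP x (m :: s) = -y :: (zs y j ++ WP y t) := by simpa only [WP] using h
            exact absurd (List.cons.inj h').1.symm (neg_ne_zero.2 hy)
      · rcases j with _ | j
        · rcases t with _ | ⟨k, t⟩
          · simp only [WP] at h
            exact neg_injective (List.cons.inj h).1
          · have h' : -x :: (zs x i ++ WP x s) = (0 : K) :: WP y (k :: t) := by simpa only [WP] using h
            exact absurd (List.cons.inj h').1 (neg_ne_zero.2 hx)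
        · have h' : -x :: (zs x i ++ WP x s) = -y :: (zs y j ++ WP y t) := by simpa only [WP] using h
          exact neg_injective (List.cons.inj h').1

/-! ### The families -/

lemma adm_WP {x : K} (hx : x ≠ 0) (s : List ℕ) : Adm (WP x s) := by
  by_cases hs : s = []
  · rw [hs, WP]; trivial
  · exact (Le_Sd hx s hs).adm

lemma WP_ne_nil {x : K} (hx : x ≠ 0) {s : List ℕ} (hs : s ≠ []) : WP x s ≠ [] := (Le_Sd hx s hs).ne

lemma Sd_mem {x : K} (hx : x ≠ 0) (s : List ℕ) : Sd x s ∈ AA K := by
  by_cases hs : s = []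
  · rw [hs, Sd]; exact (AA K).one_mem
  · have h := Le_Sd hx s hs
    have h1 := (AA K).add_mem (SF_le_AA h.mem) ((AA K).smul_mem (U_mem_AA (adm_WP hx s)) (sg s : K))
    rwa [sub_add_cancel] at h1

lemma Q_le_AA {x : K} (hx : x ≠ 0) {n : ℕ} {f : K⟦X⟧} (hf : f ∈ Q x n) : f ∈ AA K := by
  refine Submodule.span_induction (p := fun f _ => f ∈ AA K) ?_ ?_ ?_ ?_ hf
  · rintro _ ⟨s, h1, h2, rfl⟩
    exact Sd_mem hx s
  · exact (AA K).zero_mem
  · intro f g _ _ hf hg; exact (AA K).add_mem hf hg
  · intro c f _ hf; exact (AA K).smul_mem hf c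

lemma Fd_sub_Sd' (x : K) {s : List ℕ} (hs : s ≠ []) : Fd s x - Sd x s ∈ Q x s.length := by
  rcases s with _ | ⟨m, s⟩
  · exact absurd rfl hs
  · exact Fd_sub_Sd x s.length (m :: s) rfl

lemma Fd_mem {x : K} (hx : x ≠ 0) (s : List ℕ) : Fd s x ∈ AA K := by
  by_cases hs : s = []
  · rw [hs, Fd_nil]; exact (AA K).one_mem
  · have h1 := (AA K).add_mem (Q_le_AA hx (Fd_sub_Sd' x hs)) (Sd_mem hx s)
    rwa [sub_add_cancel] at h1

/-- the index set: a nonempty composition and a point -/
abbrev Iy (X : Set K) : Type _ := {p : List ℕ × K // p.1 ≠ [] ∧ p.2 ∈ X}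

variable {X : Set K} (hX : ∀ x ∈ X, x ≠ 0)

/-- the star sums -/
noncomputable def us : Option (Iy X) → AA K
  | none => 1
  | some p => ⟨Sd p.1.2 p.1.1, Sd_mem (hX _ p.2.2) p.1.1⟩

/-- the Poisson means -/
noncomputable def uf : Option (Iy X) → AA K
  | none => 1
  | some p => ⟨Fd p.1.1 p.1.2, Fd_mem (hX _ p.2.2) p.1.1⟩

/-- the words -/
def sw : Option (Iy X) → {w : List K // Adm w}
  | none => ⟨[], adm_nil⟩
  | some p => ⟨WP p.1.2 p.1.1, adm_WP (hX _ p.2.2) p.1.1⟩

include hX in
lemma sw_inj : Function.Injective (sw hX) := by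
  rintro (_ | p) (_ | q) h
  · rfl
  · exact absurd (congrArg Subtype.val h).symm (WP_ne_nil (hX _ q.2.2) q.2.1)
  · exact absurd (congrArg Subtype.val h) (WP_ne_nil (hX _ p.2.2) p.2.1)
  · have h1 : WP p.1.2 p.1.1 = WP q.1.2 q.1.1 := congrArg Subtype.val h
    have h2 := first_WP (hX _ p.2.2) (hX _ q.2.2) p.2.1 h1
    rw [← h2] at h1
    have h3 := WP_inj (hX _ p.2.2) h1
    exact congrArg some (Subtype.ext (Prod.ext h3 h2))

/-- the signs -/
noncomputable def sgn : Option (Iy X) → K
  | none => 1
  | some p => (sg p.1.1 : K)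

lemma SF_span {x : K} {d : ℕ} {f : K⟦X⟧} (hf : f ∈ SF x d) : ∀ h : f ∈ AA K,
    (⟨f, h⟩ : AA K) ∈ Submodule.span (ES K) (vw '' {b : {w : List K // Adm w} | nz b.1 < d}) := by
  refine Submodule.span_induction (p := fun f _ => ∀ h : f ∈ AA K,
    (⟨f, h⟩ : AA K) ∈ Submodule.span (ES K) (vw '' {b : {w : List K // Adm w} | nz b.1 < d})) ?_ ?_ ?_ ?_ hf
  · rintro _ ⟨w, h1, h2, h3, h4, rfl⟩ h
    refine Submodule.subset_span ⟨⟨w, h1⟩, h3, ?_⟩
    apply Subtype.ext
    show ex 0 * U w = U w
    rw [ex_zero, one_mul]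
  · intro h
    exact Submodule.zero_mem _
  · intro f g hf hg ihf ihg h
    exact Submodule.add_mem _ (ihf (SF_le_AA hf)) (ihg (SF_le_AA hg))
  · intro c f hf ihf h
    have h1 := Submodule.smul_mem (Submodule.span (ES K) (vw '' {b : {w : List K // Adm w} | nz b.1 < d}))
      (algebraMap K (ES K) c) (ihf (SF_le_AA hf))
    have h2 : (algebraMap K (ES K) c) • (⟨f, SF_le_AA hf⟩ : AA K) = ⟨c • f, h⟩ := by
      rw [algebraMap_smul]
      rfl
    rwa [h2] at h1

lemma us_one_eq : (us hX none : AA K) = vw ⟨[], adm_nil⟩ := mk_one.symm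

/-- **linear independence of the star sums over the exponentials** -/
theorem li_us : LinearIndependent (ES K) (us hX) := by
  refine li_tri (R := ES K) (M := AA K) li_words (fun w => nz w.1) (sw_inj hX) (fun o => algebraMap K (ES K) (sgn o)) (fun o h => ?_) fun o => ?_
  · have h1 := (algebraMap K (ES K)).injective (h.trans (map_zero _).symm)
    rcases o with _ | p
    · exact one_ne_zero h1
    · exact sg_ne _ h1
  · rw [algebraMap_smul]
    rcases o with _ | p
    · have h1 : us hX none - sgn (none : Option (Iy X)) • vw (sw hX none) = 0 := by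
        show (1 : AA K) - (1 : K) • mk 0 [] adm_nil = 0
        rw [one_smul, mk_one, sub_self]
      rw [h1]
      exact Submodule.zero_mem _
    · have h0 := Le_Sd (hX _ p.2.2) p.1.1 p.2.1
      have h1 := SF_span h0.mem (SF_le_AA h0.mem)
      have h2 : us hX (some p) - sgn (some p) • vw (sw hX (some p)) =
          ⟨Sd p.1.2 p.1.1 - (sg p.1.1 : K) • U (WP p.1.2 p.1.1), SF_le_AA h0.mem⟩ := by
        apply Subtype.ext
        show Sd p.1.2 p.1.1 - (sg p.1.1 : K) • (ex 0 * U (WP p.1.2 p.1.1)) = _
        rw [ex_zero, one_mul]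
      rw [h2]
      exact h1

/-- the length of an index -/
def ln : Option (Iy X) → ℕ
  | none => 0
  | some p => p.1.1.length

lemma Q_span {x : K} (hx : x ∈ X) {n : ℕ} {f : K⟦X⟧} (hf : f ∈ Q x n) : ∀ h : f ∈ AA K,
    (⟨f, h⟩ : AA K) ∈ Submodule.span (ES K) (us hX '' {o | ln o < n}) := by
  refine Submodule.span_induction (p := fun f _ => ∀ h : f ∈ AA K,
    (⟨f, h⟩ : AA K) ∈ Submodule.span (ES K) (us hX '' {o | ln o < n})) ?_ ?_ ?_ ?_ hf
  · rintro _ ⟨s, h1, h2, rfl⟩ h
    exact Submodule.subset_span ⟨some ⟨(s, x), h1, hx⟩, h2, rfl⟩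
  · intro h
    exact Submodule.zero_mem _
  · intro f g hf hg ihf ihg h
    exact Submodule.add_mem _ (ihf (Q_le_AA (hX _ hx) hf)) (ihg (Q_le_AA (hX _ hx) hg))
  · intro c f hf ihf h
    have h1 := Submodule.smul_mem (Submodule.span (ES K) (us hX '' {o | ln o < n}))
      (algebraMap K (ES K) c) (ihf (Q_le_AA (hX _ hx) hf))
    have h2 : (algebraMap K (ES K) c) • (⟨f, Q_le_AA (hX _ hx) hf⟩ : AA K) = ⟨c • f, h⟩ := by
      rw [algebraMap_smul]
      rfl
    rwa [h2] at h1

/-- **linear independence of the Poisson means over the exponentials** -/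
theorem li_uf : LinearIndependent (ES K) (uf hX) := by
  refine li_tri (R := ES K) (M := AA K) (li_us hX) ln Function.injective_id (fun _ => 1) (fun _ => one_ne_zero) fun o => ?_
  rw [one_smul]
  rcases o with _ | p
  · have h1 : uf hX none - us hX (id none) = 0 := sub_self _
    rw [h1]
    exact Submodule.zero_mem _
  · have h0 := Fd_sub_Sd' p.1.2 p.2.1
    exact Q_span hX p.2.2 h0 (Q_le_AA (hX _ p.2.2) h0)

end

end Pool.Agent.N778.MZ
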