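import Pool.Agent.N778.MZ.Tr2
import Pool.Agent.N778.MZ.Lim

/-!
# The values: all multiple zeta values
-/

set_option autoImplicit false
set_option linter.unusedSectionVars false

open PowerSeries Pool.Agent.N902.EW

namespace Pool.Agent.N778.MZ

/-- the generators of the base field -/
def S0 : Set ℂ := {z | IsAlgebraic ℚ z} ∪ {z | ∃ b : ℂ, IsAlgebraic ℚ b ∧ z = Complex.exp b}

/-- the base field -/
noncomputable def L0 : IntermediateField ℚ ℂ := IntermediateField.adjoin ℚ S0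

lemma exists_es {z : ℂ} (hz : z ∈ Algebra.adjoin ℚ S0) : ∃ f : ES Qb, evA io (f : AA Qb) = z := by
  induction hz using Algebra.adjoin_induction with
  | mem z hz =>
    rcases hz with hz | ⟨b, hb, rfl⟩
    · obtain ⟨a, ha⟩ := mem_range_io hz
      refine ⟨algebraMap Qb (ES Qb) a, ?_⟩
      show evA io (algebraMap Qb (AA Qb) a) = z
      rw [evA_algebraMap, ha]
    · obtain ⟨a, rfl⟩ := mem_range_io hb
      refine ⟨⟨mk a [] adm_nil, Submodule.subset_span ⟨a, rfl⟩⟩, ?_⟩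
      show evA io (mk a [] adm_nil) = _
      rw [evA_mk, U_nil, evk_one, mul_one, evk_ex]
  | algebraMap r =>
    refine ⟨algebraMap Qb (ES Qb) (algebraMap ℚ Qb r), ?_⟩
    show evA io (algebraMap Qb (AA Qb) (algebraMap ℚ Qb r)) = _
    rw [evA_algebraMap]
    simp
  | add x y _ _ hx hy =>
    obtain ⟨f, hf⟩ := hx
    obtain ⟨g, hg⟩ := hy
    exact ⟨f + g, by
      show evA io ((f : AA Qb) + (g : AA Qb)) = _
      rw [map_add, hf, hg]⟩
  | mul x y _ _ hx hy =>
    obtain ⟨f, hf⟩ := hx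
    obtain ⟨g, hg⟩ := hy
    exact ⟨f * g, by
      show evA io ((f : AA Qb) * (g : AA Qb)) = _
      rw [map_mul, hf, hg]⟩

open scoped IntermediateField.algebraAdjoinAdjoin in
theorem li_val {X : Set Qb} (hX : ∀ x ∈ X, x ≠ 0) : LinearIndependent L0 (fun o => evA io (uf hX o)) := by
  classical
  rw [L0, ← LinearIndependent.iff_fractionRing (Algebra.adjoin ℚ S0) (IntermediateField.adjoin ℚ S0)]
  rw [linearIndependent_iff']
  intro T g hg o ho
  choose f hf using fun o => exists_es (z := (g o : ℂ)) (g o).2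
  have h1 : evA io (∑ o ∈ T, (f o : AA Qb) * uf hX o) = 0 := by
    rw [map_sum, ← hg]
    refine Finset.sum_congr rfl fun q _ => ?_
    rw [map_mul, hf]
    rfl
  have h2 : ∑ o ∈ T, (f o : AA Qb) * uf hX o = 0 := evA_injective io (h1.trans (map_zero _).symm)
  have h3 := (linearIndependent_iff' (R := ES Qb) (M := AA Qb) (v := uf hX)).1 (li_uf hX) T f h2 o ho
  apply Subtype.ext
  rw [← hf o, h3]
  exact map_zero _

lemma map_Hn {K L : Type*} [Field K] [CharZero K] [Field L] [CharZero L] (φ : K →+* L) (s : List ℕ) (n : ℕ) :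
    φ (Hn K s n) = Hn L s n := by
  induction s generalizing n with
  | nil => rw [Hn_nil, Hn_nil, map_one]
  | cons m s ih =>
    rw [Hn_cons, Hn_cons, map_sum]
    refine Finset.sum_congr rfl fun i _ => ?_
    rw [map_div₀, map_pow, map_add, map_natCast, map_one, ih]

/-- the Poisson mean of the truncated multiple sums -/
noncomputable def PN (s : List ℕ) (x : ℂ) : ℂ :=
  Complex.exp (-x) * ∑' j : ℕ, x ^ j / j.factorial * Hn ℂ s j

lemma Hd_mem_SA {x : Qb} (hx : x ≠ 0) (s : List ℕ) : Hd s x ∈ SA Qb := by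
  rw [← ex_mul_Fd]
  refine SA_mul ?_ (Fd_mem hx s)
  exact Submodule.subset_span ⟨x, [], trivial, by rw [U_nil, mul_one]⟩

theorem evA_Fd {x : Qb} (hx : x ≠ 0) (s : List ℕ) : evA io (⟨Fd s x, Fd_mem hx s⟩ : AA Qb) = PN s (io x) := by
  have h1 : (⟨Fd s x, Fd_mem hx s⟩ : AA Qb).1 = ex (-x) * Hd s x := rfl
  rw [evA_apply, h1, evk_mul (EFK.ex _) (EFK.of_mem (Hd_mem_SA hx s)), evk_ex, PN, map_neg]
  congr 1
  rw [evk]
  refine tsum_congr fun n => ?_
  rw [Hd, coeff_mk, map_mul, map_div₀, map_pow, map_natCast, map_Hn]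

/-- **linear independence of the Poisson means and `1`** -/
theorem li_PN (X : Set ℂ) (hX : ∀ x ∈ X, IsAlgebraic ℚ x ∧ x ≠ 0) :
    LinearIndependent L0 (fun o : Option (Jx X) => o.elim 1 (fun p => PN p.1.1 p.1.2)) := by
  let X' : Set Qb := {x | io x ∈ X}
  have hX0 : ∀ x ∈ X', x ≠ 0 := fun x hx h => (hX _ hx).2 (by rw [h, map_zero])
  have h1 := li_val hX0
  choose f hf using fun p : Jx X => mem_range_io (hX p.1.2 p.2.2).1
  let g : Jx X → Iy X' := fun p => ⟨(p.1.1, f p), p.2.1, by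
    show io (f p) ∈ X
    rw [hf]; exact p.2.2⟩
  have hg : Function.Injective g := by
    intro p q h
    have e1 : f p = f q := congrArg (fun z : Iy X' => z.1.2) h
    have e2 : p.1.1 = q.1.1 := congrArg (fun z : Iy X' => z.1.1) h
    apply Subtype.ext
    apply Prod.ext e2
    rw [← hf p, ← hf q, e1]
  have h2 : LinearIndependent L0 ((fun o : Option (Iy X') => evA io (uf hX0 o)) ∘ Option.map g) :=
    h1.comp (Option.map g) (Option.map_injective hg)
  have h3 : ((fun o : Option (Iy X') => evA io (uf hX0 o)) ∘ Option.map g) =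
      fun o : Option (Jx X) => o.elim 1 (fun p => PN p.1.1 p.1.2) := by
    funext o
    rcases o with _ | p
    · exact map_one _
    · show evA io (⟨Fd p.1.1 (f p), Fd_mem (hX0 _ (g p).2.2) p.1.1⟩ : AA Qb) = PN p.1.1 p.1.2
      rw [evA_Fd (hX0 _ (g p).2.2), hf]
  rwa [h3] at h2

/-- nonempty with positive entries -/
def Wo (w : List ℕ) : Prop := w ≠ [] ∧ ∀ k ∈ w, 1 ≤ k

lemma Hn_eq {w : List ℕ} (hw : ∀ k ∈ w, 1 ≤ k) (j : ℕ) : H w j = Hn ℂ (w.map (· - 1)) j := by
  induction w generalizing j with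
  | nil => rfl
  | cons k w ih =>
    rw [H, List.map_cons, Hn_cons]
    refine Finset.sum_congr rfl fun i _ => ?_
    have h1 : k - 1 + 1 = k := Nat.sub_add_cancel (hw k (by simp))
    rw [ih (fun l hl => hw l (List.mem_cons_of_mem _ hl)), h1]

lemma Sn_eq {w : List ℕ} (hw : ∀ k ∈ w, 1 ≤ k) (x : ℂ) : S w x = PN (w.map (· - 1)) x := by
  rw [S, PN]
  congr 1
  exact tsum_congr fun j => by rw [Hn_eq hw]

lemma map_inj1 {v w : List ℕ} (hv : ∀ k ∈ v, 1 ≤ k) (hw : ∀ k ∈ w, 1 ≤ k) (h : v.map (· - 1) = w.map (· - 1)) : v = w := by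
  induction v generalizing w with
  | nil => exact (List.map_eq_nil_iff.1 h.symm).symm
  | cons k v ih =>
    rcases w with _ | ⟨l, w⟩
    · exact absurd h (by simp)
    · rw [List.map_cons, List.map_cons] at h
      obtain ⟨h1, h2⟩ := List.cons.inj h
      have h3 := hv k (by simp)
      have h4 := hw l (by simp)
      rw [ih (fun a ha => hv a (List.mem_cons_of_mem _ ha)) (fun a ha => hw a (List.mem_cons_of_mem _ ha)) h2]
      congr 1
      omega

/-- **linear independence of the Poisson means and `1`** -/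
theorem li_Sn (X : Set ℂ) (hX : ∀ x ∈ X, IsAlgebraic ℚ x ∧ x ≠ 0) :
    LinearIndependent L0 (fun o : Option {p : List ℕ × ℂ // Wo p.1 ∧ p.2 ∈ X} =>
      o.elim 1 (fun p => S p.1.1 p.1.2)) := by
  let g : {p : List ℕ × ℂ // Wo p.1 ∧ p.2 ∈ X} → Jx X := fun p => ⟨(p.1.1.map (· - 1), p.1.2), by
    rw [Ne, List.map_eq_nil_iff]; exact p.2.1.1, p.2.2⟩
  have hg : Function.Injective g := by
    intro p q h
    have e1 : p.1.1.map (· - 1) = q.1.1.map (· - 1) := congrArg (fun z : Jx X => z.1.1) h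
    have e2 : p.1.2 = q.1.2 := congrArg (fun z : Jx X => z.1.2) h
    exact Subtype.ext (Prod.ext (map_inj1 p.2.1.2 q.2.1.2 e1) e2)
  have h2 := (li_PN X hX).comp (Option.map g) (Option.map_injective hg)
  have h3 : ((fun o : Option (Jx X) => o.elim 1 (fun p => PN p.1.1 p.1.2)) ∘ Option.map g) =
      fun o : Option {p : List ℕ × ℂ // Wo p.1 ∧ p.2 ∈ X} => o.elim 1 (fun p => S p.1.1 p.1.2) := by
    funext o
    rcases o with _ | p
    · rfl
    · show PN (p.1.1.map (· - 1)) p.1.2 = S p.1.1 p.1.2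
      rw [Sn_eq p.2.1.2]
  rwa [h3] at h2

/-! ### Admissible words -/

/-- admissible words: the first entry is at least `2`, the other ones are positive -/
def AdW : List ℕ → Prop
  | [] => False
  | k :: w => 2 ≤ k ∧ ∀ l ∈ w, 1 ≤ l

lemma AdW.wo {w : List ℕ} (h : AdW w) : Wo w := by
  rcases w with _ | ⟨k, w⟩
  · exact absurd h id
  · refine ⟨by simp, fun l hl => ?_⟩
    rcases List.mem_cons.1 hl with rfl | hl
    · exact le_trans (by norm_num) h.1
    · exact h.2 l hl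

/-- the harmonic numbers -/
noncomputable def hr (j : ℕ) : ℝ := ∑ i ∈ Finset.range j, 1 / ((i : ℝ) + 1)

lemma hr_nonneg (j : ℕ) : 0 ≤ hr j := Finset.sum_nonneg fun i _ => by positivity

lemma hr_mono {i j : ℕ} (h : i ≤ j) : hr i ≤ hr j :=
  Finset.sum_le_sum_of_subset_of_nonneg (Finset.range_mono h) fun k _ _ => by positivity

lemma norm_H_le_hr {w : List ℕ} (hw : ∀ k ∈ w, 1 ≤ k) (j : ℕ) : ‖H w j‖ ≤ hr j ^ w.length := by
  induction w generalizing j with
  | nil => rw [H, norm_one, List.length_nil, pow_zero]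
  | cons k w ih =>
    rw [H]
    refine (norm_sum_le _ _).trans ?_
    have h1 : ∀ i ∈ Finset.range j, ‖H w i / ((i : ℂ) + 1) ^ k‖ ≤ hr j ^ w.length * (1 / ((i : ℝ) + 1)) := by
      intro i hi
      have h2 := ih (fun l hl => hw l (List.mem_cons_of_mem _ hl)) i
      have h3 : hr i ^ w.length ≤ hr j ^ w.length :=
        pow_le_pow_left₀ (hr_nonneg i) (hr_mono (Finset.mem_range.1 hi).le) _
      rw [norm_div, norm_pow, norm_succ, mul_one_div]
      have h4 : (1 : ℝ) ≤ (i : ℝ) + 1 := by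
        have : (0 : ℝ) ≤ i := Nat.cast_nonneg i
        linarith
      have h5 : (i : ℝ) + 1 ≤ ((i : ℝ) + 1) ^ k := le_self_pow₀ h4 (by have := hw k (by simp); omega)
      exact div_le_div₀ (pow_nonneg (hr_nonneg j) _) (h2.trans h3) (by positivity) h5
    refine (Finset.sum_le_sum h1).trans (le_of_eq ?_)
    rw [← Finset.mul_sum, List.length_cons, pow_succ]
    rfl

lemma hr_le (j : ℕ) : hr j ≤ 1 + Real.log ((j : ℝ) + 1) := by
  have h1 : hr j = (harmonic j : ℝ) := by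
    rw [hr, harmonic]
    push_cast
    exact Finset.sum_congr rfl fun i _ => by rw [one_div]
  have h2 := harmonic_le_one_add_log j
  rw [h1]
  refine h2.trans ?_
  rcases j with _ | j
  · simp
  · have : Real.log ((j + 1 : ℕ) : ℝ) ≤ Real.log (((j + 1 : ℕ) : ℝ) + 1) := by
      apply Real.log_le_log
      · positivity
      · linarith
    linarith

lemma hr_pow_le (r : ℕ) : ∃ C : ℝ, 0 ≤ C ∧ ∀ j : ℕ, hr j ^ r ≤ C * ((j : ℝ) + 1) ^ (1 / 2 : ℝ) := by
  set ε : ℝ := 1 / (2 * ((r : ℝ) + 1)) with hε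
  have hε0 : 0 < ε := by positivity
  have hεr : ε * r ≤ 1 / 2 := by
    rw [hε, div_mul_eq_mul_div, one_mul, div_le_div_iff₀ (by positivity) (by norm_num)]
    linarith
  refine ⟨(1 + 1 / ε) ^ r, by positivity, fun j => ?_⟩
  have hj : (1 : ℝ) ≤ (j : ℝ) + 1 := by
    have : (0 : ℝ) ≤ j := Nat.cast_nonneg j
    linarith
  have h1 : hr j ≤ (1 + 1 / ε) * ((j : ℝ) + 1) ^ ε := by
    have h2 := hr_le j
    have h3 := Real.log_le_rpow_div (x := (j : ℝ) + 1) (by linarith) hε0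
    have h4 : 1 ≤ ((j : ℝ) + 1) ^ ε := Real.one_le_rpow hj hε0.le
    have h5 : ((j : ℝ) + 1) ^ ε / ε = 1 / ε * ((j : ℝ) + 1) ^ ε := by ring
    rw [h5] at h3
    linarith
  refine (pow_le_pow_left₀ (hr_nonneg j) h1 r).trans ?_
  rw [mul_pow, ← Real.rpow_natCast (((j : ℝ) + 1) ^ ε), ← Real.rpow_mul (by linarith)]
  exact mul_le_mul_of_nonneg_left (Real.rpow_le_rpow_of_exponent_le hj hεr) (by positivity)

lemma summ_Hn {k : ℕ} {w : List ℕ} (hw : AdW (k :: w)) : Summable fun i : ℕ => H w i / ((i : ℂ) + 1) ^ k := by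
  obtain ⟨C, hC, h⟩ := hr_pow_le w.length
  have hs : Summable fun i : ℕ => C * (1 / ((i : ℝ) + 1) ^ (3 / 2 : ℝ)) := by
    have h1 := (summable_nat_add_iff 1).2 (Real.summable_one_div_nat_rpow.2 (show (1 : ℝ) < 3 / 2 by norm_num))
    refine (h1.mul_left C).congr fun i => ?_
    push_cast
    rfl
  refine Summable.of_norm_bounded hs fun i => ?_
  have hi : (1 : ℝ) ≤ (i : ℝ) + 1 := by
    have : (0 : ℝ) ≤ i := Nat.cast_nonneg i
    linarith
  have hi0 : (0 : ℝ) < (i : ℝ) + 1 := by linarith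
  rw [norm_div, norm_pow, norm_succ, mul_one_div]
  have h1 : ‖H w i‖ ≤ C * ((i : ℝ) + 1) ^ (1 / 2 : ℝ) := (norm_H_le_hr hw.2 i).trans (h i)
  have h2 : ((i : ℝ) + 1) ^ 2 ≤ ((i : ℝ) + 1) ^ k := pow_le_pow_right₀ hi hw.1
  calc ‖H w i‖ / ((i : ℝ) + 1) ^ k ≤ C * ((i : ℝ) + 1) ^ (1 / 2 : ℝ) / ((i : ℝ) + 1) ^ 2 :=
        div_le_div₀ (by positivity) h1 (by positivity) h2
    _ = C / ((i : ℝ) + 1) ^ (3 / 2 : ℝ) := by
        have h3 : ((i : ℝ) + 1) ^ 2 = ((i : ℝ) + 1) ^ (1 / 2 : ℝ) * ((i : ℝ) + 1) ^ (3 / 2 : ℝ) := by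
          rw [← Real.rpow_add hi0, ← Real.rpow_natCast]
          congr 1
          norm_num
        rw [h3]
        field_simp

lemma H_add_tln {w : List ℕ} (hw : AdW w) (j : ℕ) : H w j + tl w j = zt w := by
  rcases w with _ | ⟨k, w⟩
  · exact absurd hw id
  · rw [H, tl, zt, ← (summ_Hn hw).sum_add_tsum_nat_add j]
    congr 1
    exact tsum_congr fun i => by push_cast; rfl

lemma norm_Hn_le {w : List ℕ} (hw : AdW w) : ∃ C : ℝ, 0 ≤ C ∧ ∀ j, ‖H w j‖ ≤ C := by
  rcases w with _ | ⟨k, w⟩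
  · exact absurd hw id
  · have h := (summ_Hn hw).norm
    refine ⟨∑' i : ℕ, ‖H w i / ((i : ℂ) + 1) ^ k‖, tsum_nonneg fun i => norm_nonneg _, fun j => ?_⟩
    rw [H]
    exact (norm_sum_le _ _).trans (h.sum_le_tsum _ fun i _ => norm_nonneg _)

/-- `ζ(w) = S_w(x) + T_w(x)` -/
theorem S_add_Tn {w : List ℕ} (hw : AdW w) (x : ℂ) : S w x + T w x = zt w := by
  obtain ⟨C, hC, h⟩ := norm_Hn_le hw
  have h1 := summ_exp h x
  have ht : ∀ j, tl w j = zt w - H w j := fun j => by rw [← H_add_tln hw j]; ring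
  have h2 : Summable fun j : ℕ => x ^ j / (j.factorial : ℂ) * tl w j := by
    refine summ_exp (C := ‖zt w‖ + C) (fun j => ?_) x
    rw [ht]
    exact (norm_sub_le _ _).trans (by have := h j; linarith)
  have h3 : ∑' j : ℕ, x ^ j / (j.factorial : ℂ) * zt w = Complex.exp x * zt w := by
    rw [tsum_mul_right, Complex.exp_eq_exp_ℂ, NormedSpace.exp_eq_tsum_div]
  rw [S, T, ← mul_add, ← h1.tsum_add h2]
  have h4 : ∑' j : ℕ, (x ^ j / (j.factorial : ℂ) * H w j + x ^ j / (j.factorial : ℂ) * tl w j) =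
      ∑' j : ℕ, x ^ j / (j.factorial : ℂ) * zt w := tsum_congr fun j => by rw [ht]; ring
  rw [h4, h3, ← mul_assoc, ← Complex.exp_add, neg_add_cancel, Complex.exp_zero, one_mul]

lemma S_zeron {w : List ℕ} (hw : w ≠ []) : S w 0 = 0 := by
  rw [S, tsum_eq_single 0]
  · rcases w with _ | ⟨k, w⟩
    · exact absurd rfl hw
    · simp [H]
  · intro j hj
    rw [zero_pow hj]
    simp

lemma T_zeron {w : List ℕ} (hw : AdW w) : T w 0 = zt w := by
  have h := S_add_Tn hw 0
  rwa [S_zeron hw.wo.1, zero_add] at h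

lemma Tn_eq {w : List ℕ} (hw : AdW w) (x : ℂ) : T w x = zt w - S w x := by
  rw [← S_add_Tn hw x]; ring

open Filter Topology in
theorem Sn_tendsto {w : List ℕ} (hw : AdW w) : Tendsto (fun x : ℝ => S w x) atTop (𝓝 (zt w)) := by
  have h0 : Tendsto (tl w) atTop (𝓝 0) := by
    rcases w with _ | ⟨k, w⟩
    · exact absurd hw id
    · have h1 := (summ_Hn hw).hasSum.tendsto_sum_nat
      have h2 : Tendsto (fun j => zt (k :: w) - H (k :: w) j) atTop (𝓝 (zt (k :: w) - zt (k :: w))) :=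
        Tendsto.sub tendsto_const_nhds h1
      rw [sub_self] at h2
      refine h2.congr fun j => ?_
      rw [← H_add_tln hw j]; ring
  have h3 : Tendsto (fun x : ℝ => T w x) atTop (𝓝 0) := pois_tendsto h0
  have h1 : Tendsto (fun x : ℝ => zt w - T w x) atTop (𝓝 (zt w - 0)) := Tendsto.sub tendsto_const_nhds h3
  rw [sub_zero] at h1
  refine h1.congr fun x => ?_
  rw [← S_add_Tn hw x]; ring

end Pool.Agent.N778.MZ
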