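import Pool.Agent.N902.EW.Fi

/-!
# Poisson means of truncated multiple zeta values as words
-/

set_option autoImplicit false
set_option linter.unusedSectionVars false

open PowerSeries Pool.Agent.N902.EW

namespace Pool.Agent.N778.MZ

section

variable {K : Type*} [Field K] [CharZero K]

/-- the truncated multiple sums, the entry `m` stands for the exponent `m + 2` -/
noncomputable def Hm (K : Type*) [Field K] : List ℕ → ℕ → K
  | [], _ => 1
  | m :: s, n => ∑ i ∈ Finset.range n, Hm K s i / ((i : K) + 1) ^ (m + 2)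

lemma Hm_nil (n : ℕ) : Hm K [] n = 1 := rfl

lemma Hm_cons (m : ℕ) (s : List ℕ) (n : ℕ) :
    Hm K (m :: s) n = ∑ i ∈ Finset.range n, Hm K s i / ((i : K) + 1) ^ (m + 2) := rfl

/-- the series `∑ H_n x^n / n!` -/
noncomputable def Hc (s : List ℕ) (x : K) : K⟦X⟧ := PowerSeries.mk fun n => x ^ n / n.factorial * Hm K s n

/-- the auxiliary series -/
noncomputable def Gc (j : ℕ) (s : List ℕ) (x : K) : K⟦X⟧ :=
  PowerSeries.mk fun n => if n = 0 then 0 else x ^ n / (n.factorial * (n : K) ^ j) * Hm K s (n - 1)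

/-- the Poisson mean -/
noncomputable def Fc (s : List ℕ) (x : K) : K⟦X⟧ := ex (-x) * Hc s x

lemma Hc_nil (x : K) : Hc [] x = ex x := by
  ext n
  rw [Hc, coeff_mk, coeff_ex, Hm_nil, mul_one]

lemma Fc_nil (x : K) : Fc [] x = 1 := by
  rw [Fc, Hc_nil, ← ex_add, neg_add_cancel, ex_zero]

lemma ex_mul_Fc (s : List ℕ) (x : K) : ex x * Fc s x = Hc s x := by
  rw [Fc, ← mul_assoc, ← ex_add, add_neg_cancel, ex_zero, one_mul]

lemma Gc_succ (j : ℕ) (s : List ℕ) (x : K) : Gc (j + 1) s x = ig (Gc j s x) := by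
  ext n
  rw [coeff_ig, Gc, Gc, coeff_mk, coeff_mk]
  split_ifs with h
  · rw [zero_div]
  · have h1 : (n : K) ≠ 0 := by exact_mod_cast h
    have h2 : (n.factorial : K) ≠ 0 := by exact_mod_cast n.factorial_ne_zero
    rw [pow_succ (n : K) j]
    field_simp

lemma th_Hc (m : ℕ) (s : List ℕ) (x : K) :
    th (Hc (m :: s) x) - x • (X * Hc (m :: s) x) = Gc (m + 1) s x := by
  ext n
  rw [map_sub, coeff_smul, coeff_th]
  rcases n with _ | n
  · simp [Gc]
  · rw [coeff_succ_X_mul, Hc, Gc, coeff_mk, coeff_mk, coeff_mk, if_neg (Nat.succ_ne_zero n), Hm_cons, Hm_cons,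
      Finset.sum_range_succ, Nat.add_sub_cancel]
    have h1 : ((n + 1).factorial : K) = (n + 1) * n.factorial := by
      rw [Nat.factorial_succ]; push_cast; ring
    have h2 : (n.factorial : K) ≠ 0 := by exact_mod_cast n.factorial_ne_zero
    have h3 : ((n : K) + 1) ≠ 0 := by exact_mod_cast Nat.succ_ne_zero n
    rw [h1, smul_eq_mul, pow_succ x, pow_succ ((n : K) + 1) (m + 1)]
    push_cast
    field_simp
    ring

lemma Fc_cons (m : ℕ) (s : List ℕ) (x : K) : ig (ex (-x) * Gc (m + 1) s x) = Fc (m :: s) x := by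
  have h1 : th (Fc (m :: s) x) = ex (-x) * Gc (m + 1) s x := by
    rw [← th_Hc, Fc, th_mul, th_ex, smul_eq_C_mul, smul_eq_C_mul, map_neg]
    ring
  have h0 : coeff 0 (Fc (m :: s) x) = 0 := by
    rw [Fc, coeff_zero_eq_constantCoeff_apply, map_mul, ← coeff_zero_eq_constantCoeff_apply (φ := Hc (m :: s) x), Hc,
      coeff_mk]
    simp [Hm_cons]
  rw [← h1, ig_th h0]

lemma Gc_zero_nil {x : K} (hx : x ≠ 0) : Gc 0 [] x = lt x := by
  ext n
  rw [Gc, coeff_mk, lt_ne hx, map_sub, coeff_ex, coeff_one]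
  split_ifs with h
  · rw [h]; simp
  · rw [Hm_nil, pow_zero, mul_one, mul_one, sub_zero]

lemma Gc_zero_cons (m : ℕ) (s : List ℕ) (x : K) : Gc 0 (m :: s) x = ex x * Fc (m :: s) x - Gc (m + 2) s x := by
  rw [ex_mul_Fc]
  ext n
  rw [map_sub, Gc, Gc, Hc, coeff_mk, coeff_mk, coeff_mk]
  rcases n with _ | n
  · simp [Hm_cons]
  · rw [if_neg (Nat.succ_ne_zero n), if_neg (Nat.succ_ne_zero n), Nat.add_sub_cancel, Hm_cons, Hm_cons,
      Finset.sum_range_succ]
    have h2 : ((n + 1).factorial : K) ≠ 0 := by exact_mod_cast (n + 1).factorial_ne_zero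
    have h3 : ((n : K) + 1) ≠ 0 := by exact_mod_cast Nat.succ_ne_zero n
    push_cast
    field_simp
    ring

lemma ig_sub (f g : K⟦X⟧) : ig (f - g) = ig f - ig g := by
  ext n
  rw [map_sub, coeff_ig, coeff_ig, coeff_ig, map_sub, sub_div]

lemma Gc_succ_cons (j m : ℕ) (s : List ℕ) (x : K) :
    Gc (j + 1) (m :: s) x = ig^[j] (ig (ex x * Fc (m :: s) x)) - Gc (m + j + 3) s x := by
  induction j with
  | zero => rw [Gc_succ, Gc_zero_cons, ig_sub, ← Gc_succ]; rfl
  | succ j ih =>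
    rw [Gc_succ, ih, ig_sub, ← Gc_succ, Function.iterate_succ_apply']
    congr 2

lemma Gc_succ_nil (j : ℕ) {x : K} (hx : x ≠ 0) : Gc (j + 1) [] x = ig^[j] (U [x]) := by
  induction j with
  | zero => rw [Gc_succ, Gc_zero_nil hx, U_cons, U_nil, mul_one]; rfl
  | succ j ih => rw [Gc_succ, ih, Function.iterate_succ_apply']

/-- the recursion -/
lemma Fc_rec (j m : ℕ) (s : List ℕ) (x : K) :
    Fc (j :: m :: s) x = ig (ex (-x) * ig^[j] (ig (ex x * Fc (m :: s) x))) - Fc ((m + j + 2) :: s) x := by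
  rw [← Fc_cons j, Gc_succ_cons, mul_sub, ig_sub, ← Fc_cons (m + j + 2)]

lemma Fc_single (j : ℕ) {x : K} (hx : x ≠ 0) : Fc [j] x = ig (ex (-x) * ig^[j] (U [x])) := by
  rw [← Fc_cons j, Gc_succ_nil j hx]

/-! ### The filtration by the number of the nonzero letters -/

open Classical in
/-- the number of the nonzero letters -/
noncomputable def nz : List K → ℕ
  | [] => 0
  | a :: v => nz v + if a = 0 then 0 else 1

lemma nz_nil : nz ([] : List K) = 0 := rfl

lemma nz_zero (v : List K) : nz (0 :: v) = nz v := by rw [nz, if_pos rfl, add_zero]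

lemma nz_ne {a : K} (h : a ≠ 0) (v : List K) : nz (a :: v) = nz v + 1 := by rw [nz, if_neg h]

lemma nz_le (a : K) (v : List K) : nz (a :: v) ≤ nz v + 1 := by
  rw [nz]; split_ifs <;> omega

lemma le_nz (a : K) (v : List K) : nz v ≤ nz (a :: v) := by
  rw [nz]; split_ifs <;> omega

/-- the letters are `0`, `x`, `-x` -/
def Let (x : K) (w : List K) : Prop := ∀ a ∈ w, a = 0 ∨ a = x ∨ a = -x

lemma Let.cons {x a : K} {w : List K} (ha : a = 0 ∨ a = x ∨ a = -x) (h : Let x w) : Let x (a :: w) := by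
  intro b hb
  rcases List.mem_cons.1 hb with rfl | hb
  · exact ha
  · exact h b hb

/-- the span of the words with less than `d` nonzero letters -/
def SF (x : K) (d : ℕ) : Submodule K K⟦X⟧ :=
  Submodule.span K {f | ∃ w : List K, Adm w ∧ w ≠ [] ∧ nz w < d ∧ Let x w ∧ f = U w}

lemma SF_mono (x : K) {d e : ℕ} (h : d ≤ e) : SF x d ≤ SF x e := by
  refine Submodule.span_mono ?_
  rintro _ ⟨w, h1, h2, h3, h4, rfl⟩
  exact ⟨w, h1, h2, by omega, h4, rfl⟩

lemma U_mem_SF {x : K} {d : ℕ} {w : List K} (h1 : Adm w) (h2 : w ≠ []) (h3 : nz w < d) (h4 : Let x w) :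
    U w ∈ SF x d := Submodule.subset_span ⟨w, h1, h2, h3, h4, rfl⟩

lemma SF_le_SP (x : K) (d : ℕ) : SF x d ≤ SP K := by
  refine Submodule.span_mono ?_
  rintro _ ⟨w, h1, h2, h3, h4, rfl⟩
  exact ⟨w, h1, h2, rfl⟩

lemma ig_zero' : ig (0 : K⟦X⟧) = 0 := by ext n; rw [coeff_ig]; simp

lemma ig_lt_mem {x a : K} (ha : a = 0 ∨ a = x ∨ a = -x) {d : ℕ} {f : K⟦X⟧} (hf : f ∈ SF x d) :
    ig (lt a * f) ∈ SF x (d + 1) := by
  refine Submodule.span_induction (p := fun f _ => ig (lt a * f) ∈ SF x (d + 1)) ?_ ?_ ?_ ?_ hf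
  · rintro _ ⟨w, h1, h2, h3, h4, rfl⟩
    rw [← U_cons]
    exact U_mem_SF (adm_cons h1 h2) (by simp) (by have := nz_le a w; omega) (h4.cons ha)
  · rw [mul_zero, ig_zero']
    exact Submodule.zero_mem _
  · intro f g _ _ hf hg
    rw [mul_add, ig_add]
    exact Submodule.add_mem _ hf hg
  · intro c f _ hf
    rw [mul_smul_comm, ig_smul]
    exact Submodule.smul_mem _ _ hf

lemma ig_mem {x : K} {d : ℕ} {f : K⟦X⟧} (hf : f ∈ SF x d) : ig f ∈ SF x d := by
  refine Submodule.span_induction (p := fun f _ => ig f ∈ SF x d) ?_ ?_ ?_ ?_ hf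
  · rintro _ ⟨w, h1, h2, h3, h4, rfl⟩
    have h5 : ig (U w) = U (0 :: w) := by rw [U_cons, lt_zero, one_mul]
    rw [h5]
    exact U_mem_SF (adm_cons h1 h2) (by simp) (by rw [nz_zero]; exact h3) (h4.cons (Or.inl rfl))
  · rw [ig_zero']
    exact Submodule.zero_mem _
  · intro f g _ _ hf hg
    rw [ig_add]
    exact Submodule.add_mem _ hf hg
  · intro c f _ hf
    rw [ig_smul]
    exact Submodule.smul_mem _ _ hf

/-- the leading word -/
structure Ld (x : K) (d : ℕ) (w : List K) (f : K⟦X⟧) : Prop where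
  adm : Adm w
  ne : w ≠ []
  nz : nz w ≤ d
  lets : Let x w
  mem : f - U w ∈ SF x d

lemma Ld.E0 {x : K} {d : ℕ} {w : List K} {f : K⟦X⟧} (h : Ld x d w f) : Ld x d (0 :: w) (ig f) where
  adm := adm_cons h.adm h.ne
  ne := by simp
  nz := by rw [nz_zero]; exact h.nz
  lets := h.lets.cons (Or.inl rfl)
  mem := by
    rw [U_cons, lt_zero, one_mul, ← ig_sub]
    exact ig_mem h.mem

lemma Ld.Ea {x a : K} (ha0 : a ≠ 0) (ha : a = 0 ∨ a = x ∨ a = -x) {d : ℕ} {w : List K} {f : K⟦X⟧} (h : Ld x d w f) :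
    Ld x (d + 1) (a :: w) (ig (ex a * f)) where
  adm := adm_cons h.adm h.ne
  ne := by simp
  nz := (nz_le _ _).trans (Nat.succ_le_succ h.nz)
  lets := h.lets.cons ha
  mem := by
    have h1 : ex a * f = lt a * f + f := by rw [lt_ne ha0]; ring
    have h2 : ig (ex a * f) - U (a :: w) = ig (lt a * (f - U w)) + ig (f - U w) + U (0 :: w) := by
      rw [h1, ig_add, U_cons, U_cons, lt_zero, one_mul, mul_sub, ig_sub, ig_sub]
      ring
    rw [h2]
    refine Submodule.add_mem _ (Submodule.add_mem _ (ig_lt_mem ha h.mem) (SF_mono x (Nat.le_succ d) (ig_mem h.mem))) ?_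
    exact U_mem_SF (adm_cons h.adm h.ne) (by simp) (by rw [nz_zero]; exact Nat.lt_succ_of_le h.nz)
      (h.lets.cons (Or.inl rfl))

lemma Ld.iter {x : K} {d : ℕ} {v : List K} {f : K⟦X⟧} (h : Ld x d (x :: v) f) (j : ℕ) :
    Ld x d (zs x j ++ v) (ig^[j] f) := by
  induction j with
  | zero => exact h
  | succ j ih =>
    rw [Function.iterate_succ_apply']
    exact ih.E0

/-- the word of a composition -/
def WW (x : K) : List ℕ → List K
  | [] => []
  | m :: s => -x :: (zs x m ++ WW x s)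

lemma WW_cons (x : K) (m : ℕ) (s : List ℕ) : WW x (m :: s) = -x :: (zs x m ++ WW x s) := rfl

lemma nz_zs_append {x : K} (hx : x ≠ 0) (m : ℕ) (v : List K) : nz (zs x m ++ v) = nz v + 1 := by
  induction m with
  | zero => rw [zs, List.singleton_append, nz_ne hx]
  | succ m ih => rw [zs, List.cons_append, nz_zero, ih]

lemma nz_WW {x : K} (hx : x ≠ 0) (s : List ℕ) : nz (WW x s) = 2 * s.length := by
  induction s with
  | nil => rfl
  | cons m s ih =>
    rw [WW_cons, nz_ne (neg_ne_zero.2 hx), nz_zs_append hx, ih, List.length_cons]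
    ring

/-- **the leading word of a Poisson mean** -/
theorem Ld_Fc {x : K} (hx : x ≠ 0) : ∀ (n : ℕ) (s : List ℕ), s.length = n + 1 → Ld x (2 * (n + 1)) (WW x s) (Fc s x) := by
  intro n
  induction n with
  | zero =>
    intro s hs
    obtain ⟨j, rfl⟩ := List.length_eq_one_iff.1 hs
    have h1 : Ld x 1 [x] (U [x]) :=
      { adm := ⟨trivial, fun _ => hx⟩
        ne := by simp
        nz := by rw [nz_ne hx, nz_nil]
        lets := by
          intro a ha
          exact Or.inr (Or.inl (List.mem_singleton.1 ha))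
        mem := by rw [sub_self]; exact Submodule.zero_mem _ }
    have h2 := (h1.iter (v := []) j).Ea (neg_ne_zero.2 hx) (Or.inr (Or.inr rfl))
    rw [Fc_single j hx]
    exact h2
  | succ n ih =>
    intro s hs
    rcases s with _ | ⟨j, s⟩
    · simp at hs
    rcases s with _ | ⟨m, s⟩
    · simp at hs
    have hl : (m :: s).length = n + 1 := by simpa using hs
    have h1 := ih (m :: s) hl
    have h2 := ((h1.Ea hx (Or.inr (Or.inl rfl))).iter j).Ea (neg_ne_zero.2 hx) (Or.inr (Or.inr rfl))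
    have h3 := ih ((m + j + 2) :: s) hl
    have e : WW x (j :: m :: s) = -x :: (zs x j ++ WW x (m :: s)) := rfl
    rw [e]
    refine ⟨h2.adm, h2.ne, ?_, h2.lets, ?_⟩
    · have := h2.nz
      omega
    · have h5 : Fc ((m + j + 2) :: s) x ∈ SF x (2 * (n + 1) + 1) := by
        have h6 : U (WW x ((m + j + 2) :: s)) ∈ SF x (2 * (n + 1) + 1) :=
          U_mem_SF h3.adm h3.ne (Nat.lt_succ_of_le h3.nz) h3.lets
        have h7 := Submodule.add_mem _ (SF_mono x (Nat.le_succ (2 * (n + 1))) h3.mem) h6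
        rwa [sub_add_cancel] at h7
      rw [Fc_rec, sub_right_comm]
      exact Submodule.sub_mem _ (SF_mono x (by omega) h2.mem) (SF_mono x (by omega) h5)

end

end Pool.Agent.N778.MZ
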